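import Pool.Agent.Run7.h32.On.Vis

/-!
The edge inequalities with viscosity.
-/

set_option autoImplicit false

namespace Pool.Agent.Run7.h32.On

lemma e1_y {B D x : ℝ} (hB : 317 / 100 ≤ B) (hB4 : B ≤ 401 / 100) (hD0 : 0 < D)
    (hD1 : D ≤ 1 / 10000) (hx0 : 0 ≤ x) (hx1 : x ≤ 1) :
    0 ≤ (7 / 10 * B - 2) * (1 - x ^ 2) - 4 / 10 * (x * (1 - x))
      + 295 / 100 * D * (7 / 10 * B - 2) * x ^ 2 - 5 / 100 * B * D - 6 / 1000 * D := by
  have h1 : 0 ≤ (1 - x) * ((7 / 10 * B - 2) * (1 + x) - 4 / 10 * x - 38 / 1000) := by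
    apply mul_nonneg (by linarith)
    have : (219 / 1000) * (1 + x) ≤ (7 / 10 * B - 2) * (1 + x) :=
      mul_le_mul_of_nonneg_right (by linarith) (by linarith)
    linarith
  have h2 : (7 / 10 * B - 2) * (2 * x - 1) ≤ (7 / 10 * B - 2) * x ^ 2 := by
    apply mul_le_mul_of_nonneg_left _ (by linarith)
    nlinarith [sq_nonneg (x - 1)]
  have h3 : (7 / 10 * B - 2) * (1 - x) ≤ 807 / 1000 * (1 - x) :=
    mul_le_mul_of_nonneg_right (by linarith) (by linarith)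
  have h4 : 0 ≤ D * (295 / 100 * ((7 / 10 * B - 2) * x ^ 2) - 5 / 100 * B - 6 / 1000
      + 48 / 10 * (1 - x)) := by
    apply mul_nonneg hD0.le
    linarith
  have h5 : D * (1 - x) ≤ 1 / 10000 * (1 - x) := mul_le_mul_of_nonneg_right hD1 (by linarith)
  have h6 : 0 ≤ 1 - x := by linarith
  linarith

lemma e1_f {B D k e f x y : ℝ} (hB : 317 / 100 ≤ B) (hB4 : B ≤ 401 / 100)
    (hD1 : D ≤ 1 / 10000) (hk : k = 1 - 295 / 100 * D) (hD0 : 0 < D) (he : e = D / 1000)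
    (hf : 0 ≤ f) (hx0 : 0 ≤ x) (hx1 : x ≤ 1) (hy0 : 0 ≤ y) (hy : y = k * x ^ 2 - e - f) :
    7 / 100 ≤ B - 2 * (1 - y) - 4 / 10 * (x * (1 - x)) - 6 / 1000 * D
      - 50055 / 100000 * B * (x * (1 - x ^ 2 / 5)) + 100 / 49 * k * (f - y)
      + (7 / 10 * B - 2) * y := by
  have hx2 : x ^ 2 ≤ 1 := pow_le_one₀ hx0 hx1
  have hx20 : 0 ≤ x ^ 2 := sq_nonneg x
  have h1 : k * y ≤ 1 * y := mul_le_mul_of_nonneg_right (by rw [hk]; linarith) hy0
  have h2 : 98 / 100 * f ≤ k * f := mul_le_mul_of_nonneg_right (by rw [hk]; linarith) hf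
  have h3 : (7 / 10 * B - 100 / 49) * f ≤ 8 / 10 * f :=
    mul_le_mul_of_nonneg_right (by linarith) hf
  have h4 : x ^ 2 - 3 / 10000 ≤ y + f := by
    have : D * x ^ 2 ≤ D * 1 := mul_le_mul_of_nonneg_left hx2 hD0.le
    rw [hy, hk]
    linarith
  have h5 : (7 / 10 * B - 100 / 49) * (x ^ 2 - 3 / 10000) ≤ (7 / 10 * B - 100 / 49) * (y + f) :=
    mul_le_mul_of_nonneg_left h4 (by linarith)
  have hx3 : 0 ≤ x ^ 3 := by positivity
  have h6 : 0 ≤ (B - 317 / 100) * (1 + 7 / 10 * x ^ 2 - 50055 / 100000 * x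
      + 10011 / 100000 * x ^ 3) := by
    apply mul_nonneg (by linarith)
    linarith
  have h7 : 70 / 1000 + 1 / 1000 ≤ 1169 / 1000 - 198674 / 100000 * x + 57818 / 100000 * x ^ 2
      + 317 / 1000 * x ^ 3 := by
    nlinarith [mul_nonneg hx0 (sq_nonneg (x - 96 / 100)), sq_nonneg (x - 96 / 100)]
  have e1 : x * (1 - x ^ 2 / 5) = x - x ^ 3 / 5 := by ring
  rw [e1]
  linarith

lemma e1_e {B D k e f x y : ℝ} (hB : 317 / 100 ≤ B)
    (hD1 : D ≤ 1 / 10000) (hk : k = 1 - 295 / 100 * D) (hD0 : 0 < D) (he : e = D / 1000)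
    (hx0 : 0 ≤ x) (hx1 : x ≤ 1) (hy : y = k * x ^ 2 - e - f) :
    56 / 100 - 2 * f ≤ B - 2 * (1 - y) - 4 / 10 * (x * (1 - x)) - 6 / 1000 * D
      - 2004 / 1000 * (x * (1 - x ^ 2 / 5)) := by
  have hx2 : x ^ 2 ≤ 1 := pow_le_one₀ hx0 hx1
  have h4 : x ^ 2 - 3 / 10000 - f ≤ y := by
    have : D * x ^ 2 ≤ D * 1 := mul_le_mul_of_nonneg_left hx2 hD0.le
    rw [hy, hk]
    linarith
  have hx3 : 0 ≤ x ^ 3 := by positivity
  have h7 : 0 ≤ 609 / 1000 - 2404 / 1000 * x + 24 / 10 * x ^ 2 - 5 / 1000 := by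
    nlinarith [sq_nonneg (x - 1 / 2)]
  have e1 : x * (1 - x ^ 2 / 5) = x - x ^ 3 / 5 := by ring
  rw [e1]
  linarith

theorem edge1_vis : Edge1 (3 / 10) (98 / 100) (fun B _ => B ≤ 401 / 100) := by
  intro D c c1 c2 k k0 k2 e e0 e2 B B0 B1 m x y z w P hB4 hm hB00 hx0 hx1 hy0 hz0 hw0 hw1 hw hz hy
  have hD0 := P.D0
  have hD1 := P.D1
  have hk := P.k_eq
  have he := P.e_eq
  have hB := P.hB
  have hk1 := P.k1
  have hkp := P.kpos
  have he' := P.e0'
  obtain ⟨f, hf⟩ : ∃ f, f = 98 / 100 * m := ⟨_, rfl⟩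
  have hf0 : 0 ≤ f := by rw [hf]; positivity
  have hmf : m = 50 / 49 * f := by rw [hf]; ring
  obtain ⟨q, hq⟩ : ∃ q, q = k * x ^ 2 := ⟨_, rfl⟩
  have hx2 : x ^ 2 ≤ 1 := pow_le_one₀ hx0 hx1
  have hx20 : 0 ≤ x ^ 2 := sq_nonneg x
  have hk0 : 0 < k := by linarith
  have hq0 : 0 ≤ q := by rw [hq]; positivity
  have hq1 : q ≤ 1 := by
    rw [hq]
    exact mul_le_one₀ hk1 hx20 hx2
  have hyq : y = q - e - f := by rw [hy, hq, hf]
  have hy1 : y ≤ 1 := by linarith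
  have hz' : z ≤ 3 / 10 + 7 / 10 * y := by
    have e1 : 3 / 10 * k * x ^ 2 = 3 / 10 * q := by rw [hq]; ring
    have e2 : 3 / 10 * (98 / 100) * m = 3 / 10 * f := by rw [hf]; ring
    rw [e1, e2] at hz
    linarith
  -- the first term
  have s1 : B * (q - (1 + 50 / 1000 * D) * (y * (3 / 10 + 7 / 10 * y)))
      ≤ k * (B * (x ^ 2 - c1 * (y * z))) := by
    have a1 : y * z ≤ y * (3 / 10 + 7 / 10 * y) := mul_le_mul_of_nonneg_left hz' hy0
    have a2 : c1 * k ≤ 1 + 50 / 1000 * D :=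
      (mul_le_mul_of_nonneg_right P.c1_le hk0.le).trans P.ck_hi
    have a3 : 0 ≤ y * z := mul_nonneg hy0 hz0
    have a4 : c1 * k * (y * z) ≤ (1 + 50 / 1000 * D) * (y * (3 / 10 + 7 / 10 * y)) :=
      mul_le_mul a2 a1 a3 (by linarith)
    have a5 : k * (B * (x ^ 2 - c1 * (y * z))) = B * (q - c1 * k * (y * z)) := by rw [hq]; ring
    rw [a5]
    apply mul_le_mul_of_nonneg_left _ (by linarith)
    linarith
  -- the square of `w`
  obtain ⟨θ, hθ⟩ : ∃ θ, θ = x ^ 2 / 5 := ⟨_, rfl⟩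
  have hθ0 : 0 ≤ θ := by rw [hθ]; positivity
  have hθ1 : θ ≤ 1 / 5 := by rw [hθ]; linarith
  obtain ⟨r, hr⟩ : ∃ r, r = 1 + 3 / 1000 * D := ⟨_, rfl⟩
  have hr0 : 0 < r := by rw [hr]; positivity
  have hr1 : r ≤ 1 + 1 / 1000000 := by rw [hr]; linarith
  have hw' : k * w ^ 2 ≤ r * (x + e0 + B0 / 4 * f) := by
    have a1 : k * w ^ 2 ≤ (r * k0) * w ^ 2 := by
      apply mul_le_mul_of_nonneg_right _ (sq_nonneg w)
      rw [hr]
      exact P.k0_le
    have a2 : k0 * w ^ 2 ≤ x + e0 + B0 / 4 * f := by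
      have : 98 / 100 * (B0 / 4 * m) = B0 / 4 * f := by rw [hf]; ring
      rw [this] at hw
      exact hw
    calc k * w ^ 2 ≤ (r * k0) * w ^ 2 := a1
      _ = r * (k0 * w ^ 2) := by ring
      _ ≤ _ := mul_le_mul_of_nonneg_left a2 hr0.le
  have hw'' : k * w ^ 2 ≤ k := by
    have : w ^ 2 ≤ 1 := pow_le_one₀ hw0 hw1
    exact mul_le_of_le_one_right hk0.le this
  have s2 : k * w ^ 2 ≤ (1 - θ) * (r * (x + e0 + B0 / 4 * f)) + θ * k := by
    have a1 := mul_le_mul_of_nonneg_left hw' (by linarith : 0 ≤ 1 - θ)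
    have a2 := mul_le_mul_of_nonneg_left hw'' hθ0
    linarith
  have s2' : k * (2 * k * x * w ^ 2) ≤ 2 * (k * x) * ((1 - θ) * (r * (x + e0 + B0 / 4 * f)) + θ * k) := by
    have a1 := mul_le_mul_of_nonneg_left s2 (by positivity : 0 ≤ 2 * (k * x))
    calc k * (2 * k * x * w ^ 2) = 2 * (k * x) * (k * w ^ 2) := by ring
      _ ≤ _ := a1
  obtain ⟨g, hg⟩ : ∃ g, g = x * (1 - x ^ 2 / 5) := ⟨_, rfl⟩
  have hg0 : 0 ≤ g := by
    rw [hg]
    exact mul_nonneg hx0 (by linarith)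
  have s3 : 2 * (k * x) * ((1 - θ) * (r * (x + e0 + B0 / 4 * f)) + θ * k)
      = 2 * q * (1 - θ) * r + g * (2 * k * r * e0) + g * (k * r * B0 / 2) * f
        + 2 / 5 * q * x * k := by
    rw [hq, hg, hθ]
    ring
  have s4 : 2 * k * r * e0 ≤ 2004 / 1000 * e := by
    have a1 : k * r ≤ 1 + 1 / 1000000 := by
      have := mul_le_mul hk1 hr1 hr0.le zero_le_one
      linarith
    have a2 : k * r * e0 ≤ (1 + 1 / 1000000) * (1001 / 1000 * e) :=
      mul_le_mul a1 P.e0_le P.e0_nn (by norm_num)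
    linarith
  have s5 : k * r * B0 / 2 ≤ 50055 / 100000 * B := by
    have a1 : k * r ≤ 1 + 1 / 1000000 := by
      have := mul_le_mul hk1 hr1 hr0.le zero_le_one
      linarith
    have a2 : k * r * B0 ≤ (1 + 1 / 1000000) * (1001 / 1000 * B) :=
      mul_le_mul a1 P.hB0 hB00.le (by norm_num)
    linarith
  have s6 : g * (2 * k * r * e0) ≤ g * (2004 / 1000 * e) := mul_le_mul_of_nonneg_left s4 hg0
  have s7 : g * (k * r * B0 / 2) * f ≤ g * (50055 / 100000 * B) * f :=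
    mul_le_mul_of_nonneg_right (mul_le_mul_of_nonneg_left s5 hg0) hf0
  have s8 : 2 * q * (1 - θ) * r ≤ 2 * q - 2 / 5 * q * x ^ 2 + 6 / 1000 * D * q := by
    have a1 : 2 * q * (1 - θ) * r = 2 * q - 2 / 5 * q * x ^ 2 + 6 / 1000 * D * q
        - 6 / 1000 * (D * (q * θ)) := by
      rw [hr, hθ]
      ring
    have : 0 ≤ D * (q * θ) := by positivity
    linarith
  have s9 : 2 / 5 * q * x * k ≤ 2 / 5 * q * x * 1 := mul_le_mul_of_nonneg_left hk1 (by positivity)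
  -- the remaining terms
  have s10 : 2 * (1 + 48 / 1000 * D) * (q * y) ≤ k * (2 * k * x * (c * (x * y))) := by
    have a1 : k * (2 * k * x * (c * (x * y))) = 2 * (c * k) * (q * y) := by rw [hq]; ring
    rw [a1]
    apply mul_le_mul_of_nonneg_right _ (mul_nonneg hq0 hy0)
    linarith [P.ck_lo]
  have s11 : k * (2 * k * x * (m * x)) - k * (4 * m * y)
      = 100 / 49 * k * f * (f - y) + 100 / 49 * k * f * e := by
    have a1 : k * (2 * k * x * (m * x)) = 2 * k * m * q := by rw [hq]; ring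
    have a2 : q = y + e + f := by linarith
    rw [a1, a2, hmf]
    ring
  have s12 : 0 ≤ 100 / 49 * k * f * e := by positivity
  -- the three parts
  have p1 := mul_nonneg hy0 (e1_y hB hB4 hD0 hD1 hx0 hx1)
  have p2 := mul_le_mul_of_nonneg_left (e1_f hB hB4 hD1 hk hD0 he hf0 hx0 hx1 hy0
    (by rw [← hq]; exact hyq)) hf0
  have p3 := mul_le_mul_of_nonneg_left (e1_e (f := f) (y := y) hB hD1 hk hD0 he hx0 hx1
    (by rw [← hq]; exact hyq)) he'.le
  rw [← hg] at p2 p3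
  -- the identity for the main part
  have q1 : 1 - y = 1 - x ^ 2 + 295 / 100 * D * x ^ 2 + e + f := by
    have : q = (1 - 295 / 100 * D) * x ^ 2 := by rw [hq, hk]
    linarith
  have q2 : y * ((7 / 10 * B - 2) * (1 - y)) = y * ((7 / 10 * B - 2) * (1 - x ^ 2)
      + 295 / 100 * D * (7 / 10 * B - 2) * x ^ 2) + (7 / 10 * B - 2) * y * (e + f) := by
    rw [q1]
    ring
  have q3 : B * D * (y * (3 / 10 + 7 / 10 * y)) ≤ B * D * (y * 1) := by
    apply mul_le_mul_of_nonneg_left _ (by positivity)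
    apply mul_le_mul_of_nonneg_left _ hy0
    linarith
  have q4 : 0 ≤ D * (q * y) := by positivity
  have q5 : 0 ≤ (7 / 10 * B - 2) * y * e :=
    mul_nonneg (mul_nonneg (by linarith) hy0) he'.le
  have q6 : e * f ≤ 1 / 10000 * f := mul_le_mul_of_nonneg_right (by rw [he]; linarith) hf0
  -- the total
  have tot : B * (q - (1 + 50 / 1000 * D) * (y * (3 / 10 + 7 / 10 * y)))
      - (2 * q - 2 / 5 * q * x ^ 2 + 6 / 1000 * D * q) - g * (2004 / 1000 * e)
      - g * (50055 / 100000 * B) * f - 2 / 5 * q * x * 1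
      + 2 * (1 + 48 / 1000 * D) * (q * y) + 100 / 49 * k * f * (f - y)
      = y * ((7 / 10 * B - 2) * (1 - y)) - 4 / 10 * (x * (1 - x)) * y
        - 5 / 100 * (B * D * (y * (3 / 10 + 7 / 10 * y))) - 6 / 1000 * D * y
        + 96 / 1000 * (D * (q * y))
        + f * (B - 2 * (1 - y) - 4 / 10 * (x * (1 - x)) - 6 / 1000 * D
          - 50055 / 100000 * B * g + 100 / 49 * k * (f - y))
        + e * (B - 2 * (1 - y) - 4 / 10 * (x * (1 - x)) - 6 / 1000 * D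
          - 2004 / 1000 * g) := by
    have a2 : q = y + e + f := by linarith
    rw [a2]
    ring
  have fin : 69 / 1000 * f + 55 / 100 * e ≤ k * (B * (x ^ 2 - c1 * (y * z)) - 4 * m * y
        - 2 * k * x * (w ^ 2 - c * (x * y) - m * x)) := by
    have a1 : k * (B * (x ^ 2 - c1 * (y * z)) - 4 * m * y
        - 2 * k * x * (w ^ 2 - c * (x * y) - m * x))
        = k * (B * (x ^ 2 - c1 * (y * z))) - k * (2 * k * x * w ^ 2)
          + k * (2 * k * x * (c * (x * y))) + (k * (2 * k * x * (m * x)) - k * (4 * m * y)) := by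
      ring
    rw [a1]
    linarith
  have fin2 : (D + m) / 20000 ≤ 69 / 1000 * f + 55 / 100 * e := by
    rw [hf, he]
    linarith
  have hS : 0 ≤ (D + m) / 20000 := by positivity
  by_contra hcon
  push Not at hcon
  have h3 := mul_le_mul_of_nonneg_left hcon.le hk0.le
  have h4 : k * ((D + m) / 20000) ≤ 1 * ((D + m) / 20000) := mul_le_mul_of_nonneg_right hk1 hS
  have h5 := mul_lt_mul_of_pos_left hcon hk0
  linarith

end Pool.Agent.Run7.h32.On
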