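import Pool.Agent.Run7.h32.On.Vis

/-!
The second edge inequality with viscosity.
-/

set_option autoImplicit false

namespace Pool.Agent.Run7.h32.On

/-- the comparison with `w = 0` for small negative `w` -/
lemma TT_neg {B η w e f : ℝ} (hB : 317 / 100 ≤ B) (hB1 : B ≤ 401 / 100) (h0 : 0 ≤ η) (h1 : η ≤ 1)
    (hw : w ≤ 0) (hw1 : -(3 / 10 * e) ≤ w) (he0 : 0 ≤ e) (he : e ≤ 1 / 1000) (hf0 : 0 ≤ f) :
    TT B η 0 f - 17 * e ≤ TT B η w f := by
  obtain ⟨z0, hz0⟩ : ∃ z0, z0 = 1 - 7 / 10 * η := ⟨_, rfl⟩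
  have hz1 : 3 / 10 ≤ z0 := by rw [hz0]; linarith
  have hz2 : z0 ≤ 1 := by rw [hz0]; linarith
  have e1 : TT B η w f - TT B η 0 f
      = B ^ 2 * ((z0 + w) ^ 3 - z0 ^ 3) + B * (- (10 / 3 * w) - (1 - η) * w) + 2 * (w * η)
        + f * (32 / 100 * w - 100 / 49 * w) - 13 / 30 * w := by
    rw [hz0]
    simp only [TT]
    ring
  have h2 : 3 * w ≤ (z0 + w) ^ 3 - z0 ^ 3 := by
    have e2 : (z0 + w) ^ 3 - z0 ^ 3 = 3 * z0 ^ 2 * w + w ^ 2 * (3 * z0 + w) := by ring
    rw [e2]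
    have h3 : 0 ≤ w ^ 2 * (3 * z0 + w) := mul_nonneg (sq_nonneg w) (by linarith)
    have h4 : z0 ^ 2 ≤ 1 := pow_le_one₀ (by linarith) hz2
    have h5 : 1 * w ≤ z0 ^ 2 * w := mul_le_mul_of_nonpos_right h4 hw
    linarith
  have hB2 : B ^ 2 ≤ 161 / 10 := by nlinarith
  have h6 : 161 / 10 * (3 * w) ≤ B ^ 2 * (3 * w) := mul_le_mul_of_nonpos_right hB2 (by linarith)
  have h7 : B ^ 2 * (3 * w) ≤ B ^ 2 * ((z0 + w) ^ 3 - z0 ^ 3) :=
    mul_le_mul_of_nonneg_left h2 (sq_nonneg B)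
  have h8 : 0 ≤ B * (- (10 / 3 * w) - (1 - η) * w) := by
    apply mul_nonneg (by linarith)
    have : (1 - η) * w ≤ 0 := mul_nonpos_of_nonneg_of_nonpos (by linarith) hw
    linarith
  have h9 : 1 * w ≤ η * w := mul_le_mul_of_nonpos_right h1 hw
  have h10 : 0 ≤ f * (32 / 100 * w - 100 / 49 * w) := mul_nonneg hf0 (by linarith)
  linarith

/-- the polynomial inequality in all cases -/
lemma core' {B y a e f q : ℝ} (hB : 317 / 100 ≤ B) (hB1 : B ≤ 401 / 100) (h0 : 0 ≤ y) (h1 : y ≤ 1)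
    (he0 : 0 ≤ e) (he : e ≤ 1 / 1000) (ha : -e ≤ a) (hz : 3 / 10 + 7 / 10 * y + 3 / 10 * a ≤ 1)
    (hf0 : 0 ≤ f) (hq : q = y - a + f) (hq0 : 0 ≤ q) (hq1 : q ≤ 1) :
    -(17 * e) ≤ TT B (1 - y) (3 / 10 * a) f := by
  rcases le_total 0 a with h | h
  · have := core (η := 1 - y) (w := 3 / 10 * a) (f := f) hB hB1 (by linarith) (by linarith)
      (by linarith) (by linarith) hf0 (by linarith) (by linarith)
    linarith
  · have h2 := core (η := 1 - y) (w := 0) (f := f) hB hB1 (by linarith) (by linarith)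
      le_rfl (by linarith) hf0 (by linarith) (by linarith)
    have h3 := TT_neg (η := 1 - y) (w := 3 / 10 * a) (e := e) (f := f) hB hB1 (by linarith)
      (by linarith) (by linarith) (by linarith) he0 he hf0
    linarith

theorem edge2_vis : Edge2 (3 / 10) (98 / 100) (fun B _ => B ≤ 401 / 100) := by
  intro D c c1 c2 k k0 k2 e e0 e2 B B0 B1 m m2 x y z w v P hB4 hm hB00 hm2 hx0 hx1 hy0 hy1 hz0 hz1
    hw0 hw1 hy hw hv hv0 hz
  have hD0 := P.D0
  have hD1 := P.D1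
  have hk := P.k_eq
  have he := P.e_eq
  have hB := P.hB
  have hk1 := P.k1
  have hkp := P.kpos
  have he' := P.e0'
  obtain ⟨f, hf⟩ : ∃ f, f = 98 / 100 * m := ⟨_, rfl⟩
  have hf0 : 0 ≤ f := by rw [hf]; positivity
  have hmf : m = 50 / 49 * f := by rw [hf]; ring
  obtain ⟨q, hq⟩ : ∃ q, q = k * x ^ 2 := ⟨_, rfl⟩
  have hx2 : x ^ 2 ≤ 1 := pow_le_one₀ hx0 hx1
  have hx20 : 0 ≤ x ^ 2 := sq_nonneg x
  have hk0 : 0 < k := by linarith
  have hq0 : 0 ≤ q := by rw [hq]; positivity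
  have hqk : q ≤ k := by
    rw [hq]
    exact mul_le_of_le_one_right hk0.le hx2
  obtain ⟨a, ha⟩ : ∃ a, a = y - q + f := ⟨_, rfl⟩
  have hae : -e ≤ a := by
    rw [← hq, ← hf] at hy
    linarith
  have hza : z = 3 / 10 + 7 / 10 * y + 3 / 10 * a := by
    rw [hz, ha, hq, hf]
    ring
  have he1 : e ≤ 1 / 1000 := by rw [he]; linarith
  have hcore := core' (q := q) hB hB4 hy0 hy1 he'.le he1 hae (by linarith) hf0 (by linarith) hq0
    (by linarith)
  have hyz : y * z ≤ y := mul_le_of_le_one_right hy0 hz1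
  have hyz0 : 0 ≤ y * z := mul_nonneg hy0 hz0
  have hqx : q ≤ x ^ 2 := by
    rw [hq]
    exact mul_le_of_le_one_left hx20 hk1
  -- (1)
  have hc1 : c1 ≤ 1 + 301 / 100 * D := P.c1_le.trans P.c_hi
  have t1 : B * (q - y * z) - 2406 / 10000 * D - 121 / 100000 * (a + e)
      ≤ B * (x ^ 2 - c1 * (y * z)) := by
    have a1 : (c1 - 1) * (y * z) ≤ 301 / 100 * D * (x ^ 2 + (a + e)) := by
      apply mul_le_mul (by linarith) (by linarith) hyz0 (by positivity)
    have a2 : x ^ 2 = q + 295 / 100 * D * x ^ 2 := by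
      rw [hq, hk]
      ring
    have a3 : D * x ^ 2 ≤ D * 1 := mul_le_mul_of_nonneg_left hx2 hD0.le
    have a4 : q - y * z - 6 / 100 * D - 301 / 100 * D * (a + e) ≤ x ^ 2 - c1 * (y * z) := by
      linarith
    have a5 := mul_le_mul_of_nonneg_left a4 (by linarith : 0 ≤ B)
    have a6 : B * (6 / 100 * D) ≤ 401 / 100 * (6 / 100 * D) :=
      mul_le_mul_of_nonneg_right hB4 (by positivity)
    have a7 : B * (301 / 100 * D * (a + e)) ≤ 401 / 100 * (301 / 100 * D * (a + e)) :=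
      mul_le_mul_of_nonneg_right hB4 (mul_nonneg (by positivity) (by linarith))
    have a8 : D * (a + e) ≤ 1 / 10000 * (a + e) := mul_le_mul_of_nonneg_right hD1 (by linarith)
    have a9 : 0 ≤ a + e := by linarith
    linarith
  -- (2)
  have t2 : 4 * m * y = 200 / 49 * (f * y) := by rw [hmf]; ring
  -- (3)
  obtain ⟨r, hr⟩ : ∃ r, r = 1 + 3 / 1000 * D := ⟨_, rfl⟩
  have hr0 : 0 < r := by rw [hr]; positivity
  have hr1 : r ≤ 1 + 1 / 1000000 := by rw [hr]; linarith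
  have t3 : 6 / 10 * (k * x * w ^ 2)
      ≤ 6 / 10 * x ^ 2 + 18 / 10000 * D + 61 / 100 * e + 1502 / 10000 * (B * f) := by
    have a1 : k * w ^ 2 ≤ (r * k0) * w ^ 2 := by
      apply mul_le_mul_of_nonneg_right _ (sq_nonneg w)
      rw [hr]
      exact P.k0_le
    have a2 : k0 * w ^ 2 ≤ x + e0 + B0 / 4 * f := by
      have : 98 / 100 * (B0 / 4 * m) = B0 / 4 * f := by rw [hf]; ring
      rw [this] at hw
      exact hw
    have a3 : k * w ^ 2 ≤ r * (x + e0 + B0 / 4 * f) := by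
      calc k * w ^ 2 ≤ (r * k0) * w ^ 2 := a1
        _ = r * (k0 * w ^ 2) := by ring
        _ ≤ _ := mul_le_mul_of_nonneg_left a2 hr0.le
    have a4 : x * (k * w ^ 2) ≤ x * (r * (x + e0 + B0 / 4 * f)) :=
      mul_le_mul_of_nonneg_left a3 hx0
    have a5 : x * (r * (x + e0 + B0 / 4 * f)) = r * x ^ 2 + x * (r * (e0 + B0 / 4 * f)) := by ring
    have a6 : r * x ^ 2 ≤ x ^ 2 + 3 / 1000 * D := by
      rw [hr]
      have : D * x ^ 2 ≤ D * 1 := mul_le_mul_of_nonneg_left hx2 hD0.le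
      linarith
    have a7 : 0 ≤ e0 + B0 / 4 * f := by
      have := P.e0_nn
      positivity
    have a8 : x * (r * (e0 + B0 / 4 * f)) ≤ 1 * (r * (e0 + B0 / 4 * f)) :=
      mul_le_mul_of_nonneg_right hx1 (by positivity)
    have a9 : r * (e0 + B0 / 4 * f) ≤ (1 + 1 / 1000000) * (1001 / 1000 * e
        + (1001 / 1000 * B) / 4 * f) := by
      apply mul_le_mul hr1 _ a7 (by norm_num)
      have b1 := mul_le_mul_of_nonneg_right P.hB0 hf0
      linarith [P.e0_le]
    have hBf : 0 ≤ B * f := mul_nonneg (by linarith) hf0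
    have e1 : k * x * w ^ 2 = x * (k * w ^ 2) := by ring
    rw [e1]
    linarith
  -- (4), (5)
  have t4 : 6 / 10 * (x ^ 2 * y) ≤ 6 / 10 * (k * x * (c * (x * y))) := by
    have a1 : k * x * (c * (x * y)) = (c * k) * (x ^ 2 * y) := by ring
    rw [a1]
    have a2 : 0 ≤ x ^ 2 * y := mul_nonneg hx20 hy0
    have a3 : 1 * (x ^ 2 * y) ≤ (c * k) * (x ^ 2 * y) :=
      mul_le_mul_of_nonneg_right (by linarith [P.ck_lo]) a2
    linarith
  have t4' : x ^ 2 * (1 - y) ≤ q * (1 - y) + 295 / 1000000 * (1 - y) := by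
    have a1 : x ^ 2 ≤ q + 295 / 1000000 := by
      have a2 : x ^ 2 = q + 295 / 100 * (D * x ^ 2) := by
        rw [hq, hk]
        ring
      have a3 : D * x ^ 2 ≤ 1 / 10000 * 1 := mul_le_mul hD1 hx2 hx20 (by norm_num)
      linarith
    have := mul_le_mul_of_nonneg_right a1 (by linarith : 0 ≤ 1 - y)
    linarith
  have t5 : 6 / 10 * (k * x * (m * x)) = 30 / 49 * (f * q) := by
    rw [hq, hmf]
    ring
  -- (6)
  have hBB : 0 < B * B1 := mul_pos (by linarith) (by linarith [P.hB1])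
  have hc2 : c2 ≤ 1 + 301 / 1000000 := by
    have := P.c2_le.trans P.c_hi
    linarith
  have hc2' := P.c2_lo
  have hz2 : z ^ 2 ≤ 1 := pow_le_one₀ hz0 hz1
  have hz3 : 0 ≤ z ^ 3 := by positivity
  obtain ⟨G, hG⟩ : ∃ G, G = z ^ 3 - y ^ 2 := ⟨_, rfl⟩
  have hB2 : B ^ 2 ≤ 1608 / 100 + 1 / 1000 := by nlinarith
  have hGu : G ≤ 2 * (1 - y) := by
    have : z ^ 3 ≤ 1 := pow_le_one₀ hz0 hz1
    have h2 : 1 - y ^ 2 = (1 - y) * (1 + y) := by ring
    have h3 : (1 - y) * (1 + y) ≤ (1 - y) * 2 :=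
      mul_le_mul_of_nonneg_left (by linarith) (by linarith)
    rw [hG]
    linarith
  have hGl : -(21 / 10 * (1 - y)) - 9 / 10 * e ≤ G := by
    have h2 : 1 - 3 * (1 - z) ≤ z ^ 3 := by
      have h3 : z ^ 3 - (1 - 3 * (1 - z)) = (1 - z) ^ 2 * (z + 2) := by ring
      have : 0 ≤ (1 - z) ^ 2 * (z + 2) := by positivity
      linarith
    have h4 : y ^ 2 ≤ 1 := pow_le_one₀ hy0 hy1
    rw [hG]
    linarith
  have t6 : B ^ 2 * G - 105 / 10000 * (1 - y) - 45 / 10000 * e - 162 / 10 * e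
      - 16 * (1 + 301 / 1000000) * (f * z) ≤ - (B * B1 * (y ^ 2 - c2 * (z * v))) := by
    have a1 : B * B1 * c2 * z * (k2 * z ^ 2 - e2 - 98 / 100 * m2) ≤ B * B1 * c2 * z * v :=
      mul_le_mul_of_nonneg_left hv (by positivity)
    have a2 : B * B1 * c2 * z * (k2 * z ^ 2 - e2 - 98 / 100 * m2)
        = B * B1 * ((c2 * k2) * z ^ 3) - B * B1 * c2 * (e2 * z)
          - 98 / 100 * c2 * z * (B * B1 * m2) := by ring
    rw [hm2] at a2
    have a3 : B * B1 * (1 * z ^ 3) ≤ B * B1 * ((c2 * k2) * z ^ 3) := by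
      apply mul_le_mul_of_nonneg_left _ hBB.le
      apply mul_le_mul_of_nonneg_right _ hz3
      linarith [P.ck2]
    have hBB1 : B * B1 ≤ 161 / 10 := by
      have b1 : B * B1 ≤ B * (10003 / 10000 * B) :=
        mul_le_mul_of_nonneg_left P.hB10 (by linarith)
      have b2 : B * (10003 / 10000 * B) = 10003 / 10000 * B ^ 2 := by ring
      linarith
    have a4 : B * B1 * c2 * (e2 * z) ≤ 162 / 10 * e := by
      have b1 : e2 * z ≤ e * 1 := mul_le_mul P.e2_le hz1 hz0 he'.le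
      have b2 : B * B1 * c2 ≤ 161 / 10 * (1 + 301 / 1000000) :=
        mul_le_mul hBB1 hc2 (by linarith) (by norm_num)
      have b3 : B * B1 * c2 * (e2 * z) ≤ 161 / 10 * (1 + 301 / 1000000) * (e * 1) :=
        mul_le_mul b2 b1 (mul_nonneg P.e2_nn hz0) (by norm_num)
      linarith
    have a5 : 98 / 100 * c2 * z * (16 * m) ≤ 16 * (1 + 301 / 1000000) * (f * z) := by
      have b1 : 98 / 100 * c2 * z * (16 * m) = 16 * c2 * (f * z) := by rw [hf]; ring
      rw [b1]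
      apply mul_le_mul_of_nonneg_right _ (mul_nonneg hf0 hz0)
      linarith
    -- the quotient of the rates
    have a6 : B ^ 2 * G - 105 / 10000 * (1 - y) - 45 / 10000 * e ≤ B * B1 * G := by
      have b1 : B * B1 * G - B ^ 2 * G = B * (B1 - B) * G := by ring
      have hd1 : B1 - B ≤ 3 / 10000 * B := by linarith [P.hB10]
      have hd2 : -(3 / 10000 * B) - 1 / 10000 * (1 / 1000) * B ≤ B1 - B := by
        have := P.hB01
        linarith
      have b2 : |B * (B1 - B)| ≤ 484 / 100000 := by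
        rw [abs_le]
        constructor
        · have := mul_le_mul_of_nonneg_left hd2 (by linarith : 0 ≤ B)
          have e2 : B * (-(3 / 10000 * B) - 1 / 10000 * (1 / 1000) * B)
            = -((3 / 10000 + 1 / 10000000) * B ^ 2) := by ring
          rw [e2] at this
          linarith
        · have := mul_le_mul_of_nonneg_left hd1 (by linarith : 0 ≤ B)
          have e2 : B * (3 / 10000 * B) = 3 / 10000 * B ^ 2 := by ring
          rw [e2] at this
          linarith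
      have b3 : |G| ≤ 21 / 10 * (1 - y) + 9 / 10 * e := by
        rw [abs_le]
        constructor <;> linarith
      have b4 : |B * (B1 - B) * G| ≤ 484 / 100000 * (21 / 10 * (1 - y) + 9 / 10 * e) := by
        rw [abs_mul]
        exact mul_le_mul b2 b3 (abs_nonneg _) (by norm_num)
      have b5 := neg_le_of_abs_le b4
      linarith
    have a7 : B * B1 * (1 * z ^ 3) - B * B1 * y ^ 2 = B * B1 * G := by rw [hG]; ring
    have a8 : - (B * B1 * (y ^ 2 - c2 * (z * v))) = B * B1 * c2 * z * v - B * B1 * y ^ 2 := by ring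
    rw [a8]
    linarith
  -- (7)
  have t7 : 16 * m * z = 800 / 49 * (f * z) := by rw [hmf]; ring
  have t8 : 0 ≤ f * z := mul_nonneg hf0 hz0
  -- the identity
  have hTT : TT B (1 - y) (3 / 10 * a) f + 13 / 100 * (1 - y + a) + 30 / 49 * f ^ 2
      = B ^ 2 * G + B * (q - y * z) - 6 / 10 * (q * (1 - y)) - 200 / 49 * (f * y)
        - 1502 / 10000 * (B * f) + 30 / 49 * (f * q) + 32 / 100 * (f * z) := by
    have e1 : q = y - a + f := by linarith
    rw [hG, e1]
    simp only [TT]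
    have e2 : 1 - 7 / 10 * (1 - y) + 3 / 10 * a = z := by rw [hza]; ring
    rw [e2]
    ring
  have hf2 : 0 ≤ f ^ 2 := sq_nonneg f
  have hηa : f + 295 / 100 * D ≤ 1 - y + a := by
    rw [hk] at hqk
    linarith
  have main : B * (x ^ 2 - c1 * (y * z)) - 4 * m * y
        - 2 * (3 / 10) * k * x * (w ^ 2 - c * (x * y) - m * x)
        - B * B1 * (y ^ 2 - c2 * (z * v)) + 16 * m * z
      = B * (x ^ 2 - c1 * (y * z)) - 4 * m * y - 6 / 10 * (k * x * w ^ 2)
        + 6 / 10 * (k * x * (c * (x * y))) + 6 / 10 * (k * x * (m * x))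
        + (- (B * B1 * (y ^ 2 - c2 * (z * v)))) + 16 * m * z := by
    ring
  rw [main, t2, t5, t7]
  have low : TT B (1 - y) (3 / 10 * a) f + 13 / 100 * (1 - y + a) - 2424 / 10000 * D
      - 121 / 100000 * (a + e) - 107 / 10000 * (1 - y) - 1682 / 100 * e
      ≤ B * (x ^ 2 - c1 * (y * z)) - 200 / 49 * (f * y) - 6 / 10 * (k * x * w ^ 2)
        + 6 / 10 * (k * x * (c * (x * y))) + 30 / 49 * (f * q)
        + (- (B * B1 * (y ^ 2 - c2 * (z * v)))) + 800 / 49 * (f * z) := by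
    linarith
  refine le_trans ?_ low
  rw [he] at hcore
  rw [he, hmf]
  have h9 : 0 ≤ 1 - y := by linarith
  have h10 : -(D / 1000) ≤ a := by rw [← he]; exact hae
  linarith

end Pool.Agent.Run7.h32.On
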