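import Pool.Agent.Run7.h32.On.Reg2

/-!
The edge inequalities with viscosity, large quotients of the rates.
-/

set_option autoImplicit false

namespace Pool.Agent.Run7.h32.On

lemma f1_f {B D k e f x y : ℝ} (hB : 4 ≤ B)
    (hD1 : D ≤ 1 / 10000) (hk : k = 1 - 295 / 100 * D) (hD0 : 0 < D) (he : e = D / 1000)
    (hf : 0 ≤ f) (hx0 : 0 ≤ x) (hx1 : x ≤ 1) (hy0 : 0 ≤ y) (hy : y = k * x ^ 2 - e - f) :
    6 / 10 ≤ B - 2 * (1 - y) - 6 / 1000 * D
      - 50055 / 100000 * B * x + 100 / 49 * k * (f - y) + (2 / 3 * B - 2) * y := by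
  have hx2 : x ^ 2 ≤ 1 := pow_le_one₀ hx0 hx1
  have hx20 : 0 ≤ x ^ 2 := sq_nonneg x
  have h1 : k * y ≤ 1 * y := mul_le_mul_of_nonneg_right (by rw [hk]; linarith) hy0
  have h2 : 98 / 100 * f ≤ k * f := mul_le_mul_of_nonneg_right (by rw [hk]; linarith) hf
  have h4 : x ^ 2 - 3 / 10000 ≤ y + f := by
    have : D * x ^ 2 ≤ D * 1 := mul_le_mul_of_nonneg_left hx2 hD0.le
    rw [hy, hk]
    linarith
  have h5 : 4 * y ≤ B * y := mul_le_mul_of_nonneg_right hB hy0
  have h6 : 0 ≤ (B - 4) * (1 - 50055 / 100000 * x) :=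
    mul_nonneg (by linarith) (by linarith)
  have h7 : 0 ≤ x ^ 2 := sq_nonneg x
  have h8 : 2 * x - 1 ≤ x ^ 2 := by nlinarith [sq_nonneg (x - 1)]
  linarith

lemma f1_e {B D k e f x y : ℝ} (hB : 4 ≤ B)
    (hD1 : D ≤ 1 / 10000) (hk : k = 1 - 295 / 100 * D) (hD0 : 0 < D) (he : e = D / 1000)
    (hx0 : 0 ≤ x) (hx1 : x ≤ 1) (hy : y = k * x ^ 2 - e - f) :
    14 / 10 - 2 * f ≤ B - 2 * (1 - y) - 6 / 1000 * D - 2004 / 1000 * x := by
  have hx2 : x ^ 2 ≤ 1 := pow_le_one₀ hx0 hx1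
  have h4 : x ^ 2 - 3 / 10000 - f ≤ y := by
    have : D * x ^ 2 ≤ D * 1 := mul_le_mul_of_nonneg_left hx2 hD0.le
    rw [hy, hk]
    linarith
  have h7 : 0 ≤ 55 / 100 - 2004 / 1000 * x + 2 * x ^ 2 := by
    nlinarith [sq_nonneg (x - 1 / 2)]
  linarith

theorem edge1_big : Edge1 (1 / 3) (98 / 100) (fun B _ => 4 ≤ B) := by
  intro D c c1 c2 k k0 k2 e e0 e2 B B0 B1 m x y z w P hB hm hB00 hx0 hx1 hy0 hz0 hw0 hw1 hw hz hy
  have hD0 := P.D0
  have hD1 := P.D1
  have hk := P.k_eq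
  have he := P.e_eq
  have hk1 := P.k1
  have hkp := P.kpos
  have he' := P.e0'
  obtain ⟨f, hf⟩ : ∃ f, f = 98 / 100 * m := ⟨_, rfl⟩
  have hf0 : 0 ≤ f := by rw [hf]; positivity
  have hmf : m = 50 / 49 * f := by rw [hf]; ring
  obtain ⟨q, hq⟩ : ∃ q, q = k * x ^ 2 := ⟨_, rfl⟩
  have hx2 : x ^ 2 ≤ 1 := pow_le_one₀ hx0 hx1
  have hx20 : 0 ≤ x ^ 2 := sq_nonneg x
  have hk0 : 0 < k := by linarith
  have hq0 : 0 ≤ q := by rw [hq]; positivity
  have hqk : q ≤ k := by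
    rw [hq]
    exact mul_le_of_le_one_right hk0.le hx2
  have hyq : y = q - e - f := by rw [hy, hq, hf]
  have hy1 : y ≤ 1 := by linarith
  have hz' : z ≤ 1 / 3 + 2 / 3 * y := by
    have e1 : 1 / 3 * k * x ^ 2 = 1 / 3 * q := by rw [hq]; ring
    have e2 : 1 / 3 * (98 / 100) * m = 1 / 3 * f := by rw [hf]; ring
    rw [e1, e2] at hz
    linarith
  -- the first term
  have s1 : B * (q - (1 + 50 / 1000 * D) * (y * (1 / 3 + 2 / 3 * y)))
      ≤ k * (B * (x ^ 2 - c1 * (y * z))) := by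
    have a1 : y * z ≤ y * (1 / 3 + 2 / 3 * y) := mul_le_mul_of_nonneg_left hz' hy0
    have a2 : c1 * k ≤ 1 + 50 / 1000 * D :=
      (mul_le_mul_of_nonneg_right P.c1_le hk0.le).trans P.ck_hi
    have a3 : 0 ≤ y * z := mul_nonneg hy0 hz0
    have a4 : c1 * k * (y * z) ≤ (1 + 50 / 1000 * D) * (y * (1 / 3 + 2 / 3 * y)) :=
      mul_le_mul a2 a1 a3 (by linarith)
    have a5 : k * (B * (x ^ 2 - c1 * (y * z))) = B * (q - c1 * k * (y * z)) := by rw [hq]; ring
    rw [a5]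
    apply mul_le_mul_of_nonneg_left _ (by linarith)
    linarith
  -- the square of `w`
  obtain ⟨r, hr⟩ : ∃ r, r = 1 + 3 / 1000 * D := ⟨_, rfl⟩
  have hr0 : 0 < r := by rw [hr]; positivity
  have hr1 : r ≤ 1 + 1 / 1000000 := by rw [hr]; linarith
  have hw' : k * w ^ 2 ≤ r * (x + e0 + B0 / 4 * f) := by
    have a1 : k * w ^ 2 ≤ (r * k0) * w ^ 2 := by
      apply mul_le_mul_of_nonneg_right _ (sq_nonneg w)
      rw [hr]
      exact P.k0_le
    have a2 : k0 * w ^ 2 ≤ x + e0 + B0 / 4 * f := by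
      have : 98 / 100 * (B0 / 4 * m) = B0 / 4 * f := by rw [hf]; ring
      rw [this] at hw
      exact hw
    calc k * w ^ 2 ≤ (r * k0) * w ^ 2 := a1
      _ = r * (k0 * w ^ 2) := by ring
      _ ≤ _ := mul_le_mul_of_nonneg_left a2 hr0.le
  have s2' : k * (2 * k * x * w ^ 2) ≤ 2 * (k * x) * (r * (x + e0 + B0 / 4 * f)) := by
    have a1 := mul_le_mul_of_nonneg_left hw' (by positivity : 0 ≤ 2 * (k * x))
    calc k * (2 * k * x * w ^ 2) = 2 * (k * x) * (k * w ^ 2) := by ring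
      _ ≤ _ := a1
  have s3 : 2 * (k * x) * (r * (x + e0 + B0 / 4 * f))
      = 2 * q * r + x * (2 * k * r * e0) + x * (k * r * B0 / 2) * f := by
    rw [hq]
    ring
  have s4 : 2 * k * r * e0 ≤ 2004 / 1000 * e := by
    have a1 : k * r ≤ 1 + 1 / 1000000 := by
      have := mul_le_mul hk1 hr1 hr0.le zero_le_one
      linarith
    have a2 : k * r * e0 ≤ (1 + 1 / 1000000) * (1001 / 1000 * e) :=
      mul_le_mul a1 P.e0_le P.e0_nn (by norm_num)
    linarith
  have s5 : k * r * B0 / 2 ≤ 50055 / 100000 * B := by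
    have a1 : k * r ≤ 1 + 1 / 1000000 := by
      have := mul_le_mul hk1 hr1 hr0.le zero_le_one
      linarith
    have a2 : k * r * B0 ≤ (1 + 1 / 1000000) * (1001 / 1000 * B) :=
      mul_le_mul a1 P.hB0 hB00.le (by norm_num)
    linarith
  have s6 : x * (2 * k * r * e0) ≤ x * (2004 / 1000 * e) := mul_le_mul_of_nonneg_left s4 hx0
  have s7 : x * (k * r * B0 / 2) * f ≤ x * (50055 / 100000 * B) * f :=
    mul_le_mul_of_nonneg_right (mul_le_mul_of_nonneg_left s5 hx0) hf0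
  have s8 : 2 * q * r = 2 * q + 6 / 1000 * D * q := by
    rw [hr]
    ring
  -- the remaining terms
  have s10 : 2 * (1 + 48 / 1000 * D) * (q * y) ≤ k * (2 * k * x * (c * (x * y))) := by
    have a1 : k * (2 * k * x * (c * (x * y))) = 2 * (c * k) * (q * y) := by rw [hq]; ring
    rw [a1]
    apply mul_le_mul_of_nonneg_right _ (mul_nonneg hq0 hy0)
    linarith [P.ck_lo]
  have s11 : k * (2 * k * x * (m * x)) - k * (4 * m * y)
      = 100 / 49 * k * f * (f - y) + 100 / 49 * k * f * e := by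
    have a1 : k * (2 * k * x * (m * x)) = 2 * k * m * q := by rw [hq]; ring
    have a2 : q = y + e + f := by linarith
    rw [a1, a2, hmf]
    ring
  have s12 : 0 ≤ 100 / 49 * k * f * e := by positivity
  -- the three parts
  have p1 : 5 / 100 * B * D * y + 6 / 1000 * D * y + (2 / 3 * B - 2) * f * y
      ≤ y * ((2 / 3 * B - 2) * (1 - y)) := by
    have a1 : f + 295 / 100 * D ≤ 1 - y := by
      rw [hk] at hqk
      linarith
    have a2 : (2 / 3 * B - 2) * (f + 295 / 100 * D) ≤ (2 / 3 * B - 2) * (1 - y) :=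
      mul_le_mul_of_nonneg_left a1 (by linarith)
    have a3 := mul_le_mul_of_nonneg_left a2 hy0
    have a4 : 0 ≤ D * y := by positivity
    have a5 : 4 * (D * y) ≤ B * (D * y) := mul_le_mul_of_nonneg_right hB a4
    linarith
  have p2 := mul_le_mul_of_nonneg_left (f1_f (y := y) hB hD1 hk hD0 he hf0 hx0 hx1 hy0
    (by rw [← hq]; exact hyq)) hf0
  have p3 := mul_le_mul_of_nonneg_left (f1_e (f := f) (y := y) hB hD1 hk hD0 he hx0 hx1
    (by rw [← hq]; exact hyq)) he'.le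
  have q3 : B * D * (y * (1 / 3 + 2 / 3 * y)) ≤ B * D * (y * 1) := by
    apply mul_le_mul_of_nonneg_left _ (by positivity)
    apply mul_le_mul_of_nonneg_left _ hy0
    linarith
  have q4 : 0 ≤ D * (q * y) := by positivity
  have q6 : e * f ≤ 1 / 10000 * f := mul_le_mul_of_nonneg_right (by rw [he]; linarith) hf0
  -- the total
  have tot : B * (q - (1 + 50 / 1000 * D) * (y * (1 / 3 + 2 / 3 * y)))
      - (2 * q + 6 / 1000 * D * q) - x * (2004 / 1000 * e)
      - x * (50055 / 100000 * B) * f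
      + 2 * (1 + 48 / 1000 * D) * (q * y) + 100 / 49 * k * f * (f - y)
      = y * ((2 / 3 * B - 2) * (1 - y))
        - 5 / 100 * (B * D * (y * (1 / 3 + 2 / 3 * y))) - 6 / 1000 * D * y
        + 96 / 1000 * (D * (q * y))
        + f * (B - 2 * (1 - y) - 6 / 1000 * D
          - 50055 / 100000 * B * x + 100 / 49 * k * (f - y))
        + e * (B - 2 * (1 - y) - 6 / 1000 * D - 2004 / 1000 * x) := by
    have a2 : q = y + e + f := by linarith
    rw [a2]
    ring
  have fin : 59 / 100 * f + 13 / 10 * e ≤ k * (B * (x ^ 2 - c1 * (y * z)) - 4 * m * y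
        - 2 * k * x * (w ^ 2 - c * (x * y) - m * x)) := by
    have a1 : k * (B * (x ^ 2 - c1 * (y * z)) - 4 * m * y
        - 2 * k * x * (w ^ 2 - c * (x * y) - m * x))
        = k * (B * (x ^ 2 - c1 * (y * z))) - k * (2 * k * x * w ^ 2)
          + k * (2 * k * x * (c * (x * y))) + (k * (2 * k * x * (m * x)) - k * (4 * m * y)) := by
      ring
    rw [a1]
    linarith
  have fin2 : (D + m) / 20000 ≤ 59 / 100 * f + 13 / 10 * e := by
    rw [hf, he]
    linarith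
  have hS : 0 ≤ (D + m) / 20000 := by positivity
  by_contra hcon
  push Not at hcon
  have h3 := mul_le_mul_of_nonneg_left hcon.le hk0.le
  have h4 : k * ((D + m) / 20000) ≤ 1 * ((D + m) / 20000) := mul_le_mul_of_nonneg_right hk1 hS
  have h5 := mul_lt_mul_of_pos_left hcon hk0
  linarith

end Pool.Agent.Run7.h32.On
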