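import Pool.Agent.Run7.h32.On.Vis5

/-!
The second edge inequality with viscosity, large quotients of the rates.
-/

set_option autoImplicit false

namespace Pool.Agent.Run7.h32.On

lemma cube_z {D e z z0 c2 k2 e2 : ℝ} (hD0 : 0 < D) (hD1 : D ≤ 1 / 10000) (he : e = D / 1000)
    (hzl : 33 / 100 ≤ z) (hz1 : z ≤ 1) (hzz0 : z ≤ z0) (hzz1 : z0 ≤ z + 1 / 3 * e)
    (hck2 : 1 + 47 / 1000 * D ≤ c2 * k2) (hc2 : c2 ≤ 1 + 301 / 1000000) (hc2' : 1 ≤ c2)
    (he2 : e2 ≤ e) (he2n : 0 ≤ e2) :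
    z0 ^ 3 ≤ (c2 * k2) * z ^ 3 - c2 * (e2 * z) := by
  have hz0 : 0 ≤ z := by linarith
  have he' : 0 < e := by rw [he]; positivity
  have hz3 : 0 ≤ z ^ 3 := by positivity
  have b1 : (1 + 47 / 1000 * D) * z ^ 3 ≤ (c2 * k2) * z ^ 3 :=
    mul_le_mul_of_nonneg_right hck2 hz3
  have b2 : c2 * (e2 * z) ≤ (1 + 301 / 1000000) * (e * z) := by
    apply mul_le_mul hc2 _ (mul_nonneg he2n hz0) (by norm_num)
    exact mul_le_mul_of_nonneg_right he2 hz0
  have b3 : z0 ^ 3 - z0 ^ 2 * e ≤ z ^ 3 := by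
    have b4 : z ^ 3 - (z0 ^ 3 - 3 * z0 ^ 2 * (z0 - z)) = (z - z0) ^ 2 * (z + 2 * z0) := by ring
    have b5 : 0 ≤ (z - z0) ^ 2 * (z + 2 * z0) :=
      mul_nonneg (sq_nonneg _) (by linarith)
    have b6 : z0 ^ 2 * (3 * (z0 - z)) ≤ z0 ^ 2 * e :=
      mul_le_mul_of_nonneg_left (by linarith) (sq_nonneg _)
    linarith
  have b7 : z0 ^ 2 ≤ 11 / 10 * z ^ 2 := by
    have b8 : z0 ≤ 101 / 100 * z := by linarith
    have b9 : z0 ^ 2 ≤ (101 / 100 * z) ^ 2 := pow_le_pow_left₀ (by linarith) b8 2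
    have b10 : (101 / 100 * z) ^ 2 = 10201 / 10000 * z ^ 2 := by ring
    have : 0 ≤ z ^ 2 := sq_nonneg z
    linarith
  have b11 : z0 ^ 2 * e ≤ 11 / 10 * z ^ 2 * e := mul_le_mul_of_nonneg_right b7 he'.le
  have b13 : 0 ≤ 47 * z ^ 2 - 11 / 10 * z - (1 + 301 / 1000000) := by
    have : 33 / 100 * z ≤ z * z := mul_le_mul_of_nonneg_right hzl hz0
    have e1 : z ^ 2 = z * z := by ring
    rw [e1]
    linarith
  have b12 : 0 ≤ D * (z * (47 * z ^ 2 - 11 / 10 * z - (1 + 301 / 1000000))) :=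
    mul_nonneg hD0.le (mul_nonneg hz0 b13)
  have b14 : D * (z * (47 * z ^ 2 - 11 / 10 * z - (1 + 301 / 1000000)))
      = 1000 * (47 / 1000 * D * z ^ 3 - 11 / 10 * z ^ 2 * e - (1 + 301 / 1000000) * (e * z)) := by
    rw [he]
    ring
  rw [b14] at b12
  linarith

lemma w_sq {D k k0 r x w e e0 B B0 f : ℝ} (hD0 : 0 < D) (hD1 : D ≤ 1 / 10000)
    (hr : r = 1 + 3 / 1000 * D) (hx0 : 0 ≤ x) (hx1 : x ≤ 1) (hB : 0 ≤ B) (hB00 : 0 ≤ B0)
    (hB0 : B0 ≤ 1001 / 1000 * B) (hf0 : 0 ≤ f) (he0 : e0 ≤ 1001 / 1000 * e) (he0n : 0 ≤ e0)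
    (hk : k ≤ r * k0) (hw : k0 * w ^ 2 ≤ x + e0 + B0 / 4 * f) :
    2 / 3 * (k * x * w ^ 2)
      ≤ 2 / 3 * x ^ 2 + 2 / 1000 * D + 67 / 100 * e + 167 / 1000 * (B * f) := by
  have hx2 : x ^ 2 ≤ 1 := pow_le_one₀ hx0 hx1
  have hr0 : 0 < r := by rw [hr]; positivity
  have hr1 : r ≤ 1 + 1 / 1000000 := by rw [hr]; linarith
  have a1 : k * w ^ 2 ≤ (r * k0) * w ^ 2 := mul_le_mul_of_nonneg_right hk (sq_nonneg w)
  have a3 : k * w ^ 2 ≤ r * (x + e0 + B0 / 4 * f) := by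
    calc k * w ^ 2 ≤ (r * k0) * w ^ 2 := a1
      _ = r * (k0 * w ^ 2) := by ring
      _ ≤ _ := mul_le_mul_of_nonneg_left hw hr0.le
  have a4 : x * (k * w ^ 2) ≤ x * (r * (x + e0 + B0 / 4 * f)) :=
    mul_le_mul_of_nonneg_left a3 hx0
  have a5 : x * (r * (x + e0 + B0 / 4 * f)) = r * x ^ 2 + x * (r * (e0 + B0 / 4 * f)) := by ring
  have a6 : r * x ^ 2 ≤ x ^ 2 + 3 / 1000 * D := by
    rw [hr]
    have : D * x ^ 2 ≤ D * 1 := mul_le_mul_of_nonneg_left hx2 hD0.le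
    linarith
  have a7 : 0 ≤ e0 + B0 / 4 * f := by positivity
  have a8 : x * (r * (e0 + B0 / 4 * f)) ≤ 1 * (r * (e0 + B0 / 4 * f)) :=
    mul_le_mul_of_nonneg_right hx1 (by positivity)
  have a9 : r * (e0 + B0 / 4 * f) ≤ (1 + 1 / 1000000) * (1001 / 1000 * e
      + (1001 / 1000 * B) / 4 * f) := by
    apply mul_le_mul hr1 _ a7 (by norm_num)
    have b1 := mul_le_mul_of_nonneg_right hB0 hf0
    linarith
  have hBf : 0 ≤ B * f := mul_nonneg hB hf0
  have e1 : k * x * w ^ 2 = x * (k * w ^ 2) := by ring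
  rw [e1]
  linarith

theorem edge2_big : Edge2 (1 / 3) (98 / 100) (fun B _ => 4 ≤ B) := by
  intro D c c1 c2 k k0 k2 e e0 e2 B B0 B1 m m2 x y z w v P hB hm hB00 hm2 hx0 hx1 hy0 hy1 hz0 hz1
    hw0 hw1 hy hw hv hv0 hz
  have hD0 := P.D0
  have hD1 := P.D1
  have hk := P.k_eq
  have he := P.e_eq
  have hk1 := P.k1
  have hkp := P.kpos
  have he' := P.e0'
  obtain ⟨f, hf⟩ : ∃ f, f = 98 / 100 * m := ⟨_, rfl⟩
  have hf0 : 0 ≤ f := by rw [hf]; positivity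
  have hmf : m = 50 / 49 * f := by rw [hf]; ring
  obtain ⟨q, hq⟩ : ∃ q, q = k * x ^ 2 := ⟨_, rfl⟩
  have hx2 : x ^ 2 ≤ 1 := pow_le_one₀ hx0 hx1
  have hx20 : 0 ≤ x ^ 2 := sq_nonneg x
  have hk0 : 0 < k := by linarith
  have hq0 : 0 ≤ q := by rw [hq]; positivity
  have hqk : q ≤ k := by
    rw [hq]
    exact mul_le_of_le_one_right hk0.le hx2
  obtain ⟨a, ha⟩ : ∃ a, a = y - q + f := ⟨_, rfl⟩
  have hae : -e ≤ a := by
    rw [← hq, ← hf] at hy
    linarith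
  have hza : z = 1 / 3 + 2 / 3 * y + 1 / 3 * a := by
    rw [hz, ha, hq, hf]
    ring
  have he1 : e ≤ 1 / 1000 := by rw [he]; linarith
  -- the positive part of `a`
  obtain ⟨p, hp⟩ : ∃ p, p = max a 0 := ⟨_, rfl⟩
  have hp0 : 0 ≤ p := by rw [hp]; exact le_max_right _ _
  have hpa : a ≤ p := by rw [hp]; exact le_max_left _ _
  have hpe : p ≤ a + e := by rw [hp]; exact max_le (by linarith) (by linarith)
  obtain ⟨z0, hz0'⟩ : ∃ z0, z0 = 1 / 3 + 2 / 3 * y + 1 / 3 * p := ⟨_, rfl⟩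
  have hzz0 : z ≤ z0 := by rw [hza, hz0']; linarith
  have hzz1 : z0 ≤ z + 1 / 3 * e := by rw [hza, hz0']; linarith
  have hzl : 33 / 100 ≤ z := by rw [hza]; linarith
  have hcore := coreV (η := 1 - y) (w := 1 / 3 * p) (f := f) hB (by linarith) (by linarith)
    (by linarith) hf0 (by
      have : p ≤ y + f := by
        rw [hp]
        exact max_le (by linarith) (by linarith)
      linarith) (by linarith)
  have hyz : y * z ≤ y := mul_le_of_le_one_right hy0 hz1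
  have hyz0 : 0 ≤ y * z := mul_nonneg hy0 hz0
  have hqx : q ≤ x ^ 2 := by
    rw [hq]
    exact mul_le_of_le_one_left hx20 hk1
  -- (1)
  have hc1 : c1 ≤ 1 + 301 / 100 * D := P.c1_le.trans P.c_hi
  have t1 : B * (q - y * z) - B * (6 / 100 * D + 301 / 1000000 * (a + e))
      ≤ B * (x ^ 2 - c1 * (y * z)) := by
    have a1 : (c1 - 1) * (y * z) ≤ 301 / 100 * D * (x ^ 2 + (a + e)) := by
      apply mul_le_mul (by linarith) (by linarith) hyz0 (by positivity)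
    have a2 : x ^ 2 = q + 295 / 100 * D * x ^ 2 := by
      rw [hq, hk]
      ring
    have a3 : D * x ^ 2 ≤ D * 1 := mul_le_mul_of_nonneg_left hx2 hD0.le
    have a8 : D * (a + e) ≤ 1 / 10000 * (a + e) := mul_le_mul_of_nonneg_right hD1 (by linarith)
    have a4 : q - y * z - (6 / 100 * D + 301 / 1000000 * (a + e)) ≤ x ^ 2 - c1 * (y * z) := by
      linarith
    have a5 := mul_le_mul_of_nonneg_left a4 (by linarith : 0 ≤ B)
    linarith
  -- (2)
  have t2 : 4 * m * y = 200 / 49 * (f * y) := by rw [hmf]; ring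
  -- (3)
  obtain ⟨r, hr⟩ : ∃ r, r = 1 + 3 / 1000 * D := ⟨_, rfl⟩
  have hr0 : 0 < r := by rw [hr]; positivity
  have hr1 : r ≤ 1 + 1 / 1000000 := by rw [hr]; linarith
  have t3 : 2 / 3 * (k * x * w ^ 2)
      ≤ 2 / 3 * x ^ 2 + 2 / 1000 * D + 67 / 100 * e + 167 / 1000 * (B * f) := by
    have a2 : k0 * w ^ 2 ≤ x + e0 + B0 / 4 * f := by
      have : 98 / 100 * (B0 / 4 * m) = B0 / 4 * f := by rw [hf]; ring
      rw [this] at hw
      exact hw
    exact w_sq hD0 hD1 hr hx0 hx1 (by linarith) hB00.le P.hB0 hf0 P.e0_le P.e0_nn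
      (by rw [hr]; exact P.k0_le) a2
  -- (4), (5)
  have t4 : 2 / 3 * (x ^ 2 * y) ≤ 2 / 3 * (k * x * (c * (x * y))) := by
    have a1 : k * x * (c * (x * y)) = (c * k) * (x ^ 2 * y) := by ring
    rw [a1]
    have a2 : 0 ≤ x ^ 2 * y := mul_nonneg hx20 hy0
    have a3 : 1 * (x ^ 2 * y) ≤ (c * k) * (x ^ 2 * y) :=
      mul_le_mul_of_nonneg_right (by linarith [P.ck_lo]) a2
    linarith
  have t4' : x ^ 2 * (1 - y) ≤ q * (1 - y) + 295 / 1000000 * (1 - y) := by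
    have a1 : x ^ 2 ≤ q + 295 / 1000000 := by
      have a2 : x ^ 2 = q + 295 / 100 * (D * x ^ 2) := by
        rw [hq, hk]
        ring
      have a3 : D * x ^ 2 ≤ 1 / 10000 * 1 := mul_le_mul hD1 hx2 hx20 (by norm_num)
      linarith
    have := mul_le_mul_of_nonneg_right a1 (by linarith : 0 ≤ 1 - y)
    linarith
  have t5 : 2 / 3 * (k * x * (m * x)) = 100 / 147 * (f * q) := by
    rw [hq, hmf]
    ring
  -- (6)
  have hBB : 0 < B * B1 := mul_pos (by linarith) (by linarith [P.hB1])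
  have hc2 : c2 ≤ 1 + 301 / 1000000 := by
    have := P.c2_le.trans P.c_hi
    linarith
  have hc2' := P.c2_lo
  have hz2 : z ^ 2 ≤ 1 := pow_le_one₀ hz0 hz1
  have hz3 : 0 ≤ z ^ 3 := by positivity
  obtain ⟨G, hG⟩ : ∃ G, G = z0 ^ 3 - y ^ 2 := ⟨_, rfl⟩
  have hG0 : 0 ≤ G := by
    have := al_nn (η := 1 - y) (w := 1 / 3 * p) (by linarith) (by linarith)
    have e1 : 1 - 2 / 3 * (1 - y) + 1 / 3 * p = z0 := by rw [hz0']; ring
    have e2 : 1 - (1 - y) = y := by ring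
    rw [e1, e2] at this
    rw [hG]
    exact this
  have hGz : G + y ^ 2 ≤ (c2 * k2) * z ^ 3 - c2 * (e2 * z) := by
    have := cube_z hD0 hD1 he hzl hz1 hzz0 hzz1 P.ck2 hc2 hc2' P.e2_le P.e2_nn
    rw [hG]
    linarith
  have t6 : 9996 / 10000 * B ^ 2 * G - 16 * (1 + 301 / 1000000) * (f * z)
      ≤ - (B * B1 * (y ^ 2 - c2 * (z * v))) := by
    have a1 : B * B1 * c2 * z * (k2 * z ^ 2 - e2 - 98 / 100 * m2) ≤ B * B1 * c2 * z * v :=
      mul_le_mul_of_nonneg_left hv (by positivity)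
    have a2 : B * B1 * c2 * z * (k2 * z ^ 2 - e2 - 98 / 100 * m2)
        = B * B1 * ((c2 * k2) * z ^ 3 - c2 * (e2 * z))
          - 98 / 100 * c2 * z * (B * B1 * m2) := by ring
    rw [hm2] at a2
    have a3 : B * B1 * (G + y ^ 2) ≤ B * B1 * ((c2 * k2) * z ^ 3 - c2 * (e2 * z)) :=
      mul_le_mul_of_nonneg_left hGz hBB.le
    have a5 : 98 / 100 * c2 * z * (16 * m) ≤ 16 * (1 + 301 / 1000000) * (f * z) := by
      have b1 : 98 / 100 * c2 * z * (16 * m) = 16 * c2 * (f * z) := by rw [hf]; ring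
      rw [b1]
      apply mul_le_mul_of_nonneg_right _ (mul_nonneg hf0 hz0)
      linarith
    -- the quotient of the rates
    have a6 : 9996 / 10000 * B ^ 2 * G ≤ B * B1 * G := by
      apply mul_le_mul_of_nonneg_right _ hG0
      have b1 : B * (9996 / 10000 * B) ≤ B * B1 := by
        apply mul_le_mul_of_nonneg_left _ (by linarith)
        linarith [P.hB01]
      linarith
    have a8 : - (B * B1 * (y ^ 2 - c2 * (z * v))) = B * B1 * c2 * z * v - B * B1 * y ^ 2 := by ring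
    rw [a8]
    linarith
  -- (7)
  have t7 : 16 * m * z = 800 / 49 * (f * z) := by rw [hmf]; ring
  have t8 : 0 ≤ f * z := mul_nonneg hf0 hz0
  -- the identity
  have hTV : TV B (1 - y) (1 / 3 * p) f + 1 / 20 * B * (1 - y + p) + 100 / 147 * f ^ 2
      = 9996 / 10000 * B ^ 2 * G + B * (y - p - y * z0) - 2 / 3 * ((y - p) * (1 - y))
        + f * (833 / 1000 * B - 2 / 3 * (1 - y) + 32 / 100 * z0 - 200 / 49 * y
          + 100 / 147 * (y - p)) + 100 / 147 * f ^ 2 := by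
    rw [hG, hz0']
    simp only [TV]
    ring
  have hf2 : 0 ≤ f ^ 2 := sq_nonneg f
  have hηa : f + 295 / 100 * D ≤ 1 - y + a := by
    rw [hk] at hqk
    linarith
  -- the comparison of `a`, `z` and `p`, `z0`
  have c1' : B * (y - p - y * z0) ≤ B * (y - a - y * z) := by
    apply mul_le_mul_of_nonneg_left _ (by linarith)
    have := mul_le_mul_of_nonneg_left hzz0 hy0
    linarith
  have c2'' : (p - a) * (1 - y) ≤ e * 1 :=
    mul_le_mul (by linarith) (by linarith) (by linarith) he'.le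
  have c3 : f * (32 / 100 * z0 + 100 / 147 * (y - p)) ≤ f * (32 / 100 * z + 100 / 147 * (y - a)) := by
    apply mul_le_mul_of_nonneg_left _ hf0
    have e1 : z0 - z = 1 / 3 * (p - a) := by rw [hza, hz0']; ring
    linarith
  have hq' : q = y - a + f := by linarith
  have main : B * (x ^ 2 - c1 * (y * z)) - 4 * m * y
        - 2 * (1 / 3) * k * x * (w ^ 2 - c * (x * y) - m * x)
        - B * B1 * (y ^ 2 - c2 * (z * v)) + 16 * m * z
      = B * (x ^ 2 - c1 * (y * z)) - 4 * m * y - 2 / 3 * (k * x * w ^ 2)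
        + 2 / 3 * (k * x * (c * (x * y))) + 2 / 3 * (k * x * (m * x))
        + (- (B * B1 * (y ^ 2 - c2 * (z * v)))) + 16 * m * z := by
    ring
  rw [main, t2, t5, t7]
  have id1 : B * (q - y * z) - 200 / 49 * (f * y) - 2 / 3 * (q * (1 - y)) - 167 / 1000 * (B * f)
      + 100 / 147 * (f * q) + 32 / 100 * (f * z)
      = B * (y - a - y * z) - 2 / 3 * ((y - a) * (1 - y))
        + f * (833 / 1000 * B - 2 / 3 * (1 - y) - 200 / 49 * y)
        + f * (32 / 100 * z + 100 / 147 * (y - a)) + 100 / 147 * f ^ 2 := by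
    rw [hq']
    ring
  have low : TV B (1 - y) (1 / 3 * p) f + 1 / 20 * B * (1 - y + p)
      - B * (6 / 100 * D + 301 / 1000000 * (a + e)) - 2 / 1000 * D - 2 / 10000 * (1 - y) - 2 * e
      ≤ B * (x ^ 2 - c1 * (y * z)) - 200 / 49 * (f * y) - 2 / 3 * (k * x * w ^ 2)
        + 2 / 3 * (k * x * (c * (x * y))) + 100 / 147 * (f * q)
        + (- (B * B1 * (y ^ 2 - c2 * (z * v)))) + 800 / 49 * (f * z) := by
    linarith
  refine le_trans ?_ low
  have h9 : 0 ≤ 1 - y := by linarith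
  have h11 : 4 * (1 / 20 * (1 - y + p) - (6 / 100 * D + 301 / 1000000 * (a + e)))
      ≤ B * (1 / 20 * (1 - y + p) - (6 / 100 * D + 301 / 1000000 * (a + e))) := by
    apply mul_le_mul_of_nonneg_right hB
    rw [he] at hpe he' ⊢
    linarith
  rw [he] at h11 hpe ⊢
  rw [hmf]
  linarith

end Pool.Agent.Run7.h32.On
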