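import Pool.Agent.Run7.h32.On.Fin2
import Pool.Agent.Run7.h32.On.Vis2
import Pool.Agent.Run7.h32.On.Vis3
import Pool.Agent.Run7.h32.On.Vis4
import Pool.Agent.Run7.h32.On.Vis6

/-!
The dyadic model: the bound with the exponent `β / 3` at all positive times, uniformly in the
viscosity.
-/

set_option autoImplicit false

open Set Filter Topology MeasureTheory

namespace Pool.Agent.Run7.h32.On

open Run7.h969.Dy Pool.Agent.Run7.h32.Dy

/-- **Onsager regularity of the dyadic model**, uniformly in the viscosity `ν ≥ 0`. -/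
theorem onsager_all {β τ E : ℝ} (hβ : 5 / 2 ≤ β) (hτ : 0 < τ) (hE : 0 ≤ E) :
    ∃ C : ℝ, ∀ (ν : ℝ) (x : ℕ → ℝ) (X : ℕ → ℝ → ℝ), Sol β ν E x X → ∀ t, τ ≤ t → ∀ n : ℕ,
      (2 : ℝ) ^ (β / 3 * n) * X n t ≤ C := by
  have hq0 : 0 < (2 : ℝ) ^ (β / 3) := by positivity
  have hq2 : ((2 : ℝ) ^ (β / 3)) ^ 2 = (2 : ℝ) ^ (β / 3 * 2) := by
    rw [Real.rpow_mul two_pos.le]
    norm_cast
  rcases le_total β 3 with h3 | h3
  · have hq4 : ((2 : ℝ) ^ (β / 3)) ^ 2 ≤ 4 := by
      rw [hq2]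
      calc (2 : ℝ) ^ (β / 3 * 2) ≤ (2 : ℝ) ^ (2 : ℝ) :=
            Real.rpow_le_rpow_of_exponent_le one_le_two (by linarith)
        _ = 4 := by norm_num
    obtain ⟨C, hC⟩ := onsager_gen (V := fun _ => True) hβ hτ hE edge1_vis edge2_vis (by norm_num)
      (by norm_num) (by norm_num) (by norm_num) (fun ν M p _ hM hp hp1 n t ht => by
        have := bb_le' hq0 hp hp1 n ht
        show bb ((2 : ℝ) ^ (β / 3)) p n t ≤ 401 / 100
        linarith)
    exact ⟨C, fun ν x X S t ht n => hC ν x X trivial S t ht n⟩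
  · have hq4 : 4 ≤ ((2 : ℝ) ^ (β / 3)) ^ 2 := by
      rw [hq2]
      calc (4 : ℝ) = (2 : ℝ) ^ (2 : ℝ) := by norm_num
        _ ≤ (2 : ℝ) ^ (β / 3 * 2) :=
            Real.rpow_le_rpow_of_exponent_le one_le_two (by linarith)
    obtain ⟨C, hC⟩ := onsager_gen (V := fun _ => True) hβ hτ hE edge1_big edge2_big (by norm_num)
      (by norm_num) (by norm_num) (by norm_num) (fun ν M p _ hM hp hp1 n t ht => by
        have := bb_ge hq0 hp n ht
        show 4 ≤ bb ((2 : ℝ) ^ (β / 3)) p n t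
        linarith)
    exact ⟨C, fun ν x X S t ht n => hC ν x X trivial S t ht n⟩

end Pool.Agent.Run7.h32.On
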