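import Pool.Agent.Run7.h32.Dy.E

/-!
The dyadic model, truncated with the closure `X_{N+1} = κ X_N²`: existence, positivity, energy and
the limit of the truncated systems. The viscosity `ν` may vanish.
-/

set_option autoImplicit false

open Set Filter Topology Metric MeasureTheory
open scoped InnerProductSpace NNReal

namespace Pool.Agent.Run7.h32.On

open Run7.h969.Dy Pool.Agent.Run7.h32.Dy

/-- `X` solves the equations of the shells `n ≤ N` on `[0, T]`, with `X_{N+1} = κ X_N²`. -/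
structure Cg (β ν T κ : ℝ) (N : ℕ) (x : ℕ → ℝ) (X : ℕ → ℝ → ℝ) : Prop where
  init : ∀ n ≤ N, X n 0 = x n
  top : ∀ t, X (N + 1) t = κ * X N t ^ 2
  zero : ∀ n, N + 1 < n → ∀ t, X n t = 0
  ode : ∀ n ≤ N, ∀ t ∈ Icc 0 T,
    HasDerivWithinAt (X n) (rhs β ν (fun k => X k t) n) (Icc 0 T) t
  energy : ∀ t ∈ Icc 0 T, ∑ n ∈ Finset.range (N + 1), X n t ^ 2
    ≤ ∑ n ∈ Finset.range (N + 1), x n ^ 2

/-- extension with the closure -/
noncomputable def exc (κ : ℝ) {N : ℕ} (v : EuclideanSpace ℝ (Fin (N + 1))) (n : ℕ) : ℝ :=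
  if n = N + 1 then κ * ext v N ^ 2 else ext v n

lemma exc_in (κ : ℝ) {N : ℕ} (v : EuclideanSpace ℝ (Fin (N + 1))) {n : ℕ} (h : n < N + 1) :
    exc κ v n = ext v n := if_neg (by omega)

lemma exc_top (κ : ℝ) {N : ℕ} (v : EuclideanSpace ℝ (Fin (N + 1))) :
    exc κ v (N + 1) = κ * ext v N ^ 2 := if_pos rfl

lemma exc_c (κ : ℝ) {N : ℕ} (n : ℕ) :
    ContDiff ℝ 1 fun v : EuclideanSpace ℝ (Fin (N + 1)) => exc κ v n := by
  by_cases h : n = N + 1
  · have : (fun v : EuclideanSpace ℝ (Fin (N + 1)) => exc κ v n) = fun v => κ * ext v N ^ 2 := by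
      funext v
      exact if_pos h
    rw [this]
    exact contDiff_const.mul ((ext_c N).pow 2)
  · have : (fun v : EuclideanSpace ℝ (Fin (N + 1)) => exc κ v n) = fun v => ext v n := by
      funext v
      exact if_neg h
    rw [this]
    exact ext_c n

/-- the vector field -/
noncomputable def fldc (β ν κ : ℝ) {N : ℕ} (v : EuclideanSpace ℝ (Fin (N + 1))) :
    EuclideanSpace ℝ (Fin (N + 1)) := WithLp.toLp 2 fun i => rhs β ν (exc κ v) i

lemma fldc_c (β ν κ : ℝ) (N : ℕ) :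
    ContDiff ℝ 1 (fldc β ν κ : EuclideanSpace ℝ (Fin (N + 1)) → EuclideanSpace ℝ (Fin (N + 1))) := by
  rw [contDiff_euclidean]
  intro i
  exact rhs_c β ν (fun k => exc_c κ k) i

lemma fldc_inner (β ν κ : ℝ) {N : ℕ} (hν : 0 ≤ ν) (hκ : 0 ≤ κ)
    (v : EuclideanSpace ℝ (Fin (N + 1))) : ⟪fldc β ν κ v, v⟫_ℝ ≤ 0 := by
  have h1 : ⟪fldc β ν κ v, v⟫_ℝ
      = ∑ n ∈ Finset.range (N + 1), exc κ v n * rhs β ν (exc κ v) n := by
    rw [PiLp.inner_apply, Finset.sum_range]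
    refine Finset.sum_congr rfl fun i _ => ?_
    rw [exc_in κ v i.2, ext_in v i.2]
    simp only [fldc, Fin.eta]
    rfl
  rw [h1, energy_sum, exc_top]
  have : 0 ≤ ∑ n ∈ Finset.range (N + 1), (4 : ℝ) ^ n * exc κ v n ^ 2 :=
    Finset.sum_nonneg fun n _ => by positivity
  have h2 : 0 ≤ ν * ∑ n ∈ Finset.range (N + 1), (4 : ℝ) ^ n * exc κ v n ^ 2 := by positivity
  have h3 : 0 ≤ (2 : ℝ) ^ (β * N) * (exc κ v N ^ 2 * (κ * ext v N ^ 2)) :=
    mul_nonneg (cp β N).le (by positivity)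
  linarith

theorem exist_c (β : ℝ) {ν T κ : ℝ} (N : ℕ) (x : ℕ → ℝ) (hν : 0 ≤ ν) (hT : 0 < T) (hκ : 0 ≤ κ) :
    ∃ X : ℕ → ℝ → ℝ, Cg β ν T κ N x X := by
  have hlip : ∀ R : ℝ, ∃ C : ℝ≥0, ∀ t ∈ Icc 0 T, LipschitzOnWith C
      (fldc β ν κ : EuclideanSpace ℝ (Fin (N + 1)) → EuclideanSpace ℝ (Fin (N + 1)))
      (closedBall 0 R) := by
    intro R
    obtain ⟨C, hC⟩ := ((fldc_c β ν κ N).locallyLipschitz.locallyLipschitzOn
      (s := closedBall (0 : EuclideanSpace ℝ (Fin (N + 1))) R)).exists_lipschitzOnWith_of_compact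
      (isCompact_closedBall _ _)
    exact ⟨C, fun t _ => hC⟩
  obtain ⟨v, hv0, hv, hE⟩ := H772R2.NSR.exists_global
    (fun _ : ℝ => (fldc β ν κ : EuclideanSpace ℝ (Fin (N + 1)) → EuclideanSpace ℝ (Fin (N + 1))))
    hT.le hlip (fun _ => continuousOn_const)
    (WithLp.toLp 2 fun i : Fin (N + 1) => x i) le_rfl (fun t _ w => fldc_inner β ν κ hν hκ w)
  refine ⟨fun n t => exc κ (v t) n, ?_, ?_, ?_, ?_, ?_⟩
  · intro n hn
    rw [exc_in _ _ (Nat.lt_succ_of_le hn), hv0, ext_in _ (Nat.lt_succ_of_le hn)]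
  · intro t
    rw [exc_top, exc_in _ _ (Nat.lt_succ_self N)]
  · intro n hn t
    rw [exc, if_neg (by omega)]
    exact ext_out _ (by omega)
  · intro n hn t ht
    have hn' : n < N + 1 := Nat.lt_succ_of_le hn
    have h1 : HasDerivWithinAt (fun t => v t ⟨n, hn'⟩) (fldc β ν κ (v t) ⟨n, hn'⟩) (Icc 0 T) t :=
      ((EuclideanSpace.proj (𝕜 := ℝ) (⟨n, hn'⟩ : Fin (N + 1))).hasFDerivAt).comp_hasDerivWithinAt t
        (hv t ht)
    have h2 : (fun t => exc κ (v t) n) = fun t => v t ⟨n, hn'⟩ := by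
      funext t
      rw [exc_in _ _ hn', ext_in _ hn']
    rw [h2]
    exact h1
  · intro t ht
    have h1 := hE t ht
    rw [EuclideanSpace.norm_sq_eq, EuclideanSpace.norm_sq_eq] at h1
    simp only [Real.norm_eq_abs, sq_abs, mul_zero, zero_mul, add_zero] at h1
    rw [Finset.sum_range, Finset.sum_range]
    refine le_trans (le_of_eq ?_) h1
    refine Finset.sum_congr rfl fun i _ => ?_
    rw [exc_in κ _ i.2, ext_in _ i.2]

variable {β ν T κ : ℝ} {N : ℕ} {x : ℕ → ℝ} {X : ℕ → ℝ → ℝ}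

lemma cg_cont (h : Cg β ν T κ N x X) (n : ℕ) : ContinuousOn (X n) (Icc 0 T) := by
  rcases le_or_gt n N with hn | hn
  · exact fun t ht => (h.ode n hn t ht).continuousWithinAt
  · rcases (Nat.succ_le_of_lt hn).eq_or_lt with rfl | hn
    · have : X (N + 1) = fun t => κ * X N t ^ 2 := by
        funext t
        exact h.top t
      rw [this]
      exact continuousOn_const.mul
        (ContinuousOn.pow (fun t ht => (h.ode N le_rfl t ht).continuousWithinAt) 2)
    · have : X n = fun _ => 0 := by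
        funext t
        exact h.zero n hn t
      rw [this]
      exact continuousOn_const

lemma cg_nn (hκ : 0 ≤ κ) (hx : ∀ n, 0 ≤ x n) (h : Cg β ν T κ N x X) :
    ∀ t ∈ Icc 0 T, ∀ n, 0 ≤ X n t := by
  intro t ht n
  rcases le_or_gt n N with hn | hn
  · cases n with
    | zero => exact nn_zero (cg_cont h) (by rw [h.init 0 hn]; exact hx 0) (h.ode 0 hn) t ht
    | succ n => exact nn_succ (cg_cont h) n (by rw [h.init _ hn]; exact hx _) (h.ode _ hn) t ht
  · rcases (Nat.succ_le_of_lt hn).eq_or_lt with rfl | hn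
    · rw [h.top t]
      positivity
    · rw [h.zero n hn t]

lemma rhs_bd' (hν : 0 ≤ ν) {x M : ℕ → ℝ} (h : ∀ k, |x k| ≤ M k) (n : ℕ) :
    |rhs β ν x n| ≤ Rb β ν M n := by
  cases n with
  | zero =>
    simp only [rhs, Rb]
    have h1 := mul_bd (h 0) (h 1)
    have h2 : |ν * x 0| ≤ ν * M 0 := by
      rw [abs_mul, abs_of_nonneg hν]
      exact mul_le_mul_of_nonneg_left (h 0) hν
    calc |-(x 0 * x 1) - ν * x 0| ≤ |-(x 0 * x 1)| + |ν * x 0| := abs_sub _ _
      _ ≤ _ := by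
        rw [abs_neg]
        exact add_le_add h1 h2
  | succ n =>
    simp only [rhs, Rb]
    have h1 : |(2 : ℝ) ^ (β * n) * x n ^ 2| ≤ (2 : ℝ) ^ (β * n) * M n ^ 2 := by
      rw [abs_mul, abs_of_pos (cp β n), sq, sq]
      exact mul_le_mul_of_nonneg_left (mul_bd (h n) (h n)) (cp β n).le
    have h2 : |(2 : ℝ) ^ (β * (n + 1)) * (x (n + 1) * x (n + 2))|
        ≤ (2 : ℝ) ^ (β * (n + 1)) * (M (n + 1) * M (n + 2)) := by
      rw [abs_mul, abs_of_pos (cp β _)]
      exact mul_le_mul_of_nonneg_left (mul_bd (h _) (h _)) (cp β _).le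
    have h3 : |ν * 4 ^ (n + 1) * x (n + 1)| ≤ ν * 4 ^ (n + 1) * M (n + 1) := by
      rw [abs_mul, abs_of_nonneg (by positivity : (0 : ℝ) ≤ ν * 4 ^ (n + 1))]
      exact mul_le_mul_of_nonneg_left (h _) (by positivity)
    refine (abs_sub _ _).trans (add_le_add ((abs_sub _ _).trans (add_le_add h1 h2)) h3)

lemma rhs_lip' (hν : 0 ≤ ν) {x y M R : ℕ → ℝ} {δ : ℝ} (hx : ∀ k, |x k| ≤ M k)
    (hy : ∀ k, |y k| ≤ M k) (n : ℕ) (hR : ∀ k ≤ n + 1, |x k - y k| ≤ R k * δ) :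
    |rhs β ν x n - rhs β ν y n| ≤ Lb β ν M R n * δ := by
  rcases hν.eq_or_lt with h0 | h0
  · subst h0
    cases n with
    | zero =>
      simp only [rhs, Lb]
      have h1 := prod_diff (hx 0) (hy 1) (hR 1 le_rfl) (hR 0 (Nat.zero_le _))
      have e : -(x 0 * x 1) - 0 * x 0 - (-(y 0 * y 1) - 0 * y 0)
          = -(x 0 * x 1 - y 0 * y 1) := by ring
      rw [e, abs_neg]
      linarith
    | succ n =>
      simp only [rhs, Lb]
      have h1 := prod_diff (hx n) (hy n) (hR n (by omega)) (hR n (by omega))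
      have h2 := prod_diff (hx (n + 1)) (hy (n + 2)) (hR (n + 2) le_rfl) (hR (n + 1) (by omega))
      have e : (2 : ℝ) ^ (β * n) * x n ^ 2 - (2 : ℝ) ^ (β * (n + 1)) * (x (n + 1) * x (n + 2))
          - 0 * 4 ^ (n + 1) * x (n + 1)
          - ((2 : ℝ) ^ (β * n) * y n ^ 2 - (2 : ℝ) ^ (β * (n + 1)) * (y (n + 1) * y (n + 2))
          - 0 * 4 ^ (n + 1) * y (n + 1))
          = (2 : ℝ) ^ (β * n) * (x n * x n - y n * y n)
            - (2 : ℝ) ^ (β * (n + 1)) * (x (n + 1) * x (n + 2) - y (n + 1) * y (n + 2)) := by ring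
      rw [e]
      have a1 : |(2 : ℝ) ^ (β * n) * (x n * x n - y n * y n)|
          ≤ (2 : ℝ) ^ (β * n) * (M n * (R n * δ) + R n * δ * M n) := by
        rw [abs_mul, abs_of_pos (cp β n)]
        exact mul_le_mul_of_nonneg_left h1 (cp β n).le
      have a2 : |(2 : ℝ) ^ (β * (n + 1)) * (x (n + 1) * x (n + 2) - y (n + 1) * y (n + 2))|
          ≤ (2 : ℝ) ^ (β * (n + 1)) * (M (n + 1) * (R (n + 2) * δ) + R (n + 1) * δ * M (n + 2)) := by
        rw [abs_mul, abs_of_pos (cp β _)]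
        exact mul_le_mul_of_nonneg_left h2 (cp β _).le
      refine ((abs_sub _ _).trans (add_le_add a1 a2)).trans (le_of_eq ?_)
      ring
  · exact rhs_lip h0 hx hy n hR

/-- the second order expansion of the solutions of the truncated systems -/
lemma cg_taylor (hν : 0 ≤ ν) (h : Cg β ν T κ N x X) {M : ℕ → ℝ}
    (hM : ∀ t ∈ Icc 0 T, ∀ k, |X k t| ≤ M k) {n : ℕ} (hn : n + 1 ≤ N) {t r : ℝ}
    (ht : t ∈ Icc 0 T) (hr : r ∈ Icc 0 T) :
    |X n r - X n t - (r - t) * rhs β ν (fun k => X k t) n| ≤ Lb β ν M (Rb β ν M) n * |r - t| ^ 2 := by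
  have hsub : uIcc t r ⊆ Icc 0 T := uIcc_subset_Icc ht hr
  -- first order
  have h1 : ∀ k ≤ N, ∀ a ∈ Icc 0 T, ∀ b ∈ Icc 0 T, |X k a - X k b| ≤ Rb β ν M k * |a - b| := by
    intro k hk a ha b hb
    have := Convex.norm_image_sub_le_of_norm_hasDerivWithin_le (f := X k)
      (f' := fun t => rhs β ν (fun k => X k t) k) (C := Rb β ν M k) (s := Icc 0 T) (x := b) (y := a)
      (fun t ht => h.ode k hk t ht) (fun t ht => rhs_bd' hν (hM t ht) k) (convex_Icc 0 T) hb ha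
    rwa [Real.norm_eq_abs, Real.norm_eq_abs] at this
  -- second order
  have h2 := Convex.norm_image_sub_le_of_norm_hasDerivWithin_le
    (f := fun q => X n q - q * rhs β ν (fun k => X k t) n)
    (f' := fun q => rhs β ν (fun k => X k q) n - 1 * rhs β ν (fun k => X k t) n)
    (C := Lb β ν M (Rb β ν M) n * |r - t|) (s := uIcc t r) (x := t) (y := r) ?_ ?_
    (convex_uIcc t r) left_mem_uIcc right_mem_uIcc
  · rw [Real.norm_eq_abs, Real.norm_eq_abs] at h2
    have e : X n r - r * rhs β ν (fun k => X k t) n - (X n t - t * rhs β ν (fun k => X k t) n)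
        = X n r - X n t - (r - t) * rhs β ν (fun k => X k t) n := by ring
    rw [e] at h2
    refine h2.trans (le_of_eq ?_)
    ring
  · intro q hq
    exact ((h.ode n (by omega) q (hsub hq)).mono hsub).fun_sub
      ((hasDerivWithinAt_id q _).mul_const _)
  · intro q hq
    rw [Real.norm_eq_abs, one_mul]
    have h3 := rhs_lip' (β := β) hν (hM q (hsub hq)) (hM t ht) n (R := Rb β ν M) (δ := |q - t|)
      (fun k hk => h1 k (by omega) q (hsub hq) t ht)
    refine h3.trans ?_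
    have h4 : |q - t| ≤ |r - t| := abs_sub_left_of_mem_uIcc hq
    have h5 : 0 ≤ Lb β ν M (Rb β ν M) n := by
      have hM0 : ∀ k, 0 ≤ M k := fun k => (abs_nonneg _).trans (hM t ht k)
      have hR0 : ∀ k, 0 ≤ Rb β ν M k := fun k => (abs_nonneg _).trans (rhs_bd' hν (hM t ht) k)
      cases n with
      | zero =>
        simp only [Lb]
        have := hM0 0
        have := hM0 1
        have := hR0 0
        have := hR0 1
        positivity
      | succ n =>
        simp only [Lb]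
        have a1 := hM0 n
        have a2 := hM0 (n + 1)
        have a3 := hM0 (n + 2)
        have a4 := hR0 n
        have a5 := hR0 (n + 1)
        have a6 := hR0 (n + 2)
        have a7 := (cp β n).le
        have a8 := (cp β (n + 1)).le
        positivity
    gcongr

/-- The limit of the truncated systems. -/
theorem limit (hν : 0 ≤ ν) {M : ℕ → ℝ} {κ : ℕ → ℝ} {Y : ℕ → ℕ → ℝ → ℝ}
    (hY : ∀ N : ℕ, Cg β ν ((N : ℝ) + 1) (κ N) N x (Y N))
    (hYn : ∀ N : ℕ, ∀ t ∈ Icc (0 : ℝ) ((N : ℝ) + 1), ∀ n, 0 ≤ Y N n t)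
    (hYM : ∀ N : ℕ, ∀ t ∈ Icc (0 : ℝ) ((N : ℝ) + 1), ∀ n, Y N n t ≤ M n) :
    ∃ X : ℕ → ℝ → ℝ, IsDy β ν x X ∧ ∀ n t, 0 ≤ t → 0 ≤ X n t ∧ X n t ≤ M n := by
  have hYa : ∀ N : ℕ, ∀ t ∈ Icc (0 : ℝ) ((N : ℝ) + 1), ∀ n, |Y N n t| ≤ M n := by
    intro N t ht n
    rw [abs_of_nonneg (hYn N t ht n)]
    exact hYM N t ht n
  set U : Ultrafilter ℕ := hyperfilter ℕ with hU
  have hUle : (U : Filter ℕ) ≤ atTop := Nat.hyperfilter_le_atTop
  have hev : ∀ t : ℝ, 0 ≤ t → ∀ᶠ N : ℕ in U, t ∈ Icc (0 : ℝ) ((N : ℝ) + 1) := by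
    intro t ht
    have h1 : ∀ᶠ N : ℕ in atTop, t ≤ (N : ℝ) := eventually_ge_atTop ⌈t⌉₊ |>.mono fun N hN =>
      (Nat.le_ceil t).trans (by exact_mod_cast hN)
    have h2 : ∀ᶠ N : ℕ in U, t ≤ (N : ℝ) := hUle h1
    exact h2.mono fun N hN => ⟨ht, by linarith⟩
  have hlim : ∀ (n : ℕ) (t : ℝ), ∃ l : ℝ, 0 ≤ t →
      (Tendsto (fun N => Y N n t) U (𝓝 l) ∧ l ∈ Icc 0 (M n)) := by
    intro n t
    by_cases ht : 0 ≤ t
    · have h1 : Icc 0 (M n) ∈ U.map fun N => Y N n t := by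
        rw [Ultrafilter.mem_map]
        filter_upwards [hev t ht] with N hN
        exact ⟨hYn N t hN n, hYM N t hN n⟩
      obtain ⟨l, hl1, hl⟩ := isCompact_Icc.ultrafilter_le_nhds (U.map fun N => Y N n t)
        (le_principal_iff.2 h1)
      exact ⟨l, fun _ => ⟨hl, hl1⟩⟩
    · exact ⟨0, fun h => absurd h ht⟩
  choose X hX' using hlim
  have hX : ∀ (n : ℕ) (t : ℝ), 0 ≤ t → Tendsto (fun N => Y N n t) U (𝓝 (X n t)) :=
    fun n t ht => (hX' n t ht).1
  have hrhs : ∀ (n : ℕ) (t : ℝ), 0 ≤ t →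
      Tendsto (fun N => rhs β ν (fun k => Y N k t) n) U (𝓝 (rhs β ν (fun k => X k t) n)) := by
    intro n t ht
    cases n with
    | zero =>
      simp only [rhs]
      exact (((hX 0 t ht).mul (hX 1 t ht)).neg).sub ((hX 0 t ht).const_mul ν)
    | succ n =>
      simp only [rhs]
      exact ((((hX n t ht).pow 2).const_mul _).sub
        (((hX (n + 1) t ht).mul (hX (n + 2) t ht)).const_mul _)).sub
        ((hX (n + 1) t ht).const_mul _)
  have htay : ∀ (n : ℕ) (t : ℝ), 0 ≤ t → ∀ r : ℝ, 0 ≤ r →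
      |X n r - X n t - (r - t) * rhs β ν (fun k => X k t) n|
        ≤ Lb β ν M (Rb β ν M) n * |r - t| ^ 2 := by
    intro n t ht r hr
    have h1 : Tendsto (fun N => |Y N n r - Y N n t - (r - t) * rhs β ν (fun k => Y N k t) n|) U
        (𝓝 |X n r - X n t - (r - t) * rhs β ν (fun k => X k t) n|) :=
      (((hX n r hr).sub (hX n t ht)).sub ((hrhs n t ht).const_mul _)).abs
    refine le_of_tendsto h1 ?_
    have h2 : ∀ᶠ N : ℕ in U, n + 1 ≤ N := hUle (eventually_ge_atTop (n + 1))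
    filter_upwards [hev t ht, hev r hr, h2] with N hN1 hN2 hN3
    exact cg_taylor hν (hY N) (hYa N) hN3 hN1 hN2
  have hd : ∀ (n : ℕ) (t : ℝ), 0 ≤ t →
      HasDerivWithinAt (X n) (rhs β ν (fun k => X k t) n) (Ici 0) t := fun n t ht =>
    hd_of_sq fun r hr => htay n t ht r hr
  refine ⟨X, ⟨?_, ?_, ?_⟩, ?_⟩
  · intro n
    refine tendsto_nhds_unique (hX n 0 le_rfl) ?_
    refine tendsto_const_nhds.congr' ?_
    have h2 : ∀ᶠ N : ℕ in U, n ≤ N := hUle (eventually_ge_atTop n)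
    filter_upwards [h2] with N hN
    exact ((hY N).init n hN).symm
  · exact fun n t ht => (hd n t ht).continuousWithinAt
  · exact fun n t ht => (hd n t ht.le).hasDerivAt (Ici_mem_nhds ht)
  · exact fun n t ht => (hX' n t ht).2

/-- Existence for nonnegative square summable data. -/
theorem exist_l2' (β : ℝ) (hν : 0 ≤ ν) (hx : ∀ n, 0 ≤ x n) (hx2 : Summable fun n => x n ^ 2) :
    ∃ X : ℕ → ℝ → ℝ, IsDy β ν x X := by
  have hex : ∀ N : ℕ, ∃ Y : ℕ → ℝ → ℝ, Cg β ν ((N : ℝ) + 1) 0 N x Y := fun N =>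
    exist_c β N x hν (by positivity) le_rfl
  choose Y hY using hex
  have hb : ∀ N : ℕ, ∀ t ∈ Icc (0 : ℝ) ((N : ℝ) + 1), ∀ n, Y N n t ≤ √(∑' n, x n ^ 2) := by
    intro N t ht n
    rcases le_or_gt n N with hn | hn
    · have h2 := (hY N).energy t ht
      have h4 : Y N n t ^ 2 ≤ ∑ k ∈ Finset.range (N + 1), Y N k t ^ 2 :=
        Finset.single_le_sum (f := fun k => Y N k t ^ 2) (fun k _ => sq_nonneg _)
          (Finset.mem_range.2 (Nat.lt_succ_of_le hn))
      have h5 : ∑ n ∈ Finset.range (N + 1), x n ^ 2 ≤ ∑' n, x n ^ 2 :=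
        hx2.sum_le_tsum _ fun n _ => sq_nonneg _
      apply Real.le_sqrt_of_sq_le
      linarith
    · have : Y N n t = 0 := by
        rcases (Nat.succ_le_of_lt hn).eq_or_lt with rfl | hn
        · rw [(hY N).top t, zero_mul]
        · exact (hY N).zero n hn t
      rw [this]
      exact Real.sqrt_nonneg _
  obtain ⟨X, hX, -⟩ := limit (M := fun _ => √(∑' n, x n ^ 2)) hν hY
    (fun N t ht n => cg_nn le_rfl hx (hY N) t ht n) hb
  exact ⟨X, hX⟩

end Pool.Agent.Run7.h32.On
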