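import Pool.Agent.Run7.h32.On.Cl

/-!
The dyadic model, truncated with the closure `X_{N+1} = κ(t) X_N²`: existence, positivity and
the limit of the truncated systems. The viscosity `ν` may vanish.
-/

set_option autoImplicit false

open Set Filter Topology Metric MeasureTheory
open scoped InnerProductSpace NNReal

namespace Pool.Agent.Run7.h32.On

open Run7.h969.Dy Pool.Agent.Run7.h32.Dy

/-- `X` solves the equations of the shells `n ≤ N` on `[0, T]`, with `X_{N+1} = κ(t) X_N²`. -/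
structure Ct (β ν T : ℝ) (κ : ℝ → ℝ) (N : ℕ) (x : ℕ → ℝ) (X : ℕ → ℝ → ℝ) : Prop where
  init : ∀ n ≤ N, X n 0 = x n
  top : ∀ t, X (N + 1) t = κ t * X N t ^ 2
  zero : ∀ n, N + 1 < n → ∀ t, X n t = 0
  ode : ∀ n ≤ N, ∀ t ∈ Icc 0 T,
    HasDerivWithinAt (X n) (rhs β ν (fun k => X k t) n) (Icc 0 T) t

lemma fldc_cont (β ν : ℝ) {N : ℕ} {κ : ℝ → ℝ} {S : Set ℝ} (hκ : ContinuousOn κ S)
    (v : EuclideanSpace ℝ (Fin (N + 1))) : ContinuousOn (fun t => fldc β ν (κ t) v) S := by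
  have hexc : ∀ n, ContinuousOn (fun t => exc (κ t) v n) S := by
    intro n
    by_cases h : n = N + 1
    · have : (fun t => exc (κ t) v n) = fun t => κ t * ext v N ^ 2 := by
        funext t
        exact if_pos h
      rw [this]
      exact hκ.mul continuousOn_const
    · have : (fun t => exc (κ t) v n) = fun _ => ext v n := by
        funext t
        exact if_neg h
      rw [this]
      exact continuousOn_const
  have h1 : ContinuousOn (fun t => (fun i : Fin (N + 1) => rhs β ν (exc (κ t) v) i)) S := by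
    refine continuousOn_pi.2 fun i => ?_
    exact rhs_cont (X := fun n t => exc (κ t) v n) hexc i
  exact (PiLp.continuous_toLp 2 _).comp_continuousOn h1

lemma fldc_joint (β ν : ℝ) (N : ℕ) :
    ContDiff ℝ 1 fun w : ℝ × EuclideanSpace ℝ (Fin (N + 1)) => fldc β ν w.1 w.2 := by
  have hexc : ∀ n, ContDiff ℝ 1 fun w : ℝ × EuclideanSpace ℝ (Fin (N + 1)) => exc w.1 w.2 n := by
    intro n
    by_cases h : n = N + 1
    · have : (fun w : ℝ × EuclideanSpace ℝ (Fin (N + 1)) => exc w.1 w.2 n)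
          = fun w => w.1 * ext w.2 N ^ 2 := by
        funext w
        exact if_pos h
      rw [this]
      exact contDiff_fst.mul (((ext_c N).comp contDiff_snd).pow 2)
    · have : (fun w : ℝ × EuclideanSpace ℝ (Fin (N + 1)) => exc w.1 w.2 n)
          = fun w => ext w.2 n := by
        funext w
        exact if_neg h
      rw [this]
      exact (ext_c n).comp contDiff_snd
  rw [contDiff_euclidean]
  intro i
  exact rhs_c β ν (X := fun (w : ℝ × EuclideanSpace ℝ (Fin (N + 1))) n => exc w.1 w.2 n) hexc i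

theorem exist_t (β : ℝ) {ν T : ℝ} {κ : ℝ → ℝ} (N : ℕ) (x : ℕ → ℝ) (hν : 0 ≤ ν) (hT : 0 < T)
    (hκ : ∀ t ∈ Icc 0 T, 0 ≤ κ t) (hκc : ContinuousOn κ (Icc 0 T)) :
    ∃ X : ℕ → ℝ → ℝ, Ct β ν T κ N x X := by
  -- a bound of the closure
  obtain ⟨K, hK⟩ := isCompact_Icc.exists_bound_of_continuousOn hκc
  have hlip : ∀ R : ℝ, ∃ C : ℝ≥0, ∀ t ∈ Icc 0 T, LipschitzOnWith C
      (fldc β ν (κ t) : EuclideanSpace ℝ (Fin (N + 1)) → EuclideanSpace ℝ (Fin (N + 1)))
      (closedBall 0 R) := by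
    intro R
    obtain ⟨C, hC⟩ := ((fldc_joint β ν N).locallyLipschitz.locallyLipschitzOn
      (s := Icc (-K) K ×ˢ closedBall (0 : EuclideanSpace ℝ (Fin (N + 1))) R)
      ).exists_lipschitzOnWith_of_compact (isCompact_Icc.prod (isCompact_closedBall _ _))
    refine ⟨C, fun t ht => ?_⟩
    have h1 := hK t ht
    rw [Real.norm_eq_abs, abs_le] at h1
    intro v hv w hw
    have h2 := hC (x := (κ t, v)) ⟨h1, hv⟩ (y := (κ t, w)) ⟨h1, hw⟩
    have h3 : edist (κ t, v) (κ t, w) = edist v w := by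
      rw [Prod.edist_eq]
      simp
    rw [h3] at h2
    exact h2
  obtain ⟨v, hv0, hv, hE⟩ := H772R2.NSR.exists_global
    (fun t : ℝ => (fldc β ν (κ t) :
      EuclideanSpace ℝ (Fin (N + 1)) → EuclideanSpace ℝ (Fin (N + 1))))
    hT.le hlip (fun v => fldc_cont β ν hκc v)
    (WithLp.toLp 2 fun i : Fin (N + 1) => x i) le_rfl
    (fun t ht w => fldc_inner β ν (κ t) hν (hκ t ht) w)
  refine ⟨fun n t => exc (κ t) (v t) n, ?_, ?_, ?_, ?_⟩
  · intro n hn
    rw [exc_in _ _ (Nat.lt_succ_of_le hn), hv0, ext_in _ (Nat.lt_succ_of_le hn)]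
  · intro t
    rw [exc_top, exc_in _ _ (Nat.lt_succ_self N)]
  · intro n hn t
    rw [exc, if_neg (by omega)]
    exact ext_out _ (by omega)
  · intro n hn t ht
    have hn' : n < N + 1 := Nat.lt_succ_of_le hn
    have h1 : HasDerivWithinAt (fun t => v t ⟨n, hn'⟩) (fldc β ν (κ t) (v t) ⟨n, hn'⟩)
        (Icc 0 T) t :=
      ((EuclideanSpace.proj (𝕜 := ℝ) (⟨n, hn'⟩ : Fin (N + 1))).hasFDerivAt).comp_hasDerivWithinAt t
        (hv t ht)
    have h2 : (fun t => exc (κ t) (v t) n) = fun t => v t ⟨n, hn'⟩ := by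
      funext t
      rw [exc_in _ _ hn', ext_in _ hn']
    rw [h2]
    exact h1

variable {β ν T : ℝ} {κ : ℝ → ℝ} {N : ℕ} {x : ℕ → ℝ} {X : ℕ → ℝ → ℝ}

lemma ct_cont (hκc : ContinuousOn κ (Icc 0 T)) (h : Ct β ν T κ N x X) (n : ℕ) :
    ContinuousOn (X n) (Icc 0 T) := by
  rcases le_or_gt n N with hn | hn
  · exact fun t ht => (h.ode n hn t ht).continuousWithinAt
  · rcases (Nat.succ_le_of_lt hn).eq_or_lt with rfl | hn
    · have : X (N + 1) = fun t => κ t * X N t ^ 2 := by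
        funext t
        exact h.top t
      rw [this]
      exact hκc.mul
        (ContinuousOn.pow (fun t ht => (h.ode N le_rfl t ht).continuousWithinAt) 2)
    · have : X n = fun _ => 0 := by
        funext t
        exact h.zero n hn t
      rw [this]
      exact continuousOn_const

lemma ct_nn (hκ : ∀ t ∈ Icc 0 T, 0 ≤ κ t) (hκc : ContinuousOn κ (Icc 0 T))
    (hx : ∀ n, 0 ≤ x n) (h : Ct β ν T κ N x X) : ∀ t ∈ Icc 0 T, ∀ n, 0 ≤ X n t := by
  intro t ht n
  rcases le_or_gt n N with hn | hn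
  · cases n with
    | zero => exact nn_zero (ct_cont hκc h) (by rw [h.init 0 hn]; exact hx 0) (h.ode 0 hn) t ht
    | succ n => exact nn_succ (ct_cont hκc h) n (by rw [h.init _ hn]; exact hx _) (h.ode _ hn) t ht
  · rcases (Nat.succ_le_of_lt hn).eq_or_lt with rfl | hn
    · rw [h.top t]
      exact mul_nonneg (hκ t ht) (sq_nonneg _)
    · rw [h.zero n hn t]

/-- the second order expansion of the solutions of the truncated systems -/
lemma ct_taylor (hν : 0 ≤ ν) (h : Ct β ν T κ N x X) {M : ℕ → ℝ}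
    (hM : ∀ t ∈ Icc 0 T, ∀ k, |X k t| ≤ M k) {n : ℕ} (hn : n + 1 ≤ N) {t r : ℝ}
    (ht : t ∈ Icc 0 T) (hr : r ∈ Icc 0 T) :
    |X n r - X n t - (r - t) * rhs β ν (fun k => X k t) n| ≤ Lb β ν M (Rb β ν M) n * |r - t| ^ 2 := by
  have hsub : uIcc t r ⊆ Icc 0 T := uIcc_subset_Icc ht hr
  -- first order
  have h1 : ∀ k ≤ N, ∀ a ∈ Icc 0 T, ∀ b ∈ Icc 0 T, |X k a - X k b| ≤ Rb β ν M k * |a - b| := by
    intro k hk a ha b hb
    have := Convex.norm_image_sub_le_of_norm_hasDerivWithin_le (f := X k)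
      (f' := fun t => rhs β ν (fun k => X k t) k) (C := Rb β ν M k) (s := Icc 0 T) (x := b) (y := a)
      (fun t ht => h.ode k hk t ht) (fun t ht => rhs_bd' hν (hM t ht) k) (convex_Icc 0 T) hb ha
    rwa [Real.norm_eq_abs, Real.norm_eq_abs] at this
  -- second order
  have h2 := Convex.norm_image_sub_le_of_norm_hasDerivWithin_le
    (f := fun q => X n q - q * rhs β ν (fun k => X k t) n)
    (f' := fun q => rhs β ν (fun k => X k q) n - 1 * rhs β ν (fun k => X k t) n)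
    (C := Lb β ν M (Rb β ν M) n * |r - t|) (s := uIcc t r) (x := t) (y := r) ?_ ?_
    (convex_uIcc t r) left_mem_uIcc right_mem_uIcc
  · rw [Real.norm_eq_abs, Real.norm_eq_abs] at h2
    have e : X n r - r * rhs β ν (fun k => X k t) n - (X n t - t * rhs β ν (fun k => X k t) n)
        = X n r - X n t - (r - t) * rhs β ν (fun k => X k t) n := by ring
    rw [e] at h2
    refine h2.trans (le_of_eq ?_)
    ring
  · intro q hq
    exact ((h.ode n (by omega) q (hsub hq)).mono hsub).fun_sub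
      ((hasDerivWithinAt_id q _).mul_const _)
  · intro q hq
    rw [Real.norm_eq_abs, one_mul]
    have h3 := rhs_lip' (β := β) hν (hM q (hsub hq)) (hM t ht) n (R := Rb β ν M) (δ := |q - t|)
      (fun k hk => h1 k (by omega) q (hsub hq) t ht)
    refine h3.trans ?_
    have h4 : |q - t| ≤ |r - t| := abs_sub_left_of_mem_uIcc hq
    have h5 : 0 ≤ Lb β ν M (Rb β ν M) n := by
      have hM0 : ∀ k, 0 ≤ M k := fun k => (abs_nonneg _).trans (hM t ht k)
      have hR0 : ∀ k, 0 ≤ Rb β ν M k := fun k => (abs_nonneg _).trans (rhs_bd' hν (hM t ht) k)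
      cases n with
      | zero =>
        simp only [Lb]
        have := hM0 0
        have := hM0 1
        have := hR0 0
        have := hR0 1
        positivity
      | succ n =>
        simp only [Lb]
        have a1 := hM0 n
        have a2 := hM0 (n + 1)
        have a3 := hM0 (n + 2)
        have a4 := hR0 n
        have a5 := hR0 (n + 1)
        have a6 := hR0 (n + 2)
        have a7 := (cp β n).le
        have a8 := (cp β (n + 1)).le
        positivity
    gcongr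

/-- The limit of the truncated systems. -/
theorem limit_t (hν : 0 ≤ ν) {M : ℕ → ℝ} {A : ℕ → ℝ → ℝ} {κ : ℕ → ℝ → ℝ} {Y : ℕ → ℕ → ℝ → ℝ}
    (hY : ∀ N : ℕ, Ct β ν ((N : ℝ) + 1) (κ N) N x (Y N))
    (hYn : ∀ N : ℕ, ∀ t ∈ Icc (0 : ℝ) ((N : ℝ) + 1), ∀ n, 0 ≤ Y N n t)
    (hYM : ∀ N : ℕ, ∀ t ∈ Icc (0 : ℝ) ((N : ℝ) + 1), ∀ n, Y N n t ≤ M n)
    (hYA : ∀ N : ℕ, ∀ t ∈ Icc (0 : ℝ) ((N : ℝ) + 1), ∀ n, Y N n t ≤ A n t) :
    ∃ X : ℕ → ℝ → ℝ, IsDy β ν x X ∧ ∀ n t, 0 ≤ t → 0 ≤ X n t ∧ X n t ≤ A n t := by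
  have hYa : ∀ N : ℕ, ∀ t ∈ Icc (0 : ℝ) ((N : ℝ) + 1), ∀ n, |Y N n t| ≤ M n := by
    intro N t ht n
    rw [abs_of_nonneg (hYn N t ht n)]
    exact hYM N t ht n
  set U : Ultrafilter ℕ := hyperfilter ℕ with hU
  have hUle : (U : Filter ℕ) ≤ atTop := Nat.hyperfilter_le_atTop
  have hev : ∀ t : ℝ, 0 ≤ t → ∀ᶠ N : ℕ in U, t ∈ Icc (0 : ℝ) ((N : ℝ) + 1) := by
    intro t ht
    have h1 : ∀ᶠ N : ℕ in atTop, t ≤ (N : ℝ) := eventually_ge_atTop ⌈t⌉₊ |>.mono fun N hN =>
      (Nat.le_ceil t).trans (by exact_mod_cast hN)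
    have h2 : ∀ᶠ N : ℕ in U, t ≤ (N : ℝ) := hUle h1
    exact h2.mono fun N hN => ⟨ht, by linarith⟩
  have hlim : ∀ (n : ℕ) (t : ℝ), ∃ l : ℝ, 0 ≤ t →
      (Tendsto (fun N => Y N n t) U (𝓝 l) ∧ l ∈ Icc 0 (A n t)) := by
    intro n t
    by_cases ht : 0 ≤ t
    · have h1 : Icc 0 (A n t) ∈ U.map fun N => Y N n t := by
        rw [Ultrafilter.mem_map]
        filter_upwards [hev t ht] with N hN
        exact ⟨hYn N t hN n, hYA N t hN n⟩
      obtain ⟨l, hl1, hl⟩ := isCompact_Icc.ultrafilter_le_nhds (U.map fun N => Y N n t)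
        (le_principal_iff.2 h1)
      exact ⟨l, fun _ => ⟨hl, hl1⟩⟩
    · exact ⟨0, fun h => absurd h ht⟩
  choose X hX' using hlim
  have hX : ∀ (n : ℕ) (t : ℝ), 0 ≤ t → Tendsto (fun N => Y N n t) U (𝓝 (X n t)) :=
    fun n t ht => (hX' n t ht).1
  have hrhs : ∀ (n : ℕ) (t : ℝ), 0 ≤ t →
      Tendsto (fun N => rhs β ν (fun k => Y N k t) n) U (𝓝 (rhs β ν (fun k => X k t) n)) := by
    intro n t ht
    cases n with
    | zero =>
      simp only [rhs]
      exact (((hX 0 t ht).mul (hX 1 t ht)).neg).sub ((hX 0 t ht).const_mul ν)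
    | succ n =>
      simp only [rhs]
      exact ((((hX n t ht).pow 2).const_mul _).sub
        (((hX (n + 1) t ht).mul (hX (n + 2) t ht)).const_mul _)).sub
        ((hX (n + 1) t ht).const_mul _)
  have htay : ∀ (n : ℕ) (t : ℝ), 0 ≤ t → ∀ r : ℝ, 0 ≤ r →
      |X n r - X n t - (r - t) * rhs β ν (fun k => X k t) n|
        ≤ Lb β ν M (Rb β ν M) n * |r - t| ^ 2 := by
    intro n t ht r hr
    have h1 : Tendsto (fun N => |Y N n r - Y N n t - (r - t) * rhs β ν (fun k => Y N k t) n|) U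
        (𝓝 |X n r - X n t - (r - t) * rhs β ν (fun k => X k t) n|) :=
      (((hX n r hr).sub (hX n t ht)).sub ((hrhs n t ht).const_mul _)).abs
    refine le_of_tendsto h1 ?_
    have h2 : ∀ᶠ N : ℕ in U, n + 1 ≤ N := hUle (eventually_ge_atTop (n + 1))
    filter_upwards [hev t ht, hev r hr, h2] with N hN1 hN2 hN3
    exact ct_taylor hν (hY N) (hYa N) hN3 hN1 hN2
  have hd : ∀ (n : ℕ) (t : ℝ), 0 ≤ t →
      HasDerivWithinAt (X n) (rhs β ν (fun k => X k t) n) (Ici 0) t := fun n t ht =>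
    hd_of_sq fun r hr => htay n t ht r hr
  refine ⟨X, ⟨?_, ?_, ?_⟩, ?_⟩
  · intro n
    refine tendsto_nhds_unique (hX n 0 le_rfl) ?_
    refine tendsto_const_nhds.congr' ?_
    have h2 : ∀ᶠ N : ℕ in U, n ≤ N := hUle (eventually_ge_atTop n)
    filter_upwards [h2] with N hN
    exact ((hY N).init n hN).symm
  · exact fun n t ht => (hd n t ht).continuousWithinAt
  · exact fun n t ht => (hd n t ht.le).hasDerivAt (Ici_mem_nhds ht)
  · exact fun n t ht => (hX' n t ht).2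

end Pool.Agent.Run7.h32.On
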