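import Pool.Agent.Run7.h32.On.Cl

/-!
The dyadic model: the integrals of the cubes of the shells, uniformly in the viscosity `ν ≥ 0`.
-/

set_option autoImplicit false

open Set Filter Topology MeasureTheory

namespace Pool.Agent.Run7.h32.On

open Run7.h969.Dy Pool.Agent.Run7.h32.Dy

/-- Solutions with nonnegative data of energy at most `E`. -/
structure Sol (β ν E : ℝ) (x : ℕ → ℝ) (X : ℕ → ℝ → ℝ) : Prop where
  ν0 : 0 ≤ ν
  xn : ∀ n, 0 ≤ x n
  en : ∀ N : ℕ, ∑ n ∈ Finset.range N, x n ^ 2 ≤ E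
  dy : IsDy β ν x X

namespace Sol

variable {β ν E : ℝ} {x : ℕ → ℝ} {X : ℕ → ℝ → ℝ} (S : Sol β ν E x X)
include S

lemma nn (n : ℕ) {t : ℝ} (ht : 0 ≤ t) : 0 ≤ X n t := by
  have hc : ∀ n, ContinuousOn (X n) (Icc 0 t) := fun n => (S.dy.cont n).mono Icc_subset_Ici_self
  cases n with
  | zero =>
    exact nn_zero hc (by rw [S.dy.init 0]; exact S.xn 0) (fun s hs => dy_dw' S.dy 0 hs) t
      ⟨ht, le_rfl⟩
  | succ n =>
    exact nn_succ hc n (by rw [S.dy.init _]; exact S.xn _) (fun s hs => dy_dw' S.dy _ hs) t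
      ⟨ht, le_rfl⟩

lemma E0 : 0 ≤ E := by simpa using S.en 0

lemma cont (n : ℕ) (t : ℝ) : ContinuousOn (X n) (Icc 0 t) :=
  (S.dy.cont n).mono Icc_subset_Ici_self

lemma energy (N : ℕ) {t : ℝ} (ht : 0 ≤ t) :
    ∑ n ∈ Finset.range (N + 1), X n t ^ 2
      + 2 * (∫ r in (0 : ℝ)..t, (2 : ℝ) ^ (β * N) * (X N r ^ 2 * X (N + 1) r))
      + 2 * (∫ r in (0 : ℝ)..t, ν * ∑ n ∈ Finset.range (N + 1), 4 ^ n * X n r ^ 2) ≤ E := by
  have hc : ∀ k, ContinuousOn (X k) (Icc 0 t) := fun k => S.cont k t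
  have hc1 : ContinuousOn (fun s => (2 : ℝ) ^ (β * N) * (X N s ^ 2 * X (N + 1) s)) (Icc 0 t) :=
    continuousOn_const.mul (((hc N).pow 2).mul (hc (N + 1)))
  have hc2 : ContinuousOn (fun s => ν * ∑ n ∈ Finset.range (N + 1), (4 : ℝ) ^ n * X n s ^ 2)
      (Icc 0 t) := continuousOn_const.mul
        (continuousOn_finsetSum _ fun n _ => continuousOn_const.mul ((hc n).pow 2))
  have hi1 : IntervalIntegrable (fun s => (2 : ℝ) ^ (β * N) * (X N s ^ 2 * X (N + 1) s))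
      volume 0 t := ContinuousOn.intervalIntegrable (by rw [uIcc_of_le ht]; exact hc1)
  have hi2 : IntervalIntegrable (fun s => ν * ∑ n ∈ Finset.range (N + 1), (4 : ℝ) ^ n * X n s ^ 2)
      volume 0 t := ContinuousOn.intervalIntegrable (by rw [uIcc_of_le ht]; exact hc2)
  have h1 : ∫ s in (0 : ℝ)..t, (-2 * ((2 : ℝ) ^ (β * N) * (X N s ^ 2 * X (N + 1) s))
      - 2 * (ν * ∑ n ∈ Finset.range (N + 1), 4 ^ n * X n s ^ 2))
      = ∑ n ∈ Finset.range (N + 1), X n t ^ 2 - ∑ n ∈ Finset.range (N + 1), X n 0 ^ 2 := by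
    refine intervalIntegral.integral_eq_sub_of_hasDerivAt_of_le ht
      (f := fun s => ∑ n ∈ Finset.range (N + 1), X n s ^ 2) ?_ ?_ ?_
    · exact continuousOn_finsetSum _ fun k _ => (hc k).pow 2
    · intro r hr
      have := energy_hd (S := univ) (β := β) (ν := ν) (X := X) (t := r) N
        (fun n _ => (S.dy.ode n r hr.1).hasDerivWithinAt)
      refine (this.hasDerivAt univ_mem).congr_deriv ?_
      ring
    · exact (hi1.const_mul (-2)).sub (hi2.const_mul 2)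
  rw [intervalIntegral.integral_sub (hi1.const_mul (-2)) (hi2.const_mul 2),
    intervalIntegral.integral_const_mul (-2), intervalIntegral.integral_const_mul 2] at h1
  have h2 : ∑ n ∈ Finset.range (N + 1), X n 0 ^ 2 = ∑ n ∈ Finset.range (N + 1), x n ^ 2 :=
    Finset.sum_congr rfl fun n _ => by rw [S.dy.init n]
  have h4 := S.en (N + 1)
  linarith

lemma flux_nn (N : ℕ) {t : ℝ} (ht : 0 ≤ t) :
    0 ≤ ∫ r in (0 : ℝ)..t, (2 : ℝ) ^ (β * N) * (X N r ^ 2 * X (N + 1) r) :=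
  intervalIntegral.integral_nonneg ht fun s hs =>
    mul_nonneg (cp β N).le (mul_nonneg (sq_nonneg _) (S.nn _ hs.1))

lemma diss_nn (N : ℕ) {t : ℝ} (ht : 0 ≤ t) :
    0 ≤ ∫ r in (0 : ℝ)..t, ν * ∑ n ∈ Finset.range (N + 1), 4 ^ n * X n r ^ 2 :=
  intervalIntegral.integral_nonneg ht fun s _ =>
    mul_nonneg S.ν0 (Finset.sum_nonneg fun n _ => by positivity)

lemma flux (N : ℕ) {t : ℝ} (ht : 0 ≤ t) :
    2 * (∫ r in (0 : ℝ)..t, (2 : ℝ) ^ (β * N) * (X N r ^ 2 * X (N + 1) r)) ≤ E := by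
  have h1 := S.energy N ht
  have h2 := S.diss_nn N ht
  have h3 : 0 ≤ ∑ n ∈ Finset.range (N + 1), X n t ^ 2 := Finset.sum_nonneg fun n _ => sq_nonneg _
  linarith

lemma sum_le (N : ℕ) {t : ℝ} (ht : 0 ≤ t) : ∑ n ∈ Finset.range N, X n t ^ 2 ≤ E := by
  cases N with
  | zero => simpa using S.E0
  | succ N =>
    have h1 := S.energy N ht
    have h2 := S.diss_nn N ht
    have h3 := S.flux_nn N ht
    linarith

lemma sq_le (n : ℕ) {t : ℝ} (ht : 0 ≤ t) : X n t ^ 2 ≤ E := by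
  have h1 : X n t ^ 2 ≤ ∑ k ∈ Finset.range (n + 1), X k t ^ 2 :=
    Finset.single_le_sum (f := fun k => X k t ^ 2) (fun k _ => sq_nonneg _)
      (Finset.mem_range.2 (Nat.lt_succ_self n))
  exact h1.trans (S.sum_le (n + 1) ht)

lemma diss (N : ℕ) {t : ℝ} (ht : 0 ≤ t) :
    2 * (∫ r in (0 : ℝ)..t, ν * (4 ^ N * X N r ^ 2 + 4 ^ (N + 1) * X (N + 1) r ^ 2)) ≤ E := by
  have h1 := S.energy (N + 1) ht
  have h2 := S.flux_nn (N + 1) ht
  have h3 : 0 ≤ ∑ n ∈ Finset.range (N + 1 + 1), X n t ^ 2 :=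
    Finset.sum_nonneg fun n _ => sq_nonneg _
  have hc : ∀ k, ContinuousOn (X k) (uIcc 0 t) := fun k => by
    rw [uIcc_of_le ht]
    exact S.cont k t
  have h4 : ∫ r in (0 : ℝ)..t, ν * (4 ^ N * X N r ^ 2 + 4 ^ (N + 1) * X (N + 1) r ^ 2)
      ≤ ∫ r in (0 : ℝ)..t, ν * ∑ n ∈ Finset.range (N + 1 + 1), 4 ^ n * X n r ^ 2 := by
    refine intervalIntegral.integral_mono_on ht ?_ ?_ ?_
    · exact ContinuousOn.intervalIntegrable (continuousOn_const.mul
        ((continuousOn_const.mul ((hc N).pow 2)).add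
        (continuousOn_const.mul ((hc (N + 1)).pow 2))))
    · exact ContinuousOn.intervalIntegrable (continuousOn_const.mul
        (continuousOn_finsetSum _ fun n _ => continuousOn_const.mul ((hc n).pow 2)))
    · intro r _
      apply mul_le_mul_of_nonneg_left _ S.ν0
      rw [Finset.sum_range_succ, Finset.sum_range_succ]
      have : 0 ≤ ∑ n ∈ Finset.range N, (4 : ℝ) ^ n * X n r ^ 2 :=
        Finset.sum_nonneg fun n _ => by positivity
      linarith
  linarith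

end Sol

/-- the integral of the cube -/
noncomputable def ac (β : ℝ) (X : ℕ → ℝ → ℝ) (N : ℕ) (t : ℝ) : ℝ :=
  ∫ r in (0 : ℝ)..t, (2 : ℝ) ^ (β * N) * X N r ^ 3

lemma amgm {a b lam : ℝ} (hb : 0 ≤ b) (hl : 0 < lam) :
    a * b ^ 2 ≤ lam / 2 * (a ^ 2 * b) + 1 / (2 * lam) * b ^ 3 := by
  have h1 : lam / 2 * (a ^ 2 * b) + 1 / (2 * lam) * b ^ 3 - a * b ^ 2
      = b / (2 * lam) * (lam * a - b) ^ 2 := by
    field_simp
    ring
  have h2 : 0 ≤ b / (2 * lam) * (lam * a - b) ^ 2 := by positivity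
  linarith

lemma amgm3 {a b d lam : ℝ} (hb : 0 ≤ b) (hd : 0 ≤ d) (hl : 0 < lam) :
    a * b * d ≤ lam / 2 * (a ^ 2 * b) + 1 / (2 * lam) * (b ^ 3 + d ^ 3) := by
  have h1 : a * b * d ≤ lam / 2 * (a ^ 2 * b) + 1 / (2 * lam) * (b * d ^ 2) := by
    have h1 : lam / 2 * (a ^ 2 * b) + 1 / (2 * lam) * (b * d ^ 2) - a * b * d
        = b / (2 * lam) * (lam * a - d) ^ 2 := by
      field_simp
      ring
    have h2 : 0 ≤ b / (2 * lam) * (lam * a - d) ^ 2 := by positivity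
    linarith
  have h2 : b * d ^ 2 ≤ b ^ 3 + d ^ 3 := by
    rcases le_total b d with h | h
    · have h3 : b * d ^ 2 ≤ d * d ^ 2 := mul_le_mul_of_nonneg_right h (sq_nonneg d)
      have h4 : 0 ≤ b ^ 3 := by positivity
      have h5 : d * d ^ 2 = d ^ 3 := by ring
      linarith
    · have h3 : d ^ 2 ≤ b ^ 2 := pow_le_pow_left₀ hd h 2
      have h4 : b * d ^ 2 ≤ b * b ^ 2 := mul_le_mul_of_nonneg_left h3 hb
      have h5 : 0 ≤ d ^ 3 := by positivity
      have h6 : b * b ^ 2 = b ^ 3 := by ring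
      linarith
  have h3 : 1 / (2 * lam) * (b * d ^ 2) ≤ 1 / (2 * lam) * (b ^ 3 + d ^ 3) :=
    mul_le_mul_of_nonneg_left h2 (by positivity)
  linarith

/-- the pointwise inequality -/
lemma cube_le {β ν lam a b d w K0 K1 F : ℝ} (hν : 0 ≤ ν) (hl : 0 < lam)
    (hb : 0 ≤ b) (hd : 0 ≤ d) (hw : 0 ≤ w) (hK0 : 0 ≤ K0)
    (hβ : 1 ≤ (2 : ℝ) ^ β) (hK1 : K1 = (2 : ℝ) ^ β * K0) (hF : 0 ≤ F) :
    K0 * a ^ 3 ≤ ((w - K0 * (a * b) - ν * F * a) * b
        + a * (K0 * a ^ 2 - K1 * (b * d) - ν * (4 * F) * b))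
      + lam * (1 + (2 : ℝ) ^ β) * (K0 * (a ^ 2 * b))
      + 1 / lam * (K1 * b ^ 3 + K1 * (2 : ℝ) ^ β * d ^ 3)
      + 5 / 2 * (ν * (F * a ^ 2 + 4 * F * b ^ 2)) := by
  have h1 := amgm (a := a) hb hl
  have h2 := amgm3 (a := a) hb hd hl
  have h3 := mul_le_mul_of_nonneg_left h1 hK0
  have hK1' : 0 ≤ K1 := by rw [hK1]; positivity
  have h4 := mul_le_mul_of_nonneg_left h2 hK1'
  have h5 : ν * F * (a * b) ≤ ν * F * ((a ^ 2 + b ^ 2) / 2) := by
    apply mul_le_mul_of_nonneg_left _ (mul_nonneg hν hF)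
    nlinarith [sq_nonneg (a - b)]
  have h6 : 0 ≤ w * b := mul_nonneg hw hb
  have hil : 0 < 1 / (2 * lam) := by positivity
  have h7 : K0 * (1 / (2 * lam) * b ^ 3) ≤ 1 / (2 * lam) * (K1 * b ^ 3) := by
    have : K0 * b ^ 3 ≤ K1 * b ^ 3 := by
      rw [hK1]
      have : 0 ≤ K0 * b ^ 3 := by positivity
      nlinarith
    have := mul_le_mul_of_nonneg_left this hil.le
    linarith
  have h8 : 1 / (2 * lam) * (K1 * d ^ 3) ≤ 1 / lam * (K1 * (2 : ℝ) ^ β * d ^ 3) := by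
    have i1 : K1 * d ^ 3 ≤ K1 * (2 : ℝ) ^ β * d ^ 3 := by
      have : 0 ≤ K1 * d ^ 3 := by positivity
      nlinarith
    have i2 : 0 ≤ K1 * d ^ 3 := by positivity
    have i3 : 1 / (2 * lam) ≤ 1 / lam := by
      apply one_div_le_one_div_of_le hl
      linarith
    exact mul_le_mul i3 i1 i2 (by positivity)
  have h9 : 1 / lam = 1 / (2 * lam) + 1 / (2 * lam) := by
    field_simp
    norm_num
  have h10 : 0 ≤ ν * F * b ^ 2 := by positivity
  have h11 : 0 ≤ K0 * (a ^ 2 * b) := by positivity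
  have h12 : 0 ≤ K1 * (a ^ 2 * b) := by positivity
  have h13 : 1 / lam * (K1 * b ^ 3 + K1 * (2 : ℝ) ^ β * d ^ 3)
      = 1 / (2 * lam) * (K1 * b ^ 3) + 1 / (2 * lam) * (K1 * b ^ 3)
        + 1 / lam * (K1 * (2 : ℝ) ^ β * d ^ 3) := by rw [h9]; ring
  rw [h13]
  have h14 : lam * (1 + (2 : ℝ) ^ β) * (K0 * (a ^ 2 * b))
      = lam * (K0 * (a ^ 2 * b)) + lam * (K1 * (a ^ 2 * b)) := by rw [hK1]; ring
  rw [h14]
  have h15 : 0 ≤ lam * (K0 * (a ^ 2 * b)) := by positivity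
  have h16 : 0 ≤ lam * (K1 * (a ^ 2 * b)) := by positivity
  linarith

lemma rhs_form (β ν : ℝ) (y : ℕ → ℝ) (N : ℕ) : ∃ w, 0 ≤ w ∧
    rhs β ν y N = w - (2 : ℝ) ^ (β * N) * (y N * y (N + 1)) - ν * 4 ^ N * y N := by
  cases N with
  | zero =>
    refine ⟨0, le_rfl, ?_⟩
    simp only [rhs, Nat.cast_zero, mul_zero, Real.rpow_zero, pow_zero]
    ring
  | succ n =>
    refine ⟨(2 : ℝ) ^ (β * n) * y n ^ 2, mul_nonneg (cp β n).le (sq_nonneg _), ?_⟩
    simp only [rhs]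
    push_cast
    ring

namespace Sol

variable {β ν E : ℝ} {x : ℕ → ℝ} {X : ℕ → ℝ → ℝ} (S : Sol β ν E x X)
include S

lemma ac_nn (N : ℕ) {t : ℝ} (ht : 0 ≤ t) : 0 ≤ ac β X N t :=
  intervalIntegral.integral_nonneg ht fun _ hs =>
    mul_nonneg (cp β N).le (pow_nonneg (S.nn _ hs.1) 3)

/-- the recursive estimate -/
lemma step (hβ : 0 ≤ β) (N : ℕ) {lam t : ℝ} (hl : 0 < lam) (ht : 0 ≤ t) :
    ac β X N t ≤ (4 + lam * (1 + (2 : ℝ) ^ β)) * E
      + 1 / lam * (ac β X (N + 1) t + ac β X (N + 2) t) := by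
  have h2β : 1 ≤ (2 : ℝ) ^ β := Real.one_le_rpow one_le_two hβ
  have hc : ∀ k, ContinuousOn (X k) (uIcc 0 t) := fun k => by
    rw [uIcc_of_le ht]
    exact S.cont k t
  have hcr : ∀ k, ContinuousOn (fun r => rhs β ν (fun k => X k r) k) (uIcc 0 t) := fun k =>
    rhs_cont hc k
  -- the functions
  have c0 : IntervalIntegrable (fun r => (2 : ℝ) ^ (β * N) * X N r ^ 3) volume 0 t :=
    (continuousOn_const.mul ((hc N).pow 3)).intervalIntegrable
  have c1 : IntervalIntegrable (fun r => rhs β ν (fun k => X k r) N * X (N + 1) r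
      + X N r * rhs β ν (fun k => X k r) (N + 1)) volume 0 t :=
    (((hcr N).mul (hc (N + 1))).add ((hc N).mul (hcr (N + 1)))).intervalIntegrable
  have c2 : IntervalIntegrable (fun r => (2 : ℝ) ^ (β * N) * (X N r ^ 2 * X (N + 1) r))
      volume 0 t :=
    (continuousOn_const.mul (((hc N).pow 2).mul (hc (N + 1)))).intervalIntegrable
  have c3 : IntervalIntegrable (fun r => (2 : ℝ) ^ (β * (N + 1 : ℕ)) * X (N + 1) r ^ 3)
      volume 0 t := (continuousOn_const.mul ((hc (N + 1)).pow 3)).intervalIntegrable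
  have c4 : IntervalIntegrable (fun r => (2 : ℝ) ^ (β * (N + 2 : ℕ)) * X (N + 2) r ^ 3)
      volume 0 t := (continuousOn_const.mul ((hc (N + 2)).pow 3)).intervalIntegrable
  have c5 : IntervalIntegrable (fun r => ν * (4 ^ N * X N r ^ 2 + 4 ^ (N + 1) * X (N + 1) r ^ 2))
      volume 0 t := (continuousOn_const.mul ((continuousOn_const.mul ((hc N).pow 2)).add
        (continuousOn_const.mul ((hc (N + 1)).pow 2)))).intervalIntegrable
  -- the integral of the derivative of the product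
  have i1 : ∫ r in (0 : ℝ)..t, (rhs β ν (fun k => X k r) N * X (N + 1) r
      + X N r * rhs β ν (fun k => X k r) (N + 1)) = X N t * X (N + 1) t - X N 0 * X (N + 1) 0 := by
    refine intervalIntegral.integral_eq_sub_of_hasDerivAt_of_le ht
      (f := fun s => X N s * X (N + 1) s) ?_ ?_ c1
    · exact (S.cont N t).mul (S.cont (N + 1) t)
    · intro r hr
      exact (S.dy.ode N r hr.1).mul (S.dy.ode (N + 1) r hr.1)
  have i2 : X N t * X (N + 1) t ≤ E := by
    have h1 := S.sq_le N ht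
    have h2 := S.sq_le (N + 1) ht
    nlinarith [sq_nonneg (X N t - X (N + 1) t)]
  have i3 : 0 ≤ X N 0 * X (N + 1) 0 := mul_nonneg (S.nn _ le_rfl) (S.nn _ le_rfl)
  -- monotonicity
  have hmono : ac β X N t ≤ ∫ r in (0 : ℝ)..t, ((rhs β ν (fun k => X k r) N * X (N + 1) r
      + X N r * rhs β ν (fun k => X k r) (N + 1))
      + lam * (1 + (2 : ℝ) ^ β) * ((2 : ℝ) ^ (β * N) * (X N r ^ 2 * X (N + 1) r))
      + 1 / lam * ((2 : ℝ) ^ (β * (N + 1 : ℕ)) * X (N + 1) r ^ 3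
        + (2 : ℝ) ^ (β * (N + 2 : ℕ)) * X (N + 2) r ^ 3)
      + 5 / 2 * (ν * (4 ^ N * X N r ^ 2 + 4 ^ (N + 1) * X (N + 1) r ^ 2))) := by
    refine intervalIntegral.integral_mono_on ht c0 (((c1.add (c2.const_mul _)).add
      ((c3.add c4).const_mul _)).add (c5.const_mul _)) ?_
    intro r hr
    obtain ⟨w, hw, hw'⟩ := rhs_form β ν (fun k => X k r) N
    have hK1 : (2 : ℝ) ^ (β * (N + 1 : ℕ)) = (2 : ℝ) ^ β * (2 : ℝ) ^ (β * N) := by
      rw [← Real.rpow_add two_pos]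
      congr 1
      push_cast
      ring
    have hK2 : (2 : ℝ) ^ (β * (N + 2 : ℕ)) = (2 : ℝ) ^ (β * (N + 1 : ℕ)) * (2 : ℝ) ^ β := by
      rw [← Real.rpow_add two_pos]
      congr 1
      push_cast
      ring
    have h1 := cube_le (β := β) (ν := ν) (lam := lam) (a := X N r) (b := X (N + 1) r)
      (d := X (N + 2) r) (w := w) (F := 4 ^ N) S.ν0 hl (S.nn _ hr.1) (S.nn _ hr.1) hw
      (cp β N).le h2β hK1 (by positivity)
    have h2 : rhs β ν (fun k => X k r) (N + 1) = (2 : ℝ) ^ (β * N) * X N r ^ 2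
        - (2 : ℝ) ^ (β * (N + 1 : ℕ)) * (X (N + 1) r * X (N + 2) r)
        - ν * (4 * 4 ^ N) * X (N + 1) r := by
      simp only [rhs]
      push_cast
      ring
    have h3 : rhs β ν (fun k => X k r) N = w - (2 : ℝ) ^ (β * N) * (X N r * X (N + 1) r)
        - ν * 4 ^ N * X N r := hw'
    rw [h2, h3, hK2]
    refine h1.trans (le_of_eq ?_)
    ring
  rw [intervalIntegral.integral_add ((c1.add (c2.const_mul _)).add ((c3.add c4).const_mul _))
      (c5.const_mul _),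
    intervalIntegral.integral_add (c1.add (c2.const_mul _)) ((c3.add c4).const_mul _),
    intervalIntegral.integral_add c1 (c2.const_mul _), i1,
    intervalIntegral.integral_const_mul (lam * (1 + (2 : ℝ) ^ β)),
    intervalIntegral.integral_const_mul (1 / lam),
    intervalIntegral.integral_const_mul (5 / 2 : ℝ), intervalIntegral.integral_add c3 c4] at hmono
  have j1 := S.flux N ht
  have j2 := S.diss N ht
  have j3 := S.flux_nn N ht
  have j4 : lam * (1 + (2 : ℝ) ^ β) * (∫ r in (0 : ℝ)..t, (2 : ℝ) ^ (β * N)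
      * (X N r ^ 2 * X (N + 1) r)) ≤ lam * (1 + (2 : ℝ) ^ β) * E :=
    mul_le_mul_of_nonneg_left (by linarith) (by positivity)
  have hE := S.E0
  simp only [ac] at hmono ⊢
  linarith

end Sol

/-- the estimate with a small exponent, uniformly in the solutions -/
theorem ac_bound {β T E : ℝ} (hβ : 0 ≤ β) (hT : 0 ≤ T) (hE : 0 ≤ E) (j : ℕ) :
    ∃ D : ℝ, 0 ≤ D ∧ ∀ (ν : ℝ) (x : ℕ → ℝ) (X : ℕ → ℝ → ℝ), Sol β ν E x X → ∀ t ∈ Icc 0 T,
      ∀ N : ℕ, ac β X N t ≤ D * (2 : ℝ) ^ (β / 2 ^ j * N) := by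
  induction j with
  | zero =>
    refine ⟨T * (E * √E), by positivity, ?_⟩
    intro ν x X S t ht N
    have hc : ContinuousOn (fun r => (2 : ℝ) ^ (β * N) * X N r ^ 3) (uIcc 0 t) := by
      rw [uIcc_of_le ht.1]
      exact continuousOn_const.mul ((S.cont N t).pow 3)
    have h1 : ac β X N t ≤ ∫ r in (0 : ℝ)..t, (2 : ℝ) ^ (β * N) * (E * √E) := by
      refine intervalIntegral.integral_mono_on ht.1 hc.intervalIntegrable
        intervalIntegrable_const ?_
      intro r hr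
      apply mul_le_mul_of_nonneg_left _ (cp β N).le
      have h2 := S.sq_le N hr.1
      have h3 := S.nn N hr.1
      have h4 : X N r ≤ √E := Real.le_sqrt_of_sq_le h2
      calc X N r ^ 3 = X N r ^ 2 * X N r := by ring
        _ ≤ E * √E := mul_le_mul h2 h4 h3 hE
    rw [intervalIntegral.integral_const, smul_eq_mul, sub_zero] at h1
    rw [pow_zero, div_one]
    refine h1.trans ?_
    have h5 : 0 ≤ (2 : ℝ) ^ (β * N) * (E * √E) := mul_nonneg (cp β N).le (by positivity)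
    have h6 := mul_le_mul_of_nonneg_right ht.2 h5
    linarith
  | succ j ih =>
    obtain ⟨D, hD0, hD⟩ := ih
    refine ⟨(5 + (2 : ℝ) ^ β) * E + D * ((2 : ℝ) ^ β + (2 : ℝ) ^ (2 * β)), by positivity, ?_⟩
    intro ν x X S t ht N
    have hγ : 0 ≤ β / 2 ^ j := by positivity
    have hγβ : β / 2 ^ j ≤ β := by
      apply div_le_self hβ
      exact one_le_pow₀ one_le_two
    obtain ⟨lam, hlam⟩ : ∃ lam : ℝ, lam = (2 : ℝ) ^ (β / 2 ^ (j + 1) * N) := ⟨_, rfl⟩
    have hl0 : 0 < lam := by rw [hlam]; exact Real.rpow_pos_of_pos two_pos _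
    have hl1 : 1 ≤ lam := by
      rw [hlam]
      apply Real.one_le_rpow one_le_two
      positivity
    have h1 := S.step hβ N hl0 ht.1
    have h2 := hD ν x X S t ht (N + 1)
    have h3 := hD ν x X S t ht (N + 2)
    have e0 : (2 : ℝ) ^ (β / 2 ^ j * N) = lam * lam := by
      rw [hlam, ← Real.rpow_add two_pos]
      congr 1
      rw [pow_succ]
      field_simp
      ring
    have e1 : (2 : ℝ) ^ (β / 2 ^ j * (N + 1 : ℕ)) ≤ (2 : ℝ) ^ β * (lam * lam) := by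
      rw [← e0, ← Real.rpow_add two_pos]
      apply Real.rpow_le_rpow_of_exponent_le one_le_two
      push_cast
      linarith
    have e2 : (2 : ℝ) ^ (β / 2 ^ j * (N + 2 : ℕ)) ≤ (2 : ℝ) ^ (2 * β) * (lam * lam) := by
      rw [← e0, ← Real.rpow_add two_pos]
      apply Real.rpow_le_rpow_of_exponent_le one_le_two
      push_cast
      linarith
    have h4 : 1 / lam * (ac β X (N + 1) t + ac β X (N + 2) t)
        ≤ 1 / lam * (D * ((2 : ℝ) ^ β * (lam * lam)) + D * ((2 : ℝ) ^ (2 * β) * (lam * lam))) := by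
      apply mul_le_mul_of_nonneg_left _ (by positivity)
      exact add_le_add (h2.trans (mul_le_mul_of_nonneg_left e1 hD0))
        (h3.trans (mul_le_mul_of_nonneg_left e2 hD0))
    have h5 : 1 / lam * (D * ((2 : ℝ) ^ β * (lam * lam)) + D * ((2 : ℝ) ^ (2 * β) * (lam * lam)))
        = D * ((2 : ℝ) ^ β + (2 : ℝ) ^ (2 * β)) * lam := by
      field_simp
    have h6 : (4 + lam * (1 + (2 : ℝ) ^ β)) * E ≤ (5 + (2 : ℝ) ^ β) * E * lam := by
      have : 4 * E ≤ 4 * E * lam := le_mul_of_one_le_right (by positivity) hl1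
      nlinarith
    rw [← hlam]
    calc ac β X N t ≤ _ := h1
      _ ≤ (5 + (2 : ℝ) ^ β) * E * lam + D * ((2 : ℝ) ^ β + (2 : ℝ) ^ (2 * β)) * lam := by
        rw [h5] at h4
        linarith
      _ = _ := by ring

end Pool.Agent.Run7.h32.On
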