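import Mathlib

/-!
Polynomial inequalities for the invariant region of the inviscid dyadic model.
-/

set_option autoImplicit false

namespace Pool.Agent.Run7.h32.On

/-- The parameters of the region. -/
structure Par (μ b c τ k e : ℝ) : Prop where
  μ0 : 0 < μ
  μ1 : μ ≤ 1 / 1000
  hb : 317 / 100 ≤ b
  hc : c = 1 + μ
  hτ : τ = 1 + μ / 100
  hk : k * c = τ
  he : e = μ / 10000

namespace Par

variable {μ b c τ k e : ℝ} (P : Par μ b c τ k e)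
include P

lemma c0 : 0 < c := by rw [P.hc]; linarith [P.μ0]
lemma τ0 : 1 < τ := by rw [P.hτ]; linarith [P.μ0]
lemma e0 : 0 < e := by rw [P.he]; linarith [P.μ0]
lemma k0 : 0 < k := by
  have h := P.hk
  have hc := P.c0
  have hτ := P.τ0
  by_contra hn
  push Not at hn
  nlinarith

/-- `k ≤ 1 - (98 / 100) μ` -/
lemma k1 : k ≤ 1 - 98 / 100 * μ := by
  have h := P.hk
  have hc := P.hc
  have hτ := P.hτ
  have h0 := P.μ0
  have h1 := P.μ1
  subst hc hτ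
  by_contra hn
  push Not at hn
  nlinarith

lemma k2 : 1 - μ ≤ k := by
  have h := P.hk
  have hc := P.hc
  have hτ := P.hτ
  have h0 := P.μ0
  have h1 := P.μ1
  subst hc hτ
  by_contra hn
  push Not at hn
  nlinarith

/-- the edge of `x ≤ 1` -/
lemma edge3 {w y : ℝ} (hw : 0 ≤ w) (hw1 : w ≤ 1) (hy : k - e ≤ y) : w ^ 2 - c * (1 * y) < 0 := by
  have h1 : c * (k - e) ≤ c * y := mul_le_mul_of_nonneg_left hy P.c0.le
  have h2 : c * (k - e) = τ - c * e := by rw [← P.hk]; ring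
  have h3 : c * e < μ / 100 := by
    rw [P.hc, P.he]
    nlinarith [P.μ0, P.μ1]
  have h4 : τ = 1 + μ / 100 := P.hτ
  have h5 : w ^ 2 ≤ 1 := by nlinarith
  linarith

/-- the edge of `k x² - e ≤ y` -/
lemma edge1 {x y z w : ℝ} (hx0 : 0 ≤ x) (hx1 : x ≤ 1) (hy0 : 0 ≤ y)
    (hw : k * w ^ 2 ≤ x + e) (hz : z ≤ 1 / 3 + y - k / 3 * x ^ 2) (hF : y = k * x ^ 2 - e) :
    0 < b * (x ^ 2 - c * (y * z)) - 2 * k * x * (w ^ 2 - c * (x * y)) := by
  have hk0 := P.k0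
  have hk1 := P.k1
  have hk2 := P.k2
  have he0 := P.e0
  have hb := P.hb
  have hμ0 := P.μ0
  have hμ1 := P.μ1
  have hτ0 := P.τ0
  have hb0 : 0 < b := by linarith
  have hq : k * x ^ 2 = y + e := by linarith
  have hyk : y ≤ k := by
    have hx2 : x ^ 2 ≤ 1 := by nlinarith
    have := mul_le_mul_of_nonneg_left hx2 hk0.le
    linarith
  have A2 : z ≤ (1 + 2 * y - e) / 3 := by
    have : k / 3 * x ^ 2 = (y + e) / 3 := by rw [← hq]; ring
    linarith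
  have A3 : b * τ * y * z ≤ b * τ * y * ((1 + 2 * y - e) / 3) :=
    mul_le_mul_of_nonneg_left A2 (by positivity)
  have A4 : 2 * k * x * (k * w ^ 2) ≤ 2 * k * x * (x + e) :=
    mul_le_mul_of_nonneg_left hw (by positivity)
  have A4' : 2 * k * x * (x + e) = 2 * (y + e) + 2 * k * x * e := by
    rw [← hq]; ring
  have E : k * (b * (x ^ 2 - c * (y * z)) - 2 * k * x * (w ^ 2 - c * (x * y)))
      = b * (y + e) - b * τ * y * z - 2 * k * x * (k * w ^ 2) + 2 * τ * (y + e) * y := by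
    rw [← hq, ← P.hk]; ring
  -- the brackets
  have B1 : 0 ≤ b - b * τ * (1 + 2 * y) / 3 - 2 + 2 * τ * y := by
    have h1 : b - b * τ * (1 + 2 * k) / 3 - 2 + 2 * τ * k
        ≤ b - b * τ * (1 + 2 * y) / 3 - 2 + 2 * τ * y := by
      have : 0 ≤ τ * (b / 3 - 1) * (k - y) :=
        mul_nonneg (mul_nonneg (by linarith) (by linarith)) (by linarith)
      nlinarith
    refine le_trans ?_ h1
    have h2 : b * (1 - τ * (1 + 2 * k) / 3) - 2 * (1 - τ * k)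
        = b - b * τ * (1 + 2 * k) / 3 - 2 + 2 * τ * k := by ring
    rw [← h2]
    have h3 : τ * (1 + 2 * k) / 3 ≤ 1 - 64 / 100 * μ := by
      rw [P.hτ]
      nlinarith
    have h4 : 1 - τ * k ≤ 99 / 100 * μ + μ ^ 2 := by
      rw [P.hτ]
      nlinarith
    nlinarith
  have B2 : 0 < b - 2 - 2 * k * x + 2 * τ * y + b * τ * y / 3 := by
    have h1 : 2 * y ≤ 2 * τ * y := by nlinarith
    have h2 : 0 ≤ b * τ * y / 3 := by positivity
    have h3 : 2 * k * x ≤ 2 * (k * x ^ 2) + 1 / 2 := by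
      nlinarith [sq_nonneg (2 * x - 1), mul_nonneg hk0.le (sq_nonneg (2 * x - 1))]
    have h4 : e ≤ 1 / 10 := by rw [P.he]; linarith
    linarith
  have T1 : 0 < y * (b - b * τ * (1 + 2 * y) / 3 - 2 + 2 * τ * y)
      + e * (b - 2 - 2 * k * x + 2 * τ * y + b * τ * y / 3) := by
    have := mul_nonneg hy0 B1
    have := mul_pos he0 B2
    linarith
  have T2 : y * (b - b * τ * (1 + 2 * y) / 3 - 2 + 2 * τ * y)
      + e * (b - 2 - 2 * k * x + 2 * τ * y + b * τ * y / 3)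
      = b * (y + e) - b * τ * y * ((1 + 2 * y - e) / 3) - (2 * (y + e) + 2 * k * x * e)
        + 2 * τ * (y + e) * y := by ring
  have T3 : 0 < k * (b * (x ^ 2 - c * (y * z)) - 2 * k * x * (w ^ 2 - c * (x * y))) := by
    rw [E]
    linarith
  exact (mul_pos_iff_of_pos_left hk0).1 T3

end Par

/-! ### the second edge: one and two variable inequalities -/

lemma cube_ge {y ζ : ℝ} (hy0 : 0 ≤ y) (hζ0 : -1 ≤ ζ) :
    y ^ 2 + (1 - y) ^ 2 * (1 + 8 * y) / 27 + 3 * ((1 + 2 * y) / 3) ^ 2 * ζ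
      ≤ ((1 + 2 * y) / 3 + ζ) ^ 3 := by
  have h3 : 0 ≤ ζ ^ 2 * (3 * ((1 + 2 * y) / 3) + ζ) := mul_nonneg (sq_nonneg _) (by linarith)
  have h4 : ((1 + 2 * y) / 3 + ζ) ^ 3
      = y ^ 2 + (1 - y) ^ 2 * (1 + 8 * y) / 27 + 3 * ((1 + 2 * y) / 3) ^ 2 * ζ
        + ζ ^ 2 * (3 * ((1 + 2 * y) / 3) + ζ) := by ring
  linarith

lemma one_var {y : ℝ} (hy0 : 0 ≤ y) (hy1 : y ≤ 1) :
    0 ≤ (317 / 100) ^ 2 * ((1 - y) ^ 2 * (1 + 8 * y) / 27)
      + 2 / 3 * (317 / 100 - 1) * y * (1 - y) - 1 / 5 * (1 - y)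
      + y / 3 * ((317 / 100) ^ 2 / 3 * (1 + 2 * y) ^ 2 - 317 / 100 * (3 + y)
        + 2 * (1 - y) - 3 / 5) := by
  nlinarith [mul_nonneg hy0 (by linarith : 0 ≤ 1 - y), sq_nonneg (y - 1 / 2),
    mul_nonneg hy0 (sq_nonneg (y - 1 / 2)), mul_nonneg hy0 (sq_nonneg y),
    mul_nonneg (by linarith : 0 ≤ 1 - y) (sq_nonneg y),
    mul_nonneg (by linarith : 0 ≤ 1 - y) (sq_nonneg (1 - y))]

lemma one_var' {y : ℝ} (hy0 : 0 ≤ y) (hy1 : y ≤ 1) :
    0 ≤ (1 - y) * ((317 / 100) ^ 2 * ((1 - y) * (1 + 8 * y) / 27)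
            + 2 / 3 * (317 / 100 - 1) * y - 1 / 5) := by
  apply mul_nonneg (by linarith)
  nlinarith [mul_nonneg hy0 (by linarith : 0 ≤ 1 - y)]

lemma two_var {y ζ e B : ℝ} (hy0 : 0 ≤ y) (hy1 : y ≤ 1) (he : 0 < e)
    (hζ0 : -(e / 3) ≤ ζ) (hζ1 : ζ ≤ y / 3)
    (hB : B = (317 / 100) ^ 2 / 3 * (1 + 2 * y) ^ 2 - 317 / 100 * (3 + y)
        + 2 * (1 - y) - 3 / 5) :
    0 ≤ (317 / 100) ^ 2 * ((1 - y) ^ 2 * (1 + 8 * y) / 27)
            + 2 / 3 * (317 / 100 - 1) * y * (1 - y) - 1 / 5 * (1 - y) + ζ * B + 6 * e := by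
  rcases le_total 0 B with h6 | h6
  · have h5 : B ≤ 18 := by
      rw [hB]
      nlinarith
    have h7 : -(6 * e) ≤ ζ * B := by
      have h8 : -(e / 3) * B ≤ ζ * B := mul_le_mul_of_nonneg_right hζ0 h6
      have h9 : e / 3 * B ≤ e / 3 * 18 := mul_le_mul_of_nonneg_left h5 (by positivity)
      linarith
    have h8 := one_var' hy0 hy1
    have h9 : (1 - y) * ((317 / 100) ^ 2 * ((1 - y) * (1 + 8 * y) / 27)
            + 2 / 3 * (317 / 100 - 1) * y - 1 / 5)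
        = (317 / 100) ^ 2 * ((1 - y) ^ 2 * (1 + 8 * y) / 27)
            + 2 / 3 * (317 / 100 - 1) * y * (1 - y) - 1 / 5 * (1 - y) := by ring
    linarith
  · have h7 : y / 3 * B ≤ ζ * B := by
      have := mul_le_mul_of_nonpos_right hζ1 h6
      linarith
    have h8 := one_var hy0 hy1
    rw [← hB] at h8
    linarith

/-- the main inequality without perturbation -/
lemma two_var' {y ζ e q z : ℝ} (hy0 : 0 ≤ y) (hy1 : y ≤ 1) (he : 0 < e) (he1 : e ≤ 1)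
    (hζ0 : -(e / 3) ≤ ζ) (hζ1 : ζ ≤ y / 3) (hq : q = y - 3 * ζ) (hz : z = (1 + 2 * y) / 3 + ζ) :
    1 / 5 * (1 - q) - 6 * e ≤ (317 / 100) ^ 2 * (z ^ 3 - y ^ 2)
        + 317 / 100 * (q - y * z) - 2 / 3 * q * (1 - y) := by
  have h1 := two_var hy0 hy1 he hζ0 hζ1 rfl
  have h2 := cube_ge hy0 (by linarith : -1 ≤ ζ)
  have h3 := mul_le_mul_of_nonneg_left h2 (by norm_num : (0 : ℝ) ≤ (317 / 100) ^ 2)
  rw [hq, hz]
  linarith

/-- nonnegativity of the first group -/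
lemma g1_nonneg {μ τ k e y z r ζ : ℝ} (hμ0 : 0 < μ) (hμ1 : μ ≤ 1 / 1000) (hτ : τ = 1 + μ / 100)
    (hk0 : 1 / 2 ≤ k) (he : e = μ / 10000) (hy0 : 0 ≤ y) (hy1 : y ≤ 1)
    (hr : r = (1 + 2 * y) / 3) (hζ0 : -(e / 3) ≤ ζ) (hz : z = r + ζ) :
    0 ≤ k * (τ * z ^ 3 - y ^ 2) - e * τ * z := by
  have he0 : 0 < e := by rw [he]; positivity
  have he1 : e ≤ 1 / 1000 := by rw [he]; linarith
  have hr0 : 1 / 3 ≤ r := by rw [hr]; linarith
  have hr1 : r ≤ 1 := by rw [hr]; linarith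
  have h4 : 33 / 100 ≤ z := by rw [hz]; linarith
  have hz0 : 0 ≤ z := by linarith
  have h1 : -(e * r ^ 2) ≤ 3 * r ^ 2 * ζ := by
    have := mul_le_mul_of_nonneg_left hζ0 (by positivity : 0 ≤ 3 * r ^ 2)
    linarith
  have h2 : 0 ≤ (1 - y) ^ 2 * (1 + 8 * y) / 27 := by positivity
  have h3 : y ^ 2 - e * r ^ 2 ≤ z ^ 3 := by
    have := cube_ge hy0 (by linarith : -1 ≤ ζ)
    rw [← hr, ← hz] at this
    linarith
  have h5 : r ^ 2 ≤ 101 / 100 * z := by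
    have h6 : r ≤ 101 / 100 * z := by rw [hz]; linarith
    have h7 : r ^ 2 ≤ r := by
      rw [sq]
      exact mul_le_of_le_one_left (by linarith) hr1
    linarith
  have h6 : 1 / 10 * z ≤ z ^ 3 := by
    have h7 : (33 / 100) ^ 2 ≤ z ^ 2 := by gcongr
    have h8 : z ^ 3 = z * z ^ 2 := by ring
    rw [h8]
    have := mul_le_mul_of_nonneg_left h7 hz0
    linarith
  have h7 : τ * z ^ 3 = z ^ 3 + μ / 100 * z ^ 3 := by rw [hτ]; ring
  have h8 : μ / 100 * (1 / 10 * z) ≤ μ / 100 * z ^ 3 :=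
    mul_le_mul_of_nonneg_left h6 (by positivity)
  have h9 : e * r ^ 2 ≤ e * (101 / 100 * z) := mul_le_mul_of_nonneg_left h5 he0.le
  have h10 : τ ≤ 2 := by rw [hτ]; linarith
  have hez : 0 ≤ e * z := by positivity
  have h11 : e * τ * z ≤ 2 * (e * z) := by
    have := mul_le_mul_of_nonneg_right h10 hez
    linarith
  have h13 : 5 * (e * z) ≤ τ * z ^ 3 - y ^ 2 := by
    have : μ / 100 * (1 / 10 * z) = 10 * (e * z) := by rw [he]; ring
    linarith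
  have h14 : 1 / 2 * (5 * (e * z)) ≤ k * (τ * z ^ 3 - y ^ 2) :=
    mul_le_mul hk0 h13 (by positivity) (by linarith)
  linarith

/-- the inequality for the smallest `b` -/
lemma smallest {μ τ k e x y z q r ζ : ℝ} (hμ0 : 0 < μ) (hμ1 : μ ≤ 1 / 1000)
    (hτ : τ = 1 + μ / 100) (hk1 : k ≤ 1 - 98 / 100 * μ) (hk2 : 1 - μ ≤ k) (he : e = μ / 10000)
    (hx0 : 0 ≤ x) (hx1 : x ≤ 1)
    (hy0 : 0 ≤ y) (hy1 : y ≤ 1) (hq0 : 0 ≤ q) (hqk : q ≤ k) (hz0 : 0 ≤ z) (hz1 : z ≤ 1)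
    (hr : r = (1 + 2 * y) / 3) (hζ : ζ = (y - q) / 3) (hζ0 : -(e / 3) ≤ ζ) (hζ1 : ζ ≤ y / 3)
    (hz : z = r + ζ) :
    0 < (317 / 100) ^ 2 * (k * (τ * z ^ 3 - y ^ 2) - e * τ * z) + 317 / 100 * (q - τ * y * z)
      - (2 / 3 * q * (1 - τ * y) + 2 / 3 * k * x * e) := by
  have he0 : 0 < e := by rw [he]; positivity
  have he1 : e ≤ 1 / 1000 := by rw [he]; linarith
  have hτ0 : 1 ≤ τ := by rw [hτ]; linarith
  have hτ2 : τ ≤ 2 := by rw [hτ]; linarith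
  have hk0 : 0 ≤ k := by linarith
  have hkl : k ≤ 1 := by linarith
  have S0 := two_var' hy0 hy1 he0 (by linarith) hζ0 hζ1 (by rw [hζ]; ring : q = y - 3 * ζ)
    (by rw [hz, hr] : z = (1 + 2 * y) / 3 + ζ)
  have hzq : z = 1 / 3 + y - q / 3 := by rw [hz, hr, hζ]; ring
  have hz3q : z ^ 3 - y ^ 2 ≤ 2 / 3 * (1 - q) := by
    have h1 : z ^ 3 ≤ z ^ 2 := by
      have : z ^ 3 = z ^ 2 * z := by ring
      rw [this]
      exact mul_le_of_le_one_right (sq_nonneg z) hz1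
    have h2 : z - y = (1 - q) / 3 := by rw [hzq]; ring
    have h3 : z ^ 2 - y ^ 2 = (z + y) * ((1 - q) / 3) := by rw [← h2]; ring
    have h4 : (z + y) * ((1 - q) / 3) ≤ 2 * ((1 - q) / 3) :=
      mul_le_mul_of_nonneg_right (by linarith) (by linarith)
    linarith
  have h1 : k * (τ * z ^ 3 - y ^ 2) - e * τ * z
      = (z ^ 3 - y ^ 2) - (1 - k) * (z ^ 3 - y ^ 2) + k * (τ - 1) * z ^ 3 - e * τ * z := by ring
  have h2 : (1 - k) * (z ^ 3 - y ^ 2) ≤ 1 / 1000 * (2 / 3 * (1 - q)) := by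
    have h3 : (1 - k) * (z ^ 3 - y ^ 2) ≤ (1 - k) * (2 / 3 * (1 - q)) :=
      mul_le_mul_of_nonneg_left hz3q (by linarith)
    have h4 : (1 - k) * (2 / 3 * (1 - q)) ≤ 1 / 1000 * (2 / 3 * (1 - q)) :=
      mul_le_mul_of_nonneg_right (by linarith) (by linarith)
    linarith
  have h3 : 0 ≤ k * (τ - 1) * z ^ 3 := by
    have : 0 ≤ τ - 1 := by linarith
    positivity
  have h4 : e * τ * z ≤ 2 * e := by
    have h5 : τ * z ≤ 2 * 1 := mul_le_mul hτ2 hz1 hz0 (by norm_num)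
    have := mul_le_mul_of_nonneg_left h5 he0.le
    linarith
  have h5 : q - τ * y * z = (q - y * z) - μ / 100 * (y * z) := by rw [hτ]; ring
  have h6 : μ / 100 * (y * z) ≤ μ / 100 := by
    have h7 : y * z ≤ 1 := mul_le_one₀ hy1 hz0 hz1
    have := mul_le_mul_of_nonneg_left h7 (by positivity : 0 ≤ μ / 100)
    linarith
  have h8 : 2 / 3 * q * (1 - τ * y) ≤ 2 / 3 * q * (1 - y) := by
    apply mul_le_mul_of_nonneg_left _ (by positivity)
    have : y ≤ τ * y := le_mul_of_one_le_left hy0 hτ0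
    linarith
  have h9 : 2 / 3 * k * x * e ≤ e := by
    have h7 : k * x ≤ 1 := mul_le_one₀ hkl hx0 hx1
    have := mul_le_mul_of_nonneg_right h7 he0.le
    have h10 : 0 ≤ k * x * e := by positivity
    linarith
  have h10 : 98 / 100 * μ ≤ 1 - q := by linarith
  rw [h1, h5]
  linarith

lemma mono_b {b G1 G2 G3 : ℝ} (hb : 317 / 100 ≤ b) (hG1 : 0 ≤ G1) (hG3 : 0 ≤ G3)
    (h : 0 < (317 / 100) ^ 2 * G1 + 317 / 100 * G2 - G3) : 0 < b ^ 2 * G1 + b * G2 - G3 := by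
  have h1 : 0 < 317 / 100 * G1 + G2 := by linarith
  have h2 : 0 ≤ (b - 317 / 100) * (317 / 100 * G1 + G2) :=
    mul_nonneg (by linarith) h1.le
  have h3 : 0 ≤ b * (b - 317 / 100) * G1 :=
    mul_nonneg (mul_nonneg (by linarith) (by linarith)) hG1
  linarith

namespace Par

variable {μ b c τ k e : ℝ} (P : Par μ b c τ k e)
include P

/-- the edge of `z ≤ 1 / 3 + y - (k / 3) x²` -/
lemma edge2 {x y z w v : ℝ} (hx0 : 0 ≤ x) (hx1 : x ≤ 1) (hy0 : 0 ≤ y)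
    (hz0 : 0 ≤ z) (hz1 : z ≤ 1) (hy : k * x ^ 2 - e ≤ y)
    (hw : k * w ^ 2 ≤ x + e) (hv : k * z ^ 2 - e ≤ v) (hF : z = 1 / 3 + y - k / 3 * x ^ 2) :
    0 < b * (x ^ 2 - c * (y * z)) - 2 * k / 3 * x * (w ^ 2 - c * (x * y))
      - b ^ 2 * (y ^ 2 - c * (z * v)) := by
  have hk0 := P.k0
  have hk1 := P.k1
  have hk2 := P.k2
  have he0 := P.e0
  have hb := P.hb
  have hμ0 := P.μ0
  have hμ1 := P.μ1
  have hτ0 := P.τ0
  have hb0 : 0 < b := by linarith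
  obtain ⟨q, hq⟩ : ∃ q, q = k * x ^ 2 := ⟨_, rfl⟩
  have hx2 : x ^ 2 ≤ 1 := pow_le_one₀ hx0 hx1
  have hqk : q ≤ k := by
    have := mul_le_mul_of_nonneg_left hx2 hk0.le
    linarith
  have hq0 : 0 ≤ q := by rw [hq]; positivity
  have hzq : z = 1 / 3 + y - q / 3 := by rw [hF, hq]; ring
  have hyq : q ≤ y + e := by linarith
  have hy1 : y ≤ 1 - 32 / 100 * μ := by linarith
  have hτy : τ * y ≤ 1 := by
    have h1 : τ * y ≤ τ * (1 - 32 / 100 * μ) := mul_le_mul_of_nonneg_left hy1 (by linarith)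
    have h2 : τ * (1 - 32 / 100 * μ) ≤ 1 := by
      rw [P.hτ]
      have : 0 ≤ μ * μ := by positivity
      linarith
    linarith
  have hζ1 : (y - q) / 3 ≤ y / 3 := by linarith
  have hζ0 : -(e / 3) ≤ (y - q) / 3 := by linarith
  have hzr : z = (1 + 2 * y) / 3 + (y - q) / 3 := by rw [hzq]; ring
  have hG1 := g1_nonneg (k := k) hμ0 hμ1 P.hτ (by linarith) P.he hy0 (by linarith) rfl hζ0 hzr
  have hG3 : 0 ≤ 2 / 3 * q * (1 - τ * y) + 2 / 3 * k * x * e := by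
    have h1 : 0 ≤ 1 - τ * y := by linarith
    positivity
  have hsm := smallest (x := x) hμ0 hμ1 P.hτ hk1 hk2 P.he hx0 hx1 hy0 (by linarith) hq0 hqk hz0 hz1
    rfl rfl hζ0 hζ1 hzr
  have hfin := mono_b hb hG1 hG3 hsm
  have E : k * (b * (x ^ 2 - c * (y * z)) - 2 * k / 3 * x * (w ^ 2 - c * (x * y))
      - b ^ 2 * (y ^ 2 - c * (z * v)))
      = b * (q - τ * y * z) - 2 / 3 * k * x * (k * w ^ 2) + 2 / 3 * τ * q * y
        - k * b ^ 2 * y ^ 2 + b ^ 2 * τ * z * v := by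
    rw [hq, ← P.hk]; ring
  have h1 : 2 / 3 * k * x * (k * w ^ 2) ≤ 2 / 3 * k * x * (x + e) :=
    mul_le_mul_of_nonneg_left hw (by positivity)
  have h2 : b ^ 2 * τ * z * (k * z ^ 2 - e) ≤ b ^ 2 * τ * z * v :=
    mul_le_mul_of_nonneg_left hv (by positivity)
  have h3 : 2 / 3 * k * x * (x + e) = 2 / 3 * q + 2 / 3 * k * x * e := by rw [hq]; ring
  have T3 : 0 < k * (b * (x ^ 2 - c * (y * z)) - 2 * k / 3 * x * (w ^ 2 - c * (x * y))
      - b ^ 2 * (y ^ 2 - c * (z * v))) := by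
    rw [E]
    linarith
  exact (mul_pos_iff_of_pos_left hk0).1 T3

end Par

end Pool.Agent.Run7.h32.On
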