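import Pool.Agent.Run7.h32.On.Cl
import Pool.Agent.Run7.h32.On.Ineq
import Pool.Agent.Run7.h969.Dy.Region

/-!
The invariant region for the inviscid dyadic model.
-/

set_option autoImplicit false

open Set Filter Topology

namespace Pool.Agent.Run7.h32.On

open Run7.h969.Dy Pool.Agent.Run7.h32.Dy

/-- the rescaled shells -/
noncomputable def ZZ (s M : ℝ) (X : ℕ → ℝ → ℝ) (n : ℕ) (t : ℝ) : ℝ :=
  (2 : ℝ) ^ (s * n) * X n t / M

/-- the shell below -/
noncomputable def WW (s M : ℝ) (X : ℕ → ℝ → ℝ) (n : ℕ) (t : ℝ) : ℝ :=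
  match n with
  | 0 => 0
  | n + 1 => ZZ s M X n t

/-- the rates -/
noncomputable def LL (β s M : ℝ) (n : ℕ) : ℝ := M * (2 : ℝ) ^ ((β - s) * n + (2 * s - β))

lemma LL_pos {β s M : ℝ} (hM : 0 < M) (n : ℕ) : 0 < LL β s M n :=
  mul_pos hM (Real.rpow_pos_of_pos two_pos _)

lemma LL_succ {β s M b : ℝ} (hb : b = (2 : ℝ) ^ (β - s)) (n : ℕ) :
    LL β s M (n + 1) = b * LL β s M n := by
  rw [hb]
  simp only [LL]
  have : (2 : ℝ) ^ ((β - s) * ((n + 1 : ℕ) : ℝ) + (2 * s - β))
      = (2 : ℝ) ^ (β - s) * (2 : ℝ) ^ ((β - s) * n + (2 * s - β)) := by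
    rw [← Real.rpow_add two_pos]
    congr 1
    push_cast
    ring
  rw [this]
  ring

lemma rhs_ZZ {β s M c : ℝ} (hM : 0 < M) (hc : c = (2 : ℝ) ^ (β - 3 * s)) (X : ℕ → ℝ → ℝ) (n : ℕ)
    (t : ℝ) : (2 : ℝ) ^ (s * n) * rhs β 0 (fun k => X k t) n / M
      = LL β s M n * (WW s M X n t ^ 2 - c * (ZZ s M X n t * ZZ s M X (n + 1) t)) := by
  have hM' : M ≠ 0 := hM.ne'
  cases n with
  | zero =>
    simp only [rhs, WW, ZZ, LL, hc, Nat.cast_zero, mul_zero, Real.rpow_zero, one_mul, zero_mul,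
      sub_zero, zero_add, Nat.cast_one, mul_one]
    have h1 : (2 : ℝ) ^ (2 * s - β) * (2 : ℝ) ^ (β - 3 * s) * (2 : ℝ) ^ s = 1 := by
      rw [← Real.rpow_add two_pos, ← Real.rpow_add two_pos]
      rw [show 2 * s - β + (β - 3 * s) + s = 0 by ring, Real.rpow_zero]
    have h2 : M * (2 : ℝ) ^ (2 * s - β) * (0 ^ 2 - (2 : ℝ) ^ (β - 3 * s)
        * (X 0 t / M * ((2 : ℝ) ^ s * X 1 t / M)))
        = -((2 : ℝ) ^ (2 * s - β) * (2 : ℝ) ^ (β - 3 * s) * (2 : ℝ) ^ s) * (X 0 t * X 1 t) / M := by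
      field_simp
      ring
    rw [h2, h1]
    ring
  | succ n =>
    simp only [rhs, WW, ZZ, LL, hc]
    have h1 : (2 : ℝ) ^ ((β - s) * ((n + 1 : ℕ) : ℝ) + (2 * s - β)) * ((2 : ℝ) ^ (s * n)) ^ 2
        = (2 : ℝ) ^ (s * ((n + 1 : ℕ) : ℝ)) * (2 : ℝ) ^ (β * n) := by
      rw [← Real.rpow_natCast ((2 : ℝ) ^ (s * n)) 2, ← Real.rpow_mul two_pos.le,
        ← Real.rpow_add two_pos, ← Real.rpow_add two_pos]
      congr 1
      push_cast
      ring
    have h2 : (2 : ℝ) ^ ((β - s) * ((n + 1 : ℕ) : ℝ) + (2 * s - β)) * (2 : ℝ) ^ (β - 3 * s)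
        * ((2 : ℝ) ^ (s * ((n + 1 : ℕ) : ℝ)) * (2 : ℝ) ^ (s * ((n + 1 + 1 : ℕ) : ℝ)))
        = (2 : ℝ) ^ (s * ((n + 1 : ℕ) : ℝ)) * (2 : ℝ) ^ (β * (n + 1)) := by
      rw [← Real.rpow_add two_pos, ← Real.rpow_add two_pos, ← Real.rpow_add two_pos,
        ← Real.rpow_add two_pos]
      congr 1
      push_cast
      ring
    have h3 : M * (2 : ℝ) ^ ((β - s) * ((n + 1 : ℕ) : ℝ) + (2 * s - β))
          * (((2 : ℝ) ^ (s * n) * X n t / M) ^ 2 - (2 : ℝ) ^ (β - 3 * s)
            * ((2 : ℝ) ^ (s * ((n + 1 : ℕ) : ℝ)) * X (n + 1) t / M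
              * ((2 : ℝ) ^ (s * ((n + 1 + 1 : ℕ) : ℝ)) * X (n + 1 + 1) t / M)))
        = ((2 : ℝ) ^ ((β - s) * ((n + 1 : ℕ) : ℝ) + (2 * s - β)) * ((2 : ℝ) ^ (s * n)) ^ 2
            * X n t ^ 2
          - (2 : ℝ) ^ ((β - s) * ((n + 1 : ℕ) : ℝ) + (2 * s - β)) * (2 : ℝ) ^ (β - 3 * s)
            * ((2 : ℝ) ^ (s * ((n + 1 : ℕ) : ℝ)) * (2 : ℝ) ^ (s * ((n + 1 + 1 : ℕ) : ℝ)))
            * (X (n + 1) t * X (n + 1 + 1) t)) / M := by
      field_simp
    rw [h3, h1, h2]
    ring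

variable {β s M c T κ : ℝ} {N : ℕ} {x : ℕ → ℝ} {X : ℕ → ℝ → ℝ}

lemma zz_der (hM : 0 < M) (hc : c = (2 : ℝ) ^ (β - 3 * s)) (h : Cg β 0 T κ N x X) {n : ℕ}
    (hn : n ≤ N) {t : ℝ} (ht : t ∈ Icc 0 T) :
    HasDerivWithinAt (ZZ s M X n)
      (LL β s M n * (WW s M X n t ^ 2 - c * (ZZ s M X n t * ZZ s M X (n + 1) t))) (Icc 0 T) t := by
  have h1 := ((h.ode n hn t ht).const_mul ((2 : ℝ) ^ (s * n))).div_const M
  rw [rhs_ZZ hM hc] at h1
  exact h1

/-- the functions of the barrier -/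
noncomputable def GF (s M k e : ℝ) (N : ℕ) (X : ℕ → ℝ → ℝ) (i : Fin 3 × Fin (N + 1)) (t : ℝ) : ℝ :=
  match i.1 with
  | 0 => 1 - ZZ s M X i.2 t
  | 1 => if (i.2 : ℕ) < N then ZZ s M X (i.2 + 1) t - k * ZZ s M X i.2 t ^ 2 + e else 1
  | 2 => if (i.2 : ℕ) + 1 < N then
      1 / 3 + ZZ s M X (i.2 + 1) t - k / 3 * ZZ s M X i.2 t ^ 2 - ZZ s M X (i.2 + 2) t else 1

/-- The invariant region. -/
theorem region {μ b τ k e δ : ℝ} (P : Par μ b c τ k e) (hb : b = (2 : ℝ) ^ (β - s))
    (hc : c = (2 : ℝ) ^ (β - 3 * s)) (hM : 0 < M) (hδ0 : 0 < δ) (hδ1 : δ ≤ 1 / 10)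
    (hδ2 : δ ^ 2 < e) (hκ : κ = k / M * (2 : ℝ) ^ (s * ((N : ℝ) - 1)))
    (hx : ∀ n, 0 ≤ x n) (hxd : ∀ n : ℕ, (2 : ℝ) ^ (s * n) * x n ≤ M * δ)
    (h : Cg β 0 T κ N x X) : ∀ t ∈ Icc 0 T, ∀ n : ℕ, (2 : ℝ) ^ (s * n) * X n t ≤ M := by
  have hk0 := P.k0
  have hk1 := P.k1
  have hk2 := P.k2
  have he0 := P.e0
  have hμ0 := P.μ0
  have hμ1 := P.μ1
  have hkle : k ≤ 1 := by linarith
  have hκ0 : 0 ≤ κ := by
    rw [hκ]
    positivity
  have hnn : ∀ t ∈ Icc 0 T, ∀ n, 0 ≤ ZZ s M X n t := by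
    intro t ht n
    have := cg_nn hκ0 hx h t ht n
    simp only [ZZ]
    positivity
  have htop : ∀ t, ZZ s M X (N + 1) t = k * ZZ s M X N t ^ 2 := by
    intro t
    simp only [ZZ]
    rw [h.top t, hκ]
    have h1 : (2 : ℝ) ^ (s * ((N + 1 : ℕ) : ℝ)) * (2 : ℝ) ^ (s * ((N : ℝ) - 1))
        = ((2 : ℝ) ^ (s * N)) ^ 2 := by
      rw [← Real.rpow_natCast ((2 : ℝ) ^ (s * N)) 2, ← Real.rpow_mul two_pos.le,
        ← Real.rpow_add two_pos]
      congr 1
      push_cast
      ring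
    have h2 : (2 : ℝ) ^ (s * ((N + 1 : ℕ) : ℝ)) * (k / M * (2 : ℝ) ^ (s * ((N : ℝ) - 1))
        * X N t ^ 2) / M
        = k * (((2 : ℝ) ^ (s * ((N + 1 : ℕ) : ℝ)) * (2 : ℝ) ^ (s * ((N : ℝ) - 1))) * X N t ^ 2
          / M ^ 2) := by
      field_simp
    rw [h2, h1]
    field_simp
  have hinit : ∀ n ≤ N, ZZ s M X n 0 ≤ δ := by
    intro n hn
    simp only [ZZ]
    rw [h.init n hn, div_le_iff₀ hM]
    have := hxd n
    linarith
  rcases lt_or_ge T 0 with hT | hT
  · intro t ht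
    exact absurd (ht.1.trans ht.2) (not_le.2 hT)
  have h00 : (0 : ℝ) ∈ Icc 0 T := ⟨le_rfl, hT⟩
  -- consequences of the nonnegativity of the functions
  have key : ∀ t ∈ Icc 0 T, (∀ j, 0 ≤ GF s M k e N X j t) →
      (∀ n ≤ N, ZZ s M X n t ≤ 1) ∧
      (∀ n ≤ N, k * ZZ s M X n t ^ 2 - e ≤ ZZ s M X (n + 1) t) ∧
      (∀ n < N, ZZ s M X (n + 2) t
        ≤ 1 / 3 + ZZ s M X (n + 1) t - k / 3 * ZZ s M X n t ^ 2) ∧
      (∀ n ≤ N, 0 ≤ WW s M X n t ∧ WW s M X n t ≤ 1 ∧
        k * WW s M X n t ^ 2 ≤ ZZ s M X n t + e) := by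
    intro t ht hj
    have a1 : ∀ n ≤ N, ZZ s M X n t ≤ 1 := by
      intro n hn
      have := hj (0, ⟨n, Nat.lt_succ_of_le hn⟩)
      simp only [GF] at this
      linarith
    have a2 : ∀ n ≤ N, k * ZZ s M X n t ^ 2 - e ≤ ZZ s M X (n + 1) t := by
      intro n hn
      rcases hn.lt_or_eq with hn' | hn'
      · have := hj (1, ⟨n, Nat.lt_succ_of_le hn⟩)
        simp only [GF, hn', if_true] at this
        linarith
      · subst hn'
        rw [htop t]
        linarith
    have a3 : ∀ n < N, ZZ s M X (n + 2) t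
        ≤ 1 / 3 + ZZ s M X (n + 1) t - k / 3 * ZZ s M X n t ^ 2 := by
      intro n hn
      rcases (Nat.succ_le_of_lt hn).lt_or_eq with hn' | hn'
      · have := hj (2, ⟨n, hn.trans (Nat.lt_succ_self N)⟩)
        have hn'' : n + 1 < N := hn'
        simp only [GF, hn'', if_true] at this
        linarith
      · have b1 := a1 (n + 1) hn'.le
        have b2 := hnn t ht (n + 1)
        have b3 := a2 n hn.le
        have b4 : ZZ s M X (n + 2) t = k * ZZ s M X (n + 1) t ^ 2 := by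
          have := htop t
          rw [← hn'] at this
          exact this
        rw [b4]
        have b5 : ZZ s M X (n + 1) t ^ 2 ≤ ZZ s M X (n + 1) t := by
          rw [sq]
          exact mul_le_of_le_one_left b2 b1
        have b6 : k * ZZ s M X (n + 1) t ^ 2 ≤ k * ZZ s M X (n + 1) t :=
          mul_le_mul_of_nonneg_left b5 hk0.le
        have b7 : 0 ≤ (k - 2 / 3) * (1 - ZZ s M X (n + 1) t) :=
          mul_nonneg (by linarith) (by linarith)
        have b8 : e = μ / 10000 := P.he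
        linarith
    refine ⟨a1, a2, a3, ?_⟩
    intro n hn
    cases n with
    | zero =>
      have := hnn t ht 0
      refine ⟨le_rfl, zero_le_one, ?_⟩
      simp only [WW]
      linarith [sq_nonneg (0 : ℝ)]
    | succ n =>
      simp only [WW]
      refine ⟨hnn t ht n, a1 n (by omega), ?_⟩
      have := a2 n (by omega)
      linarith
  have hpos := barrier (T := T) (GF s M k e N X) ?_ ?_ ?_
  · intro t ht n
    obtain ⟨a1, -, -, -⟩ := key t ht fun j => (hpos j t ht).le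
    have hle : ZZ s M X n t ≤ 1 := by
      rcases le_or_gt n N with hn | hn
      · exact a1 n hn
      · rcases (Nat.succ_le_of_lt hn).eq_or_lt with rfl | hn'
        · have b1 := a1 N le_rfl
          have b2 := hnn t ht N
          change ZZ s M X (N + 1) t ≤ 1
          rw [htop t]
          exact mul_le_one₀ hkle (sq_nonneg _) (pow_le_one₀ b2 b1)
        · simp only [ZZ]
          rw [h.zero n hn' t]
          simp
    simp only [ZZ] at hle
    rwa [div_le_one hM] at hle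
  · -- continuity
    have hcZ : ∀ n, ContinuousOn (ZZ s M X n) (Icc 0 T) := fun n =>
      (continuousOn_const.mul (cg_cont h n)).div_const M
    rintro ⟨j, n⟩
    fin_cases j
    · exact continuousOn_const.sub (hcZ n)
    · by_cases hn : (n : ℕ) < N
      · have e1 : GF s M k e N X (1, n) = fun t => ZZ s M X (n + 1) t - k * ZZ s M X n t ^ 2 + e := by
          funext t
          simp only [GF, hn, if_true]
        change ContinuousOn (GF s M k e N X (1, n)) (Icc 0 T)
        rw [e1]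
        exact ((hcZ _).sub (continuousOn_const.mul ((hcZ _).pow 2))).add continuousOn_const
      · have e1 : GF s M k e N X (1, n) = fun t => 1 := by
          funext t
          simp only [GF, hn, if_false]
        change ContinuousOn (GF s M k e N X (1, n)) (Icc 0 T)
        rw [e1]
        exact continuousOn_const
    · by_cases hn : (n : ℕ) + 1 < N
      · have e1 : GF s M k e N X (2, n) = fun t => 1 / 3 + ZZ s M X (n + 1) t
            - k / 3 * ZZ s M X n t ^ 2 - ZZ s M X (n + 2) t := by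
          funext t
          simp only [GF, hn, if_true]
        change ContinuousOn (GF s M k e N X (2, n)) (Icc 0 T)
        rw [e1]
        exact ((continuousOn_const.add (hcZ _)).sub
          (continuousOn_const.mul ((hcZ _).pow 2))).sub (hcZ _)
      · have e1 : GF s M k e N X (2, n) = fun t => 1 := by
          funext t
          simp only [GF, hn, if_false]
        change ContinuousOn (GF s M k e N X (2, n)) (Icc 0 T)
        rw [e1]
        exact continuousOn_const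
  · -- the initial time
    rintro ⟨j, n⟩
    have hn0 : (n : ℕ) ≤ N := Nat.lt_succ_iff.1 n.2
    have hδs : k * ZZ s M X n 0 ^ 2 ≤ δ ^ 2 := by
      have b1 := hinit n hn0
      have b2 := hnn 0 h00 n
      have b3 : ZZ s M X n 0 ^ 2 ≤ δ ^ 2 := pow_le_pow_left₀ b2 b1 2
      have b4 : k * ZZ s M X n 0 ^ 2 ≤ 1 * δ ^ 2 := mul_le_mul hkle b3 (sq_nonneg _) zero_le_one
      linarith
    fin_cases j
    · change 0 < 1 - ZZ s M X n 0
      have := hinit n hn0
      linarith
    · by_cases hn : (n : ℕ) < N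
      · change 0 < GF s M k e N X (1, n) 0
        simp only [GF, hn, if_true]
        have := hnn 0 h00 (n + 1)
        linarith
      · change 0 < GF s M k e N X (1, n) 0
        simp only [GF, hn, if_false]
        exact one_pos
    · by_cases hn : (n : ℕ) + 1 < N
      · change 0 < GF s M k e N X (2, n) 0
        simp only [GF, hn, if_true]
        have b1 := hnn 0 h00 (n + 1)
        have b2 := hinit (n + 2) (by omega)
        have b3 : δ ^ 2 ≤ 1 / 100 := by
          have : δ ^ 2 ≤ (1 / 10) ^ 2 := pow_le_pow_left₀ hδ0.le hδ1 2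
          linarith
        linarith
      · change 0 < GF s M k e N X (2, n) 0
        simp only [GF, hn, if_false]
        exact one_pos
  · -- the edges
    rintro ⟨j, n⟩ t ht hj h0
    have htI : t ∈ Icc 0 T := ⟨ht.1.le, ht.2⟩
    obtain ⟨a1, a2, a3, a4⟩ := key t htI hj
    have hn0 : (n : ℕ) ≤ N := Nat.lt_succ_iff.1 n.2
    have hL := LL_pos (β := β) (s := s) hM n
    obtain ⟨w0, w1, w2⟩ := a4 n hn0
    fin_cases j
    · have h1 : ZZ s M X n t = 1 := by
        have : 1 - ZZ s M X n t = 0 := h0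
        linarith
      refine ⟨-(LL β s M n * (WW s M X n t ^ 2 - c * (ZZ s M X n t * ZZ s M X (n + 1) t))), ?_, ?_⟩
      · rw [h1]
        have h2 := a2 n hn0
        rw [h1] at h2
        have h3 := P.edge3 w0 w1 (by linarith : k - e ≤ ZZ s M X (n + 1) t)
        have := mul_neg_of_pos_of_neg hL h3
        linarith
      · exact (zz_der hM hc h hn0 htI).const_sub 1
    · have hn : (n : ℕ) < N := by
        by_contra hn
        have : GF s M k e N X (1, n) t = 0 := h0
        simp only [GF, hn, if_false] at this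
        exact one_ne_zero this
      have e1 : GF s M k e N X (1, n) = fun t => ZZ s M X (n + 1) t - k * ZZ s M X n t ^ 2 + e := by
        funext t
        simp only [GF, hn, if_true]
      have h1 : ZZ s M X (n + 1) t = k * ZZ s M X n t ^ 2 - e := by
        have : GF s M k e N X (1, n) t = 0 := h0
        rw [e1] at this
        linarith
      have h2 := P.edge1 (hnn t htI n) (a1 n hn0) (hnn t htI (n + 1)) w2 (a3 n hn) h1
      refine ⟨LL β s M n * (b * (ZZ s M X n t ^ 2 - c * (ZZ s M X (n + 1) t * ZZ s M X (n + 2) t))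
        - 2 * k * ZZ s M X n t * (WW s M X n t ^ 2 - c * (ZZ s M X n t * ZZ s M X (n + 1) t))),
        mul_pos hL h2, ?_⟩
      change HasDerivWithinAt (GF s M k e N X (1, n)) _ _ _
      rw [e1]
      have d1 := zz_der (n := n + 1) hM hc h (by omega) htI
      have d0 := zz_der (n := n) hM hc h hn0 htI
      refine ((d1.sub ((d0.fun_pow 2).const_mul k)).add_const e).congr_deriv ?_
      rw [LL_succ hb]
      simp only [WW]
      ring
    · have hn : (n : ℕ) + 1 < N := by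
        by_contra hn
        have : GF s M k e N X (2, n) t = 0 := h0
        simp only [GF, hn, if_false] at this
        exact one_ne_zero this
      have e1 : GF s M k e N X (2, n) = fun t => 1 / 3 + ZZ s M X (n + 1) t
          - k / 3 * ZZ s M X n t ^ 2 - ZZ s M X (n + 2) t := by
        funext t
        simp only [GF, hn, if_true]
      have h1 : ZZ s M X (n + 2) t = 1 / 3 + ZZ s M X (n + 1) t - k / 3 * ZZ s M X n t ^ 2 := by
        have : GF s M k e N X (2, n) t = 0 := h0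
        rw [e1] at this
        linarith
      have h2 := P.edge2 (hnn t htI n) (a1 n hn0) (hnn t htI (n + 1)) (hnn t htI (n + 2))
        (a1 (n + 2) (by omega)) (a2 n hn0) w2 (a2 (n + 2) (by omega)) h1
      refine ⟨LL β s M n * (b * (ZZ s M X n t ^ 2 - c * (ZZ s M X (n + 1) t * ZZ s M X (n + 2) t))
        - 2 * k / 3 * ZZ s M X n t * (WW s M X n t ^ 2 - c * (ZZ s M X n t * ZZ s M X (n + 1) t))
        - b ^ 2 * (ZZ s M X (n + 1) t ^ 2 - c * (ZZ s M X (n + 2) t * ZZ s M X (n + 2 + 1) t))),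
        mul_pos hL h2, ?_⟩
      change HasDerivWithinAt (GF s M k e N X (2, n)) _ _ _
      rw [e1]
      have d2 := zz_der (n := n + 2) hM hc h (by omega) htI
      have d1 := zz_der (n := n + 1) hM hc h (by omega) htI
      have d0 := zz_der (n := n) hM hc h hn0 htI
      refine (((d1.const_add (1 / 3)).sub ((d0.fun_pow 2).const_mul (k / 3))).sub d2).congr_deriv ?_
      rw [LL_succ hb (n + 1), LL_succ hb]
      simp only [WW]
      ring

end Pool.Agent.Run7.h32.On
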