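import Pool.Agent.Run7.h32.On.FinU
import Pool.Agent.Run7.h32.On.Reg

/-!
The inviscid dyadic model: the Onsager regularity (with a loss) of all the nonnegative solutions
at all positive times (an earlier version, not used by the final theorem).
-/

set_option autoImplicit false

open Set Filter Topology MeasureTheory

namespace Pool.Agent.Run7.h32.On

open Run7.h969.Dy Pool.Agent.Run7.h32.Dy

/-! ### the region -/

theorem exist_region {β s M b c μ τ k e δ : ℝ} {x : ℕ → ℝ} (P : Par μ b c τ k e)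
    (hb : b = (2 : ℝ) ^ (β - s)) (hc : c = (2 : ℝ) ^ (β - 3 * s)) (hM : 0 < M) (hδ0 : 0 < δ)
    (hδ1 : δ ≤ 1 / 10) (hδ2 : δ ^ 2 < e) (hx : ∀ n, 0 ≤ x n)
    (hxd : ∀ n : ℕ, (2 : ℝ) ^ (s * n) * x n ≤ M * δ) :
    ∃ X : ℕ → ℝ → ℝ, IsDy β 0 x X ∧ ∀ (n : ℕ) t, 0 ≤ t → (2 : ℝ) ^ (s * n) * X n t ≤ M := by
  have hk0 := P.k0
  have hκ : ∀ N : ℕ, 0 ≤ k / M * (2 : ℝ) ^ (s * ((N : ℝ) - 1)) := fun N => by positivity
  have hex : ∀ N : ℕ, ∃ Y : ℕ → ℝ → ℝ,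
      Cg β 0 ((N : ℝ) + 1) (k / M * (2 : ℝ) ^ (s * ((N : ℝ) - 1))) N x Y := fun N =>
    exist_c β N x le_rfl (by positivity) (hκ N)
  choose Y hY using hex
  have h2 : ∀ n : ℕ, (0 : ℝ) < 2 ^ (s * n) := fun n => cp s n
  obtain ⟨X, hX, hXb⟩ := limit (M := fun n : ℕ => M / (2 : ℝ) ^ (s * n)) le_rfl hY
    (fun N t ht n => cg_nn (hκ N) hx (hY N) t ht n) (fun N t ht n => by
      rw [le_div_iff₀ (h2 n), mul_comm]
      exact region P hb hc hM hδ0 hδ1 hδ2 rfl hx hxd (hY N) t ht n)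
  refine ⟨X, hX, fun n t ht => ?_⟩
  have := (hXb n t ht).2
  rw [le_div_iff₀ (h2 n)] at this
  linarith

/-- **Onsager regularity of the inviscid dyadic model.** -/
theorem onsager {β ε τ E : ℝ} (hβ : 5 / 2 ≤ β) (hε : 0 < ε) (hτ : 0 < τ) (hE : 0 ≤ E) :
    ∃ C : ℝ, ∀ (x : ℕ → ℝ) (X : ℕ → ℝ → ℝ), Sol β 0 E x X → ∀ t, τ ≤ t → ∀ n : ℕ,
      (2 : ℝ) ^ ((β / 3 - ε) * n) * X n t ≤ C := by
  obtain ⟨μ, hμ⟩ : ∃ μ, μ = min (1 / 1000) ((2 : ℝ) ^ (3 * ε) - 1) := ⟨_, rfl⟩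
  have h2ε : 1 < (2 : ℝ) ^ (3 * ε) := Real.one_lt_rpow one_lt_two (by positivity)
  have hμ0 : 0 < μ := by
    rw [hμ]
    exact lt_min (by norm_num) (by linarith)
  have hμ1 : μ ≤ 1 / 1000 := by rw [hμ]; exact min_le_left _ _
  have hμ2 : 1 + μ ≤ (2 : ℝ) ^ (3 * ε) := by
    have : μ ≤ (2 : ℝ) ^ (3 * ε) - 1 := by rw [hμ]; exact min_le_right _ _
    linarith
  obtain ⟨ε', hε'⟩ : ∃ ε', ε' = Real.logb 2 (1 + μ) / 3 := ⟨_, rfl⟩
  have hlog : (2 : ℝ) ^ (3 * ε') = 1 + μ := by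
    rw [hε', mul_div_cancel₀ _ (by norm_num : (3 : ℝ) ≠ 0)]
    exact Real.rpow_logb two_pos (by norm_num) (by linarith)
  have hε0 : 0 < ε' := by
    rw [hε']
    exact div_pos (Real.logb_pos one_lt_two (by linarith)) (by norm_num)
  have hε1 : ε' ≤ ε := by
    have h1 : (2 : ℝ) ^ (3 * ε') ≤ (2 : ℝ) ^ (3 * ε) := by rw [hlog]; exact hμ2
    rw [Real.rpow_le_rpow_left_iff one_lt_two] at h1
    linarith
  obtain ⟨s, hs⟩ : ∃ s, s = β / 3 - ε' := ⟨_, rfl⟩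
  have hβ0 : 0 ≤ β := by linarith
  have P : Par μ ((2 : ℝ) ^ (β - s)) ((2 : ℝ) ^ (β - 3 * s)) (1 + μ / 100)
      ((1 + μ / 100) / (1 + μ)) (μ / 10000) := by
    have hc : (2 : ℝ) ^ (β - 3 * s) = 1 + μ := by
      rw [← hlog, hs]
      congr 1
      ring
    refine ⟨hμ0, hμ1, ?_, hc, rfl, ?_, rfl⟩
    · have h1 : (2 : ℝ) ^ (5 / 3 : ℝ) ≤ (2 : ℝ) ^ (β - s) := by
        apply Real.rpow_le_rpow_of_exponent_le one_le_two
        rw [hs]
        linarith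
      refine le_trans ?_ h1
      have h2 : (317 / 100 : ℝ) ^ 3 ≤ ((2 : ℝ) ^ (5 / 3 : ℝ)) ^ 3 := by
        rw [← Real.rpow_natCast ((2 : ℝ) ^ (5 / 3 : ℝ)) 3, ← Real.rpow_mul two_pos.le]
        norm_num
      exact le_of_pow_le_pow_left₀ (by norm_num) (by positivity) h2
    · rw [hc]
      field_simp
  obtain ⟨j, hj⟩ := pow_unbounded_of_one_lt (β / (3 * ε' / 2)) (one_lt_two : (1 : ℝ) < 2)
  obtain ⟨γ, hγ⟩ : ∃ γ, γ = β / 2 ^ j := ⟨_, rfl⟩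
  have hγ0 : 0 < γ := by rw [hγ]; positivity
  have hγ1 : 2 * γ ≤ 3 * ε' := by
    have h1 : γ ≤ 3 * ε' / 2 := by
      rw [hγ, div_le_iff₀ (by positivity)]
      rw [div_lt_iff₀ (by positivity)] at hj
      linarith
    linarith
  obtain ⟨D, hD0, hD⟩ := ac_bound (T := τ) (E := E) hβ0 hτ.le hE j
  obtain ⟨C', hC'⟩ : ∃ C', C' = 2 * (D * (1 - (2 : ℝ) ^ (-γ))⁻¹) / τ + 1 := ⟨_, rfl⟩
  have hρ1 : (2 : ℝ) ^ (-γ) < 1 := Real.rpow_lt_one_of_one_lt_of_neg one_lt_two (by linarith)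
  have hC1 : 1 ≤ C' := by
    rw [hC']
    have h1 : 0 ≤ (1 - (2 : ℝ) ^ (-γ))⁻¹ := inv_nonneg.2 (by linarith)
    have : 0 ≤ 2 * (D * (1 - (2 : ℝ) ^ (-γ))⁻¹) / τ := by positivity
    linarith
  refine ⟨C' / (μ / 100), fun x X S t ht n => ?_⟩
  obtain ⟨t0, ht0, hgood⟩ := good S hγ0 hτ hD0 (fun N => by
    rw [hγ]
    exact hD 0 x X S τ ⟨hτ.le, le_rfl⟩ N)
  have ht00 : 0 < t0 := by linarith [ht0.1]
  rw [← hC'] at hgood
  -- the data at the good time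
  have hdat : ∀ n : ℕ, (2 : ℝ) ^ (s * n) * X n t0 ≤ C' / (μ / 100) * (μ / 100) := by
    intro n
    rw [div_mul_cancel₀ _ (by positivity)]
    have hn0 : (0 : ℝ) ≤ n := Nat.cast_nonneg n
    have h1 : ((2 : ℝ) ^ ((β - 2 * γ) / 3 * n) * X n t0) ^ 3 ≤ C' ^ 3 := by
      have e1 : ((2 : ℝ) ^ ((β - 2 * γ) / 3 * n) * X n t0) ^ 3
          = (2 : ℝ) ^ ((β - 2 * γ) * n) * X n t0 ^ 3 := by
        rw [mul_pow, ← Real.rpow_natCast ((2 : ℝ) ^ ((β - 2 * γ) / 3 * n)) 3,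
          ← Real.rpow_mul two_pos.le]
        congr 2
        push_cast
        ring
      rw [e1]
      refine (hgood n).trans ?_
      exact le_self_pow₀ hC1 (by norm_num)
    have h2 : (2 : ℝ) ^ ((β - 2 * γ) / 3 * n) * X n t0 ≤ C' :=
      le_of_pow_le_pow_left₀ (by norm_num) (by linarith) h1
    refine le_trans ?_ h2
    apply mul_le_mul_of_nonneg_right _ (S.nn n ht00.le)
    apply Real.rpow_le_rpow_of_exponent_le one_le_two
    apply mul_le_mul_of_nonneg_right _ hn0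
    rw [hs]
    linarith
  have hM : 0 < C' / (μ / 100) := by positivity
  obtain ⟨Y, hY, hYb⟩ := exist_region P rfl rfl hM (by positivity : 0 < μ / 100) (by linarith)
    (by nlinarith : (μ / 100) ^ 2 < μ / 10000) (fun n => S.nn n ht00.le) hdat
  have SY : Sol β 0 E (fun n => X n t0) Y :=
    ⟨le_rfl, fun n => S.nn n ht00.le, fun N => S.sum_le N ht00.le, hY⟩
  have SX : Sol β 0 E (fun n => X n t0) (fun n t => X n (t0 + t)) :=
    ⟨le_rfl, fun n => S.nn n ht00.le, fun N => S.sum_le N ht00.le, shift S.dy ht00⟩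
  have h1 := unique' hβ0 SY SX n (t - t0) (by linarith [ht0.2])
  rw [add_sub_cancel] at h1
  have h2 := hYb n (t - t0) (by linarith [ht0.2])
  rw [← h1] at h2
  refine le_trans ?_ h2
  apply mul_le_mul_of_nonneg_right _ (S.nn n (by linarith))
  apply Real.rpow_le_rpow_of_exponent_le one_le_two
  apply mul_le_mul_of_nonneg_right _ (Nat.cast_nonneg n)
  rw [hs]
  linarith

end Pool.Agent.Run7.h32.On
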