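import Pool.Agent.Run7.h32.On.Reg3

/-!
The invariant region with weights which depend on the shell and on the time.
-/

set_option autoImplicit false

open Set Filter Topology

namespace Pool.Agent.Run7.h32.On

open Run7.h969.Dy Pool.Agent.Run7.h32.Dy

variable {β ν q M p T : ℝ} {κ : ℝ → ℝ} {N : ℕ} {x : ℕ → ℝ} {X : ℕ → ℝ → ℝ}

lemma LA_mm (hq : 0 < q) (hM : 0 < M) (hp : 0 < p) (n : ℕ) {t : ℝ} (ht : 0 ≤ t) :
    LA q M p n t * mm q M p ν n t = ν * 4 ^ n := by
  have := (LA_pos hq hM hp n ht).ne'
  simp only [mm]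
  field_simp

lemma mm_succ (hq : 0 < q) (hM : 0 < M) (hp : 0 < p) (n : ℕ) {t : ℝ} (ht : 0 ≤ t) :
    bb q p n t * mm q M p ν (n + 1) t = 4 * mm q M p ν n t := by
  have h0 := LA_pos hq hM hp n ht
  have h1 := LA_mm (ν := ν) hq hM hp (n + 1) ht
  have h2 := LA_mm (ν := ν) hq hM hp n ht
  rw [LA_succ hq hp n ht] at h1
  have h3 : LA q M p n t * (bb q p n t * mm q M p ν (n + 1) t)
      = LA q M p n t * (4 * mm q M p ν n t) := by
    have : LA q M p n t * (bb q p n t * mm q M p ν (n + 1) t)
        = bb q p n t * LA q M p n t * mm q M p ν (n + 1) t := by ring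
    rw [this, h1, pow_succ]
    linear_combination (-4) * h2
  exact mul_left_cancel₀ h0.ne' h3

/-- The invariant region. -/
theorem region_t {kap lam δ : ℝ} {Q : ℝ → ℝ → Prop} (hE1 : Edge1 kap lam Q)
    (hE2 : Edge2 kap lam Q) (hkap0 : 1 / 4 ≤ kap) (hkap1 : kap ≤ 1 / 2) (hl0 : 0 ≤ lam)
    (hl1 : lam ≤ 99 / 100) (hβ : (2 : ℝ) ^ β = q ^ 3) (hq : 0 < q) (hq2 : 317 / 100 ≤ q ^ 2)
    (hM : 0 < M) (hp : 0 < p) (hp1 : p ≤ 1 / 10000) (hν : 0 ≤ ν)
    (hQ : ∀ (n : ℕ) (t : ℝ), 0 ≤ t → Q (bb q p n t) (mm q M p ν n t))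
    (hL : ∀ (n : ℕ) (t : ℝ), 0 ≤ t → 20000 * ((3 * n + 10) * RR ^ (n + 2)) < LA q M p n t)
    (hδ0 : 0 < δ) (hδ1 : δ ≤ 1 / 10) (hδ2 : δ ^ 2 < p / 1000)
    (hκ : ∀ t, κ t = (1 - 295 / 100 * DD p N t) * AA q M p (N + 1) t / AA q M p N t ^ 2)
    (hκ0 : ∀ t ∈ Icc 0 T, 0 ≤ κ t) (hκc : ContinuousOn κ (Icc 0 T))
    (hx : ∀ n, 0 ≤ x n) (hxd : ∀ n : ℕ, x n ≤ AA q M p n 0 * δ)
    (h : Ct β ν T κ N x X) : ∀ t ∈ Icc 0 T, ∀ n : ℕ, X n t ≤ AA q M p n t := by
  have hnn : ∀ t ∈ Icc 0 T, ∀ n, 0 ≤ ZT q M p X n t := by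
    intro t ht n
    have h1 := ct_nn hκ0 hκc hx h t ht n
    have h2 := AA_pos hq hM hp n ht.1
    simp only [ZT]
    positivity
  have htop : ∀ t ∈ Icc 0 T, ZT q M p X (N + 1) t
      = (1 - 295 / 100 * DD p N t) * ZT q M p X N t ^ 2 := by
    intro t ht
    have h1 := (AA_pos hq hM hp N ht.1).ne'
    have h2 := (AA_pos hq hM hp (N + 1) ht.1).ne'
    simp only [ZT]
    rw [h.top t, hκ]
    field_simp
  have hinit : ∀ n ≤ N, ZT q M p X n 0 ≤ δ := by
    intro n hn
    have h2 := AA_pos hq hM hp n (le_refl (0 : ℝ))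
    simp only [ZT]
    rw [h.init n hn, div_le_iff₀ h2]
    have := hxd n
    linarith
  rcases lt_or_ge T 0 with hT | hT
  · intro t ht
    exact absurd (ht.1.trans ht.2) (not_le.2 hT)
  have h00 : (0 : ℝ) ∈ Icc 0 T := ⟨le_rfl, hT⟩
  -- consequences of the nonnegativity of the functions
  have key : ∀ t ∈ Icc 0 T, (∀ j, 0 ≤ GT q M p ν kap lam N X j t) →
      (∀ n ≤ N, ZT q M p X n t ≤ 1) ∧
      (∀ n ≤ N, (1 - 295 / 100 * DD p n t) * ZT q M p X n t ^ 2 - DD p n t / 1000
        - lam * mm q M p ν n t ≤ ZT q M p X (n + 1) t) ∧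
      (∀ n < N, ZT q M p X (n + 2) t
        ≤ kap + ZT q M p X (n + 1) t - kap * (1 - 295 / 100 * DD p n t) * ZT q M p X n t ^ 2
          + kap * lam * mm q M p ν n t) ∧
      (∀ n ≤ N, 0 ≤ WT q M p X n t ∧ WT q M p X n t ≤ 1 ∧
        (1 - 295 / 100 * pD p n t) * WT q M p X n t ^ 2
          ≤ ZT q M p X n t + pD p n t / 1000 + lam * (pB q p n t / 4 * mm q M p ν n t)) := by
    intro t ht hj
    have ht0 := ht.1
    have a1 : ∀ n ≤ N, ZT q M p X n t ≤ 1 := by
      intro n hn
      have := hj (0, ⟨n, Nat.lt_succ_of_le hn⟩)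
      simp only [GT] at this
      linarith
    have a2 : ∀ n ≤ N, (1 - 295 / 100 * DD p n t) * ZT q M p X n t ^ 2 - DD p n t / 1000
        - lam * mm q M p ν n t ≤ ZT q M p X (n + 1) t := by
      intro n hn
      rcases hn.lt_or_eq with hn' | hn'
      · have := hj (1, ⟨n, Nat.lt_succ_of_le hn⟩)
        simp only [GT, hn', if_true] at this
        linarith
      · subst hn'
        rw [htop t ht]
        have h1 := DD_pos hp n ht0
        have h2 := mm_nn hν hq hM hp n ht0
        have h3 : 0 ≤ lam * mm q M p ν n t := by positivity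
        linarith
    have a3 : ∀ n < N, ZT q M p X (n + 2) t
        ≤ kap + ZT q M p X (n + 1) t - kap * (1 - 295 / 100 * DD p n t) * ZT q M p X n t ^ 2
          + kap * lam * mm q M p ν n t := by
      intro n hn
      rcases (Nat.succ_le_of_lt hn).lt_or_eq with hn' | hn'
      · have := hj (2, ⟨n, hn.trans (Nat.lt_succ_self N)⟩)
        have hn'' : n + 1 < N := hn'
        simp only [GT, hn'', if_true] at this
        linarith
      · have b1 := a1 (n + 1) hn'.le
        have b2 := hnn t ht (n + 1)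
        have b3 := a2 n hn.le
        have b4 : ZT q M p X (n + 2) t
            = (1 - 295 / 100 * DD p (n + 1) t) * ZT q M p X (n + 1) t ^ 2 := by
          have := htop t ht
          rw [← hn'] at this
          exact this
        rw [b4]
        have hD0 := DD_pos hp n ht0
        have hD1 := DD_pos hp (n + 1) ht0
        have hD2 := DD_le_succ hp n ht0
        have hD3 := (DD_le hp (n + 1) ht0).trans hp1
        simp only [RR] at hD2
        obtain ⟨Y, hY⟩ : ∃ Y, Y = ZT q M p X (n + 1) t := ⟨_, rfl⟩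
        obtain ⟨E1, hE1'⟩ : ∃ E1, E1 = DD p (n + 1) t := ⟨_, rfl⟩
        obtain ⟨E0, hE0'⟩ : ∃ E0, E0 = DD p n t := ⟨_, rfl⟩
        rw [← hY] at b1 b2 b3 ⊢
        rw [← hE1'] at hD1 hD2 hD3 ⊢
        rw [← hE0'] at hD0 hD2 b3 ⊢
        have b5 : Y ^ 2 ≤ Y := by
          rw [sq]
          exact mul_le_of_le_one_left b2 b1
        have b6 : (1 - 295 / 100 * E1) * Y ^ 2 ≤ (1 - 295 / 100 * E1) * Y :=
          mul_le_mul_of_nonneg_left b5 (by linarith)
        have b7 : kap * ((1 - 295 / 100 * E0) * ZT q M p X n t ^ 2 - E0 / 1000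
            - lam * mm q M p ν n t) ≤ kap * Y := mul_le_mul_of_nonneg_left b3 (by linarith)
        have b8 : 0 ≤ kap * (1 - Y) := mul_nonneg (by linarith) (by linarith)
        have b9 : kap * (E0 / 1000) ≤ 1 / 2 * (E0 / 1000) :=
          mul_le_mul_of_nonneg_right hkap1 (by positivity)
        have b10 : E1 * Y ≤ E1 := mul_le_of_le_one_right hD1.le b1
        have b11 : 0 ≤ E1 * Y := by positivity
        have b12 : kap * (1 - Y) = kap - kap * Y := by ring
        -- the sum is linear in `Y`
        have b13 : 1 / 2 * (E0 / 1000) ≤ kap * (1 - Y) + 295 / 100 * E1 * Y := by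
          have c1 : 1 / 4 * (1 - Y) ≤ kap * (1 - Y) :=
            mul_le_mul_of_nonneg_right hkap0 (by linarith)
          have c2 : 0 ≤ (1 / 4 - 295 / 100 * E1) * (1 - Y) :=
            mul_nonneg (by linarith) (by linarith)
          linarith
        linarith
    refine ⟨a1, a2, a3, ?_⟩
    intro n hn
    cases n with
    | zero =>
      have h1 := hnn t ht 0
      have h2 := DD_pos hp 0 ht0
      have h3 := mm_nn hν hq hM hp 0 ht0
      have h4 := bb_ge hq hp 0 ht0
      have h5 : 0 ≤ bb q p 0 t := by linarith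
      refine ⟨le_rfl, zero_le_one, ?_⟩
      simp only [WT, pD, pB]
      have : 0 ≤ lam * (bb q p 0 t / 4 * mm q M p ν 0 t) := by positivity
      have h6 : (0 : ℝ) ^ 2 = 0 := by norm_num
      rw [h6]
      linarith
    | succ n =>
      simp only [WT, pD, pB]
      refine ⟨hnn t ht n, a1 n (by omega), ?_⟩
      have h1 := a2 n (by omega)
      have h2 := mm_succ (ν := ν) hq hM hp n ht0
      have h3 : bb q p n t / 4 * mm q M p ν (n + 1) t = mm q M p ν n t := by linarith
      rw [h3]
      linarith
  have hpos := barrier (T := T) (GT q M p ν kap lam N X) ?_ ?_ ?_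
  · intro t ht n
    obtain ⟨a1, -, -, -⟩ := key t ht fun j => (hpos j t ht).le
    have hle : ZT q M p X n t ≤ 1 := by
      rcases le_or_gt n N with hn | hn
      · exact a1 n hn
      · rcases (Nat.succ_le_of_lt hn).eq_or_lt with rfl | hn'
        · have b1 := a1 N le_rfl
          have b2 := hnn t ht N
          have b3 := DD_pos hp N ht.1
          change ZT q M p X (N + 1) t ≤ 1
          rw [htop t ht]
          exact (mul_le_mul_of_nonneg_right (by linarith : 1 - 295 / 100 * DD p N t ≤ 1)
            (sq_nonneg _)).trans (by rw [one_mul]; exact pow_le_one₀ b2 b1)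
        · simp only [ZT]
          rw [h.zero n hn' t]
          simp
    simp only [ZT] at hle
    rwa [div_le_one (AA_pos hq hM hp n ht.1)] at hle
  · -- continuity
    have hcZ : ∀ n, ContinuousOn (ZT q M p X n) (Icc 0 T) := fun n => by
      refine (ct_cont hκc h n).div ?_ fun t ht => (AA_pos hq hM hp n ht.1).ne'
      exact fun t ht => (AA_der hp n ht.1).continuousAt.continuousWithinAt
    have hcD : ∀ n, ContinuousOn (DD p n) (Icc 0 T) := fun n t ht =>
      (DD_der p n ht.1).continuousAt.continuousWithinAt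
    have hcm : ∀ n, ContinuousOn (mm q M p ν n) (Icc 0 T) := fun n t ht =>
      (mm_der hq hM hp n ht.1).continuousAt.continuousWithinAt
    rintro ⟨j, n⟩
    fin_cases j
    · exact continuousOn_const.sub (hcZ n)
    · by_cases hn : (n : ℕ) < N
      · have e1 : GT q M p ν kap lam N X (1, n) = fun t => ZT q M p X (n + 1) t
            - (1 - 295 / 100 * DD p n t) * ZT q M p X n t ^ 2 + DD p n t / 1000
            + lam * mm q M p ν n t := by
          funext t
          simp only [GT, hn, if_true]
        change ContinuousOn (GT q M p ν kap lam N X (1, n)) (Icc 0 T)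
        rw [e1]
        exact (((hcZ _).sub ((continuousOn_const.sub (continuousOn_const.mul (hcD _))).mul
          ((hcZ _).pow 2))).add ((hcD _).div_const _)).add (continuousOn_const.mul (hcm _))
      · have e1 : GT q M p ν kap lam N X (1, n) = fun t => 1 := by
          funext t
          simp only [GT, hn, if_false]
        change ContinuousOn (GT q M p ν kap lam N X (1, n)) (Icc 0 T)
        rw [e1]
        exact continuousOn_const
    · by_cases hn : (n : ℕ) + 1 < N
      · have e1 : GT q M p ν kap lam N X (2, n) = fun t => kap + ZT q M p X (n + 1) t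
            - kap * (1 - 295 / 100 * DD p n t) * ZT q M p X n t ^ 2
            + kap * lam * mm q M p ν n t - ZT q M p X (n + 2) t := by
          funext t
          simp only [GT, hn, if_true]
        change ContinuousOn (GT q M p ν kap lam N X (2, n)) (Icc 0 T)
        rw [e1]
        exact (((continuousOn_const.add (hcZ _)).sub
          ((continuousOn_const.mul (continuousOn_const.sub (continuousOn_const.mul (hcD _)))).mul
          ((hcZ _).pow 2))).add (continuousOn_const.mul (hcm _))).sub (hcZ _)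
      · have e1 : GT q M p ν kap lam N X (2, n) = fun t => 1 := by
          funext t
          simp only [GT, hn, if_false]
        change ContinuousOn (GT q M p ν kap lam N X (2, n)) (Icc 0 T)
        rw [e1]
        exact continuousOn_const
  · -- the initial time
    rintro ⟨j, n⟩
    have hn0 : (n : ℕ) ≤ N := Nat.lt_succ_iff.1 n.2
    have hDn : DD p n 0 = p := by simp [DD]
    have hmn := mm_nn hν hq hM hp n (le_refl (0 : ℝ))
    have hδs : (1 - 295 / 100 * p) * ZT q M p X n 0 ^ 2 ≤ δ ^ 2 := by
      have b1 := hinit n hn0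
      have b2 := hnn 0 h00 n
      have b3 : ZT q M p X n 0 ^ 2 ≤ δ ^ 2 := pow_le_pow_left₀ b2 b1 2
      have b4 : (1 - 295 / 100 * p) * ZT q M p X n 0 ^ 2 ≤ 1 * δ ^ 2 :=
        mul_le_mul (by linarith) b3 (sq_nonneg _) zero_le_one
      linarith
    fin_cases j
    · change 0 < 1 - ZT q M p X n 0
      have := hinit n hn0
      linarith
    · by_cases hn : (n : ℕ) < N
      · change 0 < GT q M p ν kap lam N X (1, n) 0
        simp only [GT, hn, if_true, hDn]
        have h1 := hnn 0 h00 (n + 1)
        have h2 : 0 ≤ lam * mm q M p ν n 0 := by positivity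
        linarith
      · change 0 < GT q M p ν kap lam N X (1, n) 0
        simp only [GT, hn, if_false]
        exact one_pos
    · by_cases hn : (n : ℕ) + 1 < N
      · change 0 < GT q M p ν kap lam N X (2, n) 0
        simp only [GT, hn, if_true, hDn]
        have b1 := hnn 0 h00 (n + 1)
        have b2 := hinit (n + 2) (by omega)
        have b3 : δ ^ 2 ≤ 1 / 100 := by
          have : δ ^ 2 ≤ (1 / 10) ^ 2 := pow_le_pow_left₀ hδ0.le hδ1 2
          linarith
        have b4 : 0 ≤ kap * lam * mm q M p ν n 0 := by positivity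
        have b5 : kap * (1 - 295 / 100 * p) * ZT q M p X n 0 ^ 2 ≤ 1 / 2 * δ ^ 2 := by
          rw [mul_assoc]
          have c1 : 0 ≤ (1 - 295 / 100 * p) * ZT q M p X n 0 ^ 2 :=
            mul_nonneg (by linarith) (sq_nonneg _)
          exact mul_le_mul hkap1 hδs c1 (by norm_num)
        linarith
      · change 0 < GT q M p ν kap lam N X (2, n) 0
        simp only [GT, hn, if_false]
        exact one_pos
  · -- the edges
    rintro ⟨j, n⟩ t ht hj h0
    have htI : t ∈ Icc 0 T := ⟨ht.1.le, ht.2⟩
    have ht0 : 0 ≤ t := ht.1.le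
    obtain ⟨a1, a2, a3, a4⟩ := key t htI hj
    have hn0 : (n : ℕ) ≤ N := Nat.lt_succ_iff.1 n.2
    have hLp := LA_pos hq hM hp n ht0
    have hLn := hL n t ht0
    obtain ⟨w0, w1, w2⟩ := a4 n hn0
    have P := loc_n hq hq2 hp hp1 n ht0
    have hD0 := DD_pos hp n ht0
    have hD1 := (DD_le hp n ht0).trans hp1
    have hG0 := GG_nn hp n ht0
    have hG := GG_le hp n ht0
    have hG1 := GG_nn hp (n + 1) ht0
    have hr0 := rr_nn n ht0
    have hr := rr_le n ht0
    have hRn : 1 ≤ RR ^ (n : ℕ) := one_le_pow₀ RR_one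
    have hR2 : RR ^ (n : ℕ) ≤ RR ^ ((n : ℕ) + 2) := pow_le_pow_right₀ RR_one (by omega)
    have hmn := mm_nn hν hq hM hp n ht0
    have hnc : (0 : ℝ) ≤ ((n : ℕ) : ℝ) := Nat.cast_nonneg _
    have hBp : 0 < pB q p n t := by
      have hb0 := bb_ge hq hp 0 ht0
      rcases Nat.eq_zero_or_pos (n : ℕ) with h1 | h1
      · rw [h1]
        simp only [pB]
        linarith
      · obtain ⟨k, hk⟩ := Nat.exists_eq_add_of_lt h1
        rw [hk]
        simp only [zero_add, pB]
        have := bb_ge hq hp k ht0
        linarith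
    have hk0 : 0 ≤ 1 - 295 / 100 * DD p n t := by linarith
    have hk1 : 1 - 295 / 100 * DD p n t ≤ 1 := by linarith
    fin_cases j
    · have h1 : ZT q M p X n t = 1 := by
        have : 1 - ZT q M p X n t = 0 := h0
        linarith
      refine ⟨-(LA q M p n t * (WT q M p X n t ^ 2
        - cc p n t * (ZT q M p X n t * ZT q M p X (n + 1) t)
        - mm q M p ν n t * ZT q M p X n t) + GG p n t * ZT q M p X n t), ?_, ?_⟩
      · rw [h1]
        have h2 := a2 n hn0
        rw [h1] at h2
        have h3 := P.edge3 hmn hl1 w0 w1 (by linarith : (1 - 295 / 100 * DD p n t)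
          - DD p n t / 1000 - lam * mm q M p ν n t ≤ ZT q M p X (n + 1) t)
        have h4 := err0 hnc hD0 h3 hRn hR2 hLn hG
        linarith
      · exact (zt_der hβ hq hM hp h hn0 htI).const_sub 1
    · have hn : (n : ℕ) < N := by
        by_contra hn
        have : GT q M p ν kap lam N X (1, n) t = 0 := h0
        simp only [GT, hn, if_false] at this
        exact one_ne_zero this
      have e1 : GT q M p ν kap lam N X (1, n) = fun t => ZT q M p X (n + 1) t
          - (1 - 295 / 100 * DD p n t) * ZT q M p X n t ^ 2 + DD p n t / 1000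
          + lam * mm q M p ν n t := by
        funext t
        simp only [GT, hn, if_true]
      have h1 : ZT q M p X (n + 1) t = (1 - 295 / 100 * DD p n t) * ZT q M p X n t ^ 2
          - DD p n t / 1000 - lam * mm q M p ν n t := by
        have : GT q M p ν kap lam N X (1, n) t = 0 := h0
        rw [e1] at this
        linarith
      have h2 := hE1 P (hQ n t ht0) hmn hBp (hnn t htI n) (a1 n hn0) (hnn t htI (n + 1))
        (hnn t htI (n + 2)) w0 w1 w2 (a3 n hn) h1
      have h3 := err1 (lam := lam) hnc hD0 hD1 hmn h2 hRn hR2 hLn hG0 hG hG1 hr0 hr (hnn t htI n)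
        (a1 n hn0) (hnn t htI (n + 1)) hk0 hk1 hl0 (by linarith)
      refine ⟨_, h3, ?_⟩
      change HasDerivWithinAt (GT q M p ν kap lam N X (1, n)) _ _ _
      rw [e1]
      have d1 := zt_der (n := n + 1) hβ hq hM hp h (by omega) htI
      have d0 := zt_der (n := n) hβ hq hM hp h hn0 htI
      have dD := (DD_der p n ht0).hasDerivWithinAt (s := Icc 0 T)
      have dm := (mm_der (ν := ν) hq hM hp n ht0).hasDerivWithinAt (s := Icc 0 T)
      have dk := ((dD.const_mul (295 / 100)).const_sub 1)
      refine (((d1.sub (dk.mul (d0.fun_pow 2))).add (dD.div_const 1000)).add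
        (dm.const_mul lam)).congr_deriv ?_
      rw [LA_succ hq hp n ht0]
      have hms := mm_succ (ν := ν) hq hM hp n ht0
      simp only [WT]
      linear_combination (-(LA q M p n t * ZT q M p X (n + 1) t)) * hms
    · have hn : (n : ℕ) + 1 < N := by
        by_contra hn
        have : GT q M p ν kap lam N X (2, n) t = 0 := h0
        simp only [GT, hn, if_false] at this
        exact one_ne_zero this
      have e1 : GT q M p ν kap lam N X (2, n) = fun t => kap + ZT q M p X (n + 1) t
          - kap * (1 - 295 / 100 * DD p n t) * ZT q M p X n t ^ 2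
          + kap * lam * mm q M p ν n t - ZT q M p X (n + 2) t := by
        funext t
        simp only [GT, hn, if_true]
      have h1 : ZT q M p X (n + 2) t = kap + ZT q M p X (n + 1) t
          - kap * (1 - 295 / 100 * DD p n t) * ZT q M p X n t ^ 2
          + kap * lam * mm q M p ν n t := by
        have : GT q M p ν kap lam N X (2, n) t = 0 := h0
        rw [e1] at this
        linarith
      have hms := mm_succ (ν := ν) hq hM hp n ht0
      have hms1 := mm_succ (ν := ν) hq hM hp (n + 1) ht0
      have hm2 : bb q p n t * bb q p (n + 1) t * mm q M p ν (n + 2) t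
          = 16 * mm q M p ν n t := by
        linear_combination (bb q p n t) * hms1 + 4 * hms
      have h2 := hE2 P (hQ n t ht0) hmn hBp hm2 (hnn t htI n) (a1 n hn0) (hnn t htI (n + 1))
        (a1 (n + 1) (by omega)) (hnn t htI (n + 2)) (a1 (n + 2) (by omega)) w0 w1 (a2 n hn0) w2
        (a2 (n + 2) (by omega)) (hnn t htI (n + 3)) h1
      have hG2 : GG p (n + 2) t ≤ (((n : ℕ) : ℝ) + 2) * RR ^ ((n : ℕ) + 2) * DD p n t := by
        have g1 := GG_le hp (n + 2) ht0
        have g2 : DD p (n + 2) t ≤ DD p n t :=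
          (DD_succ_le hp (n + 1) ht0).trans (DD_succ_le hp n ht0)
        have g3 := RR_pos
        push_cast at g1
        refine g1.trans ?_
        gcongr
      have h3 := err2 (lam := lam) (kap := kap) hnc hD0 hD1 hmn h2 hRn hR2 hLn hG0 hG hG1 hG2 hr0 hr
        (hnn t htI n) (a1 n hn0) (hnn t htI (n + 1)) (hnn t htI (n + 2)) (a1 (n + 2) (by omega))
        hk0 hk1 hl0 (by linarith) (by linarith) (by linarith)
      refine ⟨_, h3, ?_⟩
      change HasDerivWithinAt (GT q M p ν kap lam N X (2, n)) _ _ _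
      rw [e1]
      have d2 := zt_der (n := n + 2) hβ hq hM hp h (by omega) htI
      have d1 := zt_der (n := n + 1) hβ hq hM hp h (by omega) htI
      have d0 := zt_der (n := n) hβ hq hM hp h hn0 htI
      have dD := (DD_der p n ht0).hasDerivWithinAt (s := Icc 0 T)
      have dm := (mm_der (ν := ν) hq hM hp n ht0).hasDerivWithinAt (s := Icc 0 T)
      have dk := ((dD.const_mul (295 / 100)).const_sub 1).const_mul kap
      refine ((((d1.const_add kap).sub (dk.mul (d0.fun_pow 2))).add
        (dm.const_mul (kap * lam))).sub d2).congr_deriv ?_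
      rw [LA_succ hq hp (n + 1) ht0, LA_succ hq hp n ht0]
      simp only [WT]
      linear_combination (-(LA q M p n t * ZT q M p X (n + 1) t)) * hms
        + (LA q M p n t * ZT q M p X (n + 2) t) * hm2

end Pool.Agent.Run7.h32.On
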