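import Pool.Agent.Run7.h32.On.FinU
import Pool.Agent.Run7.h32.On.Reg4

/-!
The dyadic model: the bound with the exponent `β / 3` at all positive times.
-/

set_option autoImplicit false

open Set Filter Topology MeasureTheory

namespace Pool.Agent.Run7.h32.On

open Run7.h969.Dy Pool.Agent.Run7.h32.Dy

theorem exist_region_t {β ν q M p kap lam δ : ℝ} {Q : ℝ → ℝ → Prop} {x : ℕ → ℝ}
    (hE1 : Edge1 kap lam Q)
    (hE2 : Edge2 kap lam Q) (hkap0 : 1 / 4 ≤ kap) (hkap1 : kap ≤ 1 / 2) (hl0 : 0 ≤ lam)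
    (hl1 : lam ≤ 99 / 100) (hβ : (2 : ℝ) ^ β = q ^ 3) (hq : 0 < q) (hq2 : 317 / 100 ≤ q ^ 2)
    (hM : 0 < M) (hp : 0 < p) (hp1 : p ≤ 1 / 10000) (hν : 0 ≤ ν)
    (hQ : ∀ (n : ℕ) (t : ℝ), 0 ≤ t → Q (bb q p n t) (mm q M p ν n t))
    (hL : ∀ (n : ℕ) (t : ℝ), 0 ≤ t → 20000 * ((3 * n + 10) * RR ^ (n + 2)) < LA q M p n t)
    (hδ0 : 0 < δ) (hδ1 : δ ≤ 1 / 10) (hδ2 : δ ^ 2 < p / 1000)
    (hx : ∀ n, 0 ≤ x n) (hxd : ∀ n : ℕ, x n ≤ AA q M p n 0 * δ) :
    ∃ X : ℕ → ℝ → ℝ, IsDy β ν x X ∧ ∀ (n : ℕ) t, 0 ≤ t → X n t ≤ AA q M p n t := by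
  obtain ⟨κ, hκ⟩ : ∃ κ : ℕ → ℝ → ℝ, ∀ N t, κ N t
      = (1 - 295 / 100 * DD p N t) * AA q M p (N + 1) t / AA q M p N t ^ 2 :=
    ⟨fun N t => _, fun _ _ => rfl⟩
  have hκ0 : ∀ N T, ∀ t ∈ Icc 0 T, 0 ≤ κ N t := by
    intro N T t ht
    have h1 := (DD_le hp N ht.1).trans hp1
    have h2 := AA_pos hq hM hp (N + 1) ht.1
    have h3 := AA_pos hq hM hp N ht.1
    have h4 : 0 ≤ 1 - 295 / 100 * DD p N t := by linarith
    rw [hκ]
    positivity
  have hκc : ∀ N T, ContinuousOn (κ N) (Icc 0 T) := by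
    intro N T
    have h1 : κ N = fun t => (1 - 295 / 100 * DD p N t) * AA q M p (N + 1) t
        / AA q M p N t ^ 2 := by
      funext t
      exact hκ N t
    rw [h1]
    refine ((continuousOn_const.sub (continuousOn_const.mul ?_)).mul ?_).div (ContinuousOn.pow ?_ 2)
      fun t ht => (pow_pos (AA_pos hq hM hp N ht.1) 2).ne'
    · exact fun t ht => (DD_der p N ht.1).continuousAt.continuousWithinAt
    · exact fun t ht => (AA_der hp (N + 1) ht.1).continuousAt.continuousWithinAt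
    · exact fun t ht => (AA_der hp N ht.1).continuousAt.continuousWithinAt
  have hex : ∀ N : ℕ, ∃ Y : ℕ → ℝ → ℝ, Ct β ν ((N : ℝ) + 1) (κ N) N x Y := fun N =>
    exist_t β N x hν (by positivity) (hκ0 N _) (hκc N _)
  choose Y hY using hex
  have hb : ∀ N : ℕ, ∀ t ∈ Icc (0 : ℝ) ((N : ℝ) + 1), ∀ n, Y N n t ≤ AA q M p n t :=
    fun N => region_t hE1 hE2 hkap0 hkap1 hl0 hl1 hβ hq hq2 hM hp hp1 hν hQ hL hδ0 hδ1 hδ2
      (hκ N) (hκ0 N _) (hκc N _) hx hxd (hY N)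
  have hAA : ∀ n t, 0 ≤ t → AA q M p n t ≤ AA q M p n 0 := by
    intro n t ht
    simp only [AA]
    apply mul_le_mul_of_nonneg_left _ (by positivity)
    rw [PP_zero_time]
    exact PP_le hp n ht
  obtain ⟨X, hX, hXb⟩ := limit_t (M := fun n => AA q M p n 0) (A := fun n t => AA q M p n t) hν hY
    (fun N t ht n => ct_nn (hκ0 N _) (hκc N _) hx (hY N) t ht n)
    (fun N t ht n => (hb N t ht n).trans (hAA n t ht.1)) hb
  exact ⟨X, hX, fun n t ht => (hXb n t ht).2⟩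

/-- the general theorem -/
theorem onsager_gen {β τ E kap lam : ℝ} {Q : ℝ → ℝ → Prop} {V : ℝ → Prop} (hβ : 5 / 2 ≤ β)
    (hτ : 0 < τ) (hE : 0 ≤ E) (hE1 : Edge1 kap lam Q)
    (hE2 : Edge2 kap lam Q) (hkap0 : 1 / 4 ≤ kap) (hkap1 : kap ≤ 1 / 2) (hl0 : 0 ≤ lam)
    (hl1 : lam ≤ 99 / 100)
    (hQ : ∀ ν M p : ℝ, V ν → 0 < M → 0 < p → p ≤ 1 / 10000 → ∀ (n : ℕ) (t : ℝ), 0 ≤ t →
      Q (bb ((2 : ℝ) ^ (β / 3)) p n t) (mm ((2 : ℝ) ^ (β / 3)) M p ν n t)) :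
    ∃ C : ℝ, ∀ (ν : ℝ) (x : ℕ → ℝ) (X : ℕ → ℝ → ℝ), V ν → Sol β ν E x X → ∀ t, τ ≤ t → ∀ n : ℕ,
      (2 : ℝ) ^ (β / 3 * n) * X n t ≤ C := by
  obtain ⟨p, hp⟩ : ∃ p : ℝ, p = 1 / 10000 := ⟨_, rfl⟩
  have hp0 : 0 < p := by rw [hp]; norm_num
  obtain ⟨q, hq⟩ : ∃ q : ℝ, q = (2 : ℝ) ^ (β / 3) := ⟨_, rfl⟩
  have hq0 : 0 < q := by rw [hq]; positivity
  have hβ0 : 0 ≤ β := by linarith
  have hβq : (2 : ℝ) ^ β = q ^ 3 := by
    rw [hq, ← Real.rpow_natCast ((2 : ℝ) ^ (β / 3)) 3, ← Real.rpow_mul two_pos.le]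
    congr 1
    push_cast
    ring
  have hq2 : 317 / 100 ≤ q ^ 2 := by
    have h1 : (2 : ℝ) ^ (5 / 3 : ℝ) ≤ q ^ 2 := by
      rw [hq, ← Real.rpow_natCast ((2 : ℝ) ^ (β / 3)) 2, ← Real.rpow_mul two_pos.le]
      apply Real.rpow_le_rpow_of_exponent_le one_le_two
      push_cast
      linarith
    refine le_trans ?_ h1
    have h2 : (317 / 100 : ℝ) ^ 3 ≤ ((2 : ℝ) ^ (5 / 3 : ℝ)) ^ 3 := by
      rw [← Real.rpow_natCast ((2 : ℝ) ^ (5 / 3 : ℝ)) 3, ← Real.rpow_mul two_pos.le]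
      norm_num
    exact le_of_pow_le_pow_left₀ (by norm_num) (by positivity) h2
  have hqn : ∀ n : ℕ, (2 : ℝ) ^ (β / 3 * n) = q ^ n := by
    intro n
    rw [hq, Real.rpow_mul two_pos.le, Real.rpow_natCast]
  -- the exponent at the good time
  obtain ⟨ε', hε'⟩ : ∃ ε', ε' = Real.logb 2 (1 + p) := ⟨_, rfl⟩
  have hlog : (2 : ℝ) ^ ε' = 1 + p := by
    rw [hε']
    exact Real.rpow_logb two_pos (by norm_num) (by linarith)
  have hε0 : 0 < ε' := by
    rw [hε']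
    exact Real.logb_pos one_lt_two (by linarith)
  obtain ⟨j, hj⟩ := pow_unbounded_of_one_lt (β / (3 * ε' / 2)) (one_lt_two : (1 : ℝ) < 2)
  obtain ⟨γ, hγ⟩ : ∃ γ, γ = β / 2 ^ j := ⟨_, rfl⟩
  have hγ0 : 0 < γ := by rw [hγ]; positivity
  have hγ1 : 2 * γ ≤ 3 * ε' := by
    have h1 : γ ≤ 3 * ε' / 2 := by
      rw [hγ, div_le_iff₀ (by positivity)]
      rw [div_lt_iff₀ (by positivity)] at hj
      linarith
    linarith
  obtain ⟨D, hD0, hD⟩ := ac_bound (T := τ / 2) (E := E) hβ0 (by positivity) hE j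
  obtain ⟨C', hC'⟩ : ∃ C', C' = 2 * (D * (1 - (2 : ℝ) ^ (-γ))⁻¹) / (τ / 2) + 1 := ⟨_, rfl⟩
  have hρ1 : (2 : ℝ) ^ (-γ) < 1 := Real.rpow_lt_one_of_one_lt_of_neg one_lt_two (by linarith)
  have hC1 : 1 ≤ C' := by
    rw [hC']
    have h1 : 0 ≤ (1 - (2 : ℝ) ^ (-γ))⁻¹ := inv_nonneg.2 (by linarith)
    have : 0 ≤ 2 * (D * (1 - (2 : ℝ) ^ (-γ))⁻¹) / (τ / 2) := by positivity
    linarith
  obtain ⟨M, hM⟩ : ∃ M, M = C' / (1 / 10000) + 1000000 * q := ⟨_, rfl⟩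
  have hM0 : 0 < M := by rw [hM]; positivity
  have hM1 : C' ≤ M * (1 / 10000) := by
    rw [hM]
    have : 0 < 1000000 * q * (1 / 10000) := by positivity
    linarith
  refine ⟨M * Real.exp (p * 1001 / (τ / 2)), fun ν x X hV S t ht n => ?_⟩
  -- the rates are large
  have hL : ∀ (n : ℕ) (t : ℝ), 0 ≤ t → 20000 * ((3 * n + 10) * RR ^ (n + 2)) < LA q M p n t := by
    intro n t ht
    have h1 := LA_ge hq0 hM0 hp0 hp.le n ht
    refine lt_of_lt_of_le ?_ h1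
    have h2 : ∀ n : ℕ, (3 * (n : ℝ) + 10) * RR ^ (n + 2) ≤ 11 * (q ^ 2) ^ n := by
      intro n
      induction n with
      | zero =>
        simp only [Nat.cast_zero, pow_zero, RR]
        norm_num
      | succ n ih =>
        have h3 : (3 * ((n + 1 : ℕ) : ℝ) + 10) * RR ≤ 317 / 100 * (3 * (n : ℝ) + 10) := by
          push_cast
          simp only [RR]
          have : (0 : ℝ) ≤ n := Nat.cast_nonneg n
          linarith
        have h4 : 0 < RR ^ (n + 2) := pow_pos RR_pos _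
        calc (3 * ((n + 1 : ℕ) : ℝ) + 10) * RR ^ (n + 1 + 2)
            = ((3 * ((n + 1 : ℕ) : ℝ) + 10) * RR) * RR ^ (n + 2) := by ring
          _ ≤ (317 / 100 * (3 * (n : ℝ) + 10)) * RR ^ (n + 2) := by gcongr
          _ = 317 / 100 * ((3 * (n : ℝ) + 10) * RR ^ (n + 2)) := by ring
          _ ≤ q ^ 2 * (11 * (q ^ 2) ^ n) := mul_le_mul hq2 ih (by positivity) (by positivity)
          _ = 11 * (q ^ 2) ^ (n + 1) := by ring
    have h5 : (500000 : ℝ) ≤ M / (2 * q) := by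
      rw [le_div_iff₀ (by positivity), hM]
      have : 0 < C' / (1 / 10000) := by positivity
      linarith
    have h6 : 0 < (q ^ 2) ^ n := by positivity
    have h7 : q ^ (2 * n) = (q ^ 2) ^ n := by rw [pow_mul]
    rw [h7]
    have h8 := mul_le_mul_of_nonneg_right h5 h6.le
    have h9 := h2 n
    linarith
  obtain ⟨t0, ht0, hgood⟩ := good S hγ0 (by positivity : 0 < τ / 2) hD0 (fun N => by
    rw [hγ]
    exact hD ν x X S (τ / 2) ⟨by positivity, le_rfl⟩ N)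
  have ht00 : 0 < t0 := by linarith [ht0.1]
  rw [← hC'] at hgood
  -- the data at the good time
  have hdat : ∀ n : ℕ, X n t0 ≤ AA q M p n 0 * (1 / 10000) := by
    intro n
    have hn0 : (0 : ℝ) ≤ n := Nat.cast_nonneg n
    have hX0 := S.nn n ht00.le
    have h1 : ((2 : ℝ) ^ ((β - 2 * γ) / 3 * n) * X n t0) ^ 3 ≤ C' ^ 3 := by
      have e1 : ((2 : ℝ) ^ ((β - 2 * γ) / 3 * n) * X n t0) ^ 3
          = (2 : ℝ) ^ ((β - 2 * γ) * n) * X n t0 ^ 3 := by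
        rw [mul_pow, ← Real.rpow_natCast ((2 : ℝ) ^ ((β - 2 * γ) / 3 * n)) 3,
          ← Real.rpow_mul two_pos.le]
        congr 2
        push_cast
        ring
      rw [e1]
      exact (hgood n).trans (le_self_pow₀ hC1 (by norm_num))
    have h2 : (2 : ℝ) ^ ((β - 2 * γ) / 3 * n) * X n t0 ≤ C' :=
      le_of_pow_le_pow_left₀ (by norm_num) (by linarith) h1
    have h3 : (2 : ℝ) ^ ((β / 3 - ε') * n) * X n t0 ≤ C' := by
      refine le_trans ?_ h2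
      apply mul_le_mul_of_nonneg_right _ hX0
      apply Real.rpow_le_rpow_of_exponent_le one_le_two
      apply mul_le_mul_of_nonneg_right _ hn0
      linarith
    have h4 : (2 : ℝ) ^ ((β / 3 - ε') * n) = q ^ n / (1 + p) ^ n := by
      rw [sub_mul, Real.rpow_sub two_pos, hqn, ← hlog, Real.rpow_mul two_pos.le ε',
        Real.rpow_natCast]
    rw [h4] at h3
    simp only [AA, PP_zero_time]
    have h5 : 0 < q ^ n := by positivity
    have h6 : 0 < (1 + p) ^ n := by positivity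
    have h7 : X n t0 = (q ^ n / (1 + p) ^ n * X n t0) * ((1 + p) ^ n / q ^ n) := by
      field_simp
    rw [h7]
    calc (q ^ n / (1 + p) ^ n * X n t0) * ((1 + p) ^ n / q ^ n)
        ≤ M * (1 / 10000) * ((1 + p) ^ n / q ^ n) := by
          apply mul_le_mul_of_nonneg_right (h3.trans hM1) (by positivity)
      _ = _ := by ring
  obtain ⟨Y, hY, hYb⟩ := exist_region_t (ν := ν) (x := fun n => X n t0) hE1 hE2 hkap0 hkap1 hl0 hl1
    hβq hq0 hq2 hM0 hp0 hp.le S.ν0 (by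
      have := hQ ν M p hV hM0 hp0 hp.le
      rw [← hq] at this
      exact this) hL
    (by norm_num : (0 : ℝ) < 1 / 10000) (by norm_num) (by rw [hp]; norm_num)
    (fun n => S.nn n ht00.le) hdat
  have SY : Sol β ν E (fun n => X n t0) Y :=
    ⟨S.ν0, fun n => S.nn n ht00.le, fun N => S.sum_le N ht00.le, hY⟩
  have SX : Sol β ν E (fun n => X n t0) (fun n t => X n (t0 + t)) :=
    ⟨S.ν0, fun n => S.nn n ht00.le, fun N => S.sum_le N ht00.le, shift S.dy ht00⟩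
  have h1 := unique' hβ0 SY SX n (t - t0) (by linarith [ht0.2])
  rw [add_sub_cancel] at h1
  have h2 := hYb n (t - t0) (by linarith [ht0.2])
  rw [← h1] at h2
  rw [hqn]
  have h3 : 0 < t - t0 := by linarith [ht0.2]
  have h4 := PP_bd hp0 n h3
  have h5 : Real.exp (p * 1001 / (t - t0)) ≤ Real.exp (p * 1001 / (τ / 2)) := by
    apply Real.exp_le_exp.2
    apply div_le_div_of_nonneg_left (by positivity) (by positivity)
    linarith [ht0.2]
  have h6 : X n t ≤ M / q ^ n * Real.exp (p * 1001 / (τ / 2)) := by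
    refine h2.trans ?_
    simp only [AA]
    apply mul_le_mul_of_nonneg_left (h4.trans h5) (by positivity)
  have h7 : 0 < q ^ n := by positivity
  calc q ^ n * X n t ≤ q ^ n * (M / q ^ n * Real.exp (p * 1001 / (τ / 2))) :=
        mul_le_mul_of_nonneg_left h6 h7.le
    _ = _ := by field_simp

end Pool.Agent.Run7.h32.On
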