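import Mathlib

/-!
The local parameters of the region, which vary slowly with the shell.
-/

set_option autoImplicit false

namespace Pool.Agent.Run7.h32.On

/-- The local parameters. -/
structure Loc (D c c1 c2 k k0 k2 e e0 e2 B B0 B1 : ℝ) : Prop where
  D0 : 0 < D
  D1 : D ≤ 1 / 10000
  k_eq : k = 1 - 295 / 100 * D
  e_eq : e = D / 1000
  c_lo : 1 ≤ c
  c_hi : c ≤ 1 + 301 / 100 * D
  c1_lo : 1 ≤ c1
  c1_le : c1 ≤ c
  c2_lo : 1 ≤ c2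
  c2_le : c2 ≤ c
  ck_lo : 1 + 48 / 1000 * D ≤ c * k
  ck_hi : c * k ≤ 1 + 50 / 1000 * D
  ck2 : 1 + 47 / 1000 * D ≤ c2 * k2
  k0_pos : 0 < k0
  k0_le : k ≤ (1 + 3 / 1000 * D) * k0
  e0_le : e0 ≤ 1001 / 1000 * e
  e0_nn : 0 ≤ e0
  e2_le : e2 ≤ e
  e2_nn : 0 ≤ e2
  hB : 317 / 100 ≤ B
  hB0 : B0 ≤ 1001 / 1000 * B
  hB1 : 317 / 100 ≤ B1
  hB10 : B1 ≤ 10003 / 10000 * B
  hB01 : B ≤ 10003 / 10000 * B1

namespace Loc

variable {D c c1 c2 k k0 k2 e e0 e2 B B0 B1 : ℝ} (P : Loc D c c1 c2 k k0 k2 e e0 e2 B B0 B1)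
include P

lemma kpos : 99 / 100 ≤ k := by
  rw [P.k_eq]
  linarith [P.D1]

lemma k1 : k ≤ 1 := by
  rw [P.k_eq]
  linarith [P.D0]

lemma e0' : 0 < e := by
  rw [P.e_eq]
  linarith [P.D0]

/-- the edge of `x ≤ 1` -/
lemma edge3 {lam m w y : ℝ} (hm : 0 ≤ m) (hlam : lam ≤ 99 / 100)
    (hw : 0 ≤ w) (hw1 : w ≤ 1) (hy : k - e - lam * m ≤ y) :
    D / 100 ≤ c * y + m - w ^ 2 := by
  have h1 : c * (k - e - lam * m) ≤ c * y :=
    mul_le_mul_of_nonneg_left hy (by linarith [P.c_lo])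
  have h2 : c * (k - e - lam * m) = c * k - c * e - c * lam * m := by ring
  have h3 : c * e ≤ 2 * e := by
    apply mul_le_mul_of_nonneg_right _ P.e0'.le
    linarith [P.c_hi, P.D1]
  have h5 : w ^ 2 ≤ 1 := pow_le_one₀ hw hw1
  have h6 : c * lam * m ≤ m := by
    have h7 : c * lam ≤ 1 := by
      have h8 : c * lam ≤ c * (99 / 100) := mul_le_mul_of_nonneg_left hlam (by linarith [P.c_lo])
      linarith [P.c_hi, P.D1]
    have := mul_le_mul_of_nonneg_right h7 hm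
    linarith
  have h9 : e = D / 1000 := P.e_eq
  linarith [P.ck_lo, P.D0]

end Loc

end Pool.Agent.Run7.h32.On
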