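import Pool.Agent.Run7.h32.On.Ineq
import Pool.Agent.Run7.h32.On.LocS

/-!
The inequalities at the edges of the region with parameters which vary slowly with the shell:
the inviscid case.
-/

set_option autoImplicit false

namespace Pool.Agent.Run7.h32.On

namespace Loc

variable {D c c1 c2 k k0 k2 e e0 e2 B B0 B1 : ℝ} (P : Loc D c c1 c2 k k0 k2 e e0 e2 B B0 B1)
include P

/-- the edge of `k x² - e ≤ y`, without viscosity -/
lemma edge1 {x y z w : ℝ} (hx0 : 0 ≤ x) (hx1 : x ≤ 1) (hy0 : 0 ≤ y)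
    (hw : k0 * w ^ 2 ≤ x + e0) (hz : z ≤ 1 / 3 + y - 1 / 3 * k * x ^ 2) (hz0 : 0 ≤ z)
    (hF : y = k * x ^ 2 - e) :
    D / 10000 ≤ B * (x ^ 2 - c1 * (y * z)) - 2 * k * x * (w ^ 2 - c * (x * y)) := by
  have hk0 : 0 < k := by linarith [P.kpos]
  have hk1 := P.k1
  have he0 := P.e0'
  have hB := P.hB
  have hD0 := P.D0
  have hD1 := P.D1
  have hB0 : 0 < B := by linarith
  have he := P.e_eq
  have hc0 : 0 < c := by linarith [P.c_lo]
  have hq : k * x ^ 2 = y + e := by linarith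
  have hx2 : x ^ 2 ≤ 1 := pow_le_one₀ hx0 hx1
  have hyk : y ≤ k := by
    have := mul_le_mul_of_nonneg_left hx2 hk0.le
    linarith
  have A2 : z ≤ (1 + 2 * y) / 3 := by
    have : 1 / 3 * k * x ^ 2 = (y + e) / 3 := by rw [← hq]; ring
    linarith
  have A3 : k * c1 ≤ 1 + 50 / 1000 * D := by
    have := mul_le_mul_of_nonneg_left P.c1_le hk0.le
    linarith [P.ck_hi]
  have A4 : B * ((k * c1) * (y * z)) ≤ B * ((1 + 50 / 1000 * D) * (y * ((1 + 2 * y) / 3))) := by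
    apply mul_le_mul_of_nonneg_left _ hB0.le
    apply mul_le_mul A3 _ (by positivity) (by positivity)
    exact mul_le_mul_of_nonneg_left A2 hy0
  have A5 : k * w ^ 2 ≤ (1 + 3 / 1000 * D) * (x + e0) := by
    have h1 : k * w ^ 2 ≤ (1 + 3 / 1000 * D) * k0 * w ^ 2 :=
      mul_le_mul_of_nonneg_right P.k0_le (sq_nonneg w)
    have h2 : (1 + 3 / 1000 * D) * (k0 * w ^ 2) ≤ (1 + 3 / 1000 * D) * (x + e0) :=
      mul_le_mul_of_nonneg_left hw (by positivity)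
    linarith
  have A6 : 2 * k * x * (k * w ^ 2) ≤ 2 * k * x * ((1 + 3 / 1000 * D) * (x + e0)) :=
    mul_le_mul_of_nonneg_left A5 (by positivity)
  have A6' : 2 * k * x * ((1 + 3 / 1000 * D) * (x + e0))
      = (1 + 3 / 1000 * D) * (2 * (y + e)) + (1 + 3 / 1000 * D) * (2 * (k * x * e0)) := by
    rw [← hq]; ring
  have A7 : (1 + 48 / 1000 * D) * ((y + e) * y) ≤ (c * k) * ((y + e) * y) :=
    mul_le_mul_of_nonneg_right P.ck_lo (by positivity)
  have E : k * (B * (x ^ 2 - c1 * (y * z)) - 2 * k * x * (w ^ 2 - c * (x * y)))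
      = B * (y + e) - B * ((k * c1) * (y * z)) - 2 * k * x * (k * w ^ 2)
        + 2 * ((c * k) * ((y + e) * y)) := by
    rw [← hq]; ring
  -- the brackets
  have B1 : 0 ≤ B * (1 - (1 + 50 / 1000 * D) * ((1 + 2 * y) / 3)) - 2 * (1 + 3 / 1000 * D)
      + 2 * (1 + 48 / 1000 * D) * y := by
    have h1 : 0 ≤ (2 / 3 * B * (1 + 50 / 1000 * D) - 2 * (1 + 48 / 1000 * D)) * (k - y) := by
      apply mul_nonneg _ (by linarith)
      nlinarith
    have h2 : B * (1 - (1 + 50 / 1000 * D) * ((1 + 2 * y) / 3)) - 2 * (1 + 3 / 1000 * D)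
        + 2 * (1 + 48 / 1000 * D) * y
        = B * (1 - (1 + 50 / 1000 * D) * ((1 + 2 * k) / 3)) - 2 * (1 + 3 / 1000 * D)
          + 2 * (1 + 48 / 1000 * D) * k
          + (2 / 3 * B * (1 + 50 / 1000 * D) - 2 * (1 + 48 / 1000 * D)) * (k - y) := by ring
    rw [h2]
    have h3 : 19 / 10 * D ≤ 1 - (1 + 50 / 1000 * D) * ((1 + 2 * k) / 3) := by
      rw [P.k_eq]
      nlinarith
    have h4 : 317 / 100 * (19 / 10 * D)
        ≤ B * (1 - (1 + 50 / 1000 * D) * ((1 + 2 * k) / 3)) :=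
      mul_le_mul hB h3 (by positivity) hB0.le
    have h5 : -(582 / 100 * D) ≤ - 2 * (1 + 3 / 1000 * D) + 2 * (1 + 48 / 1000 * D) * k := by
      rw [P.k_eq]
      nlinarith
    linarith
  have hkx : k * x ≤ y + e + 1 / 4 := by
    have h1 : 0 ≤ k * (x - 1 / 2) ^ 2 := by positivity
    linarith [h1, (by ring : k * (x - 1 / 2) ^ 2 = k * x ^ 2 - k * x + k / 4)]
  have hkx0 : 0 ≤ k * x := by positivity
  have B2 : (1 + 3 / 1000 * D) * (2 * (k * x * e0)) ≤ e * (2 * y + 6 / 10) := by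
    have h1 : k * x * e0 ≤ k * x * (1001 / 1000 * e) := mul_le_mul_of_nonneg_left P.e0_le hkx0
    have h2 : k * x * e ≤ (y + e + 1 / 4) * e := mul_le_mul_of_nonneg_right hkx he0.le
    have h4 : (1 + 3 / 1000 * D) * (2 * (k * x * e0)) ≤ 1001 / 1000 * (2 * (k * x * e0)) := by
      apply mul_le_mul_of_nonneg_right (by linarith)
      have := P.e0_nn
      positivity
    have h5 : 0 ≤ y * e := by positivity
    have h6 : y * e ≤ 1 * e := mul_le_mul_of_nonneg_right (by linarith) he0.le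
    have h7 : e * e ≤ 1 / 1000 * e := by
      apply mul_le_mul_of_nonneg_right _ he0.le
      rw [he]
      linarith
    nlinarith
  have T1 : e / 10 ≤ k * (B * (x ^ 2 - c1 * (y * z)) - 2 * k * x * (w ^ 2 - c * (x * y))) := by
    rw [E]
    have h1 := mul_nonneg hy0 B1
    have h2 : 317 / 100 * e ≤ B * e := mul_le_mul_of_nonneg_right hB he0.le
    have h3 : D * e ≤ 1 / 10000 * e := mul_le_mul_of_nonneg_right hD1 he0.le
    have h4 : 0 ≤ D * (e * y) := by positivity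
    rw [A6'] at A6
    nlinarith
  have T2 : k * (B * (x ^ 2 - c1 * (y * z)) - 2 * k * x * (w ^ 2 - c * (x * y)))
      ≤ B * (x ^ 2 - c1 * (y * z)) - 2 * k * x * (w ^ 2 - c * (x * y)) := by
    have h1 : 0 < B * (x ^ 2 - c1 * (y * z)) - 2 * k * x * (w ^ 2 - c * (x * y)) :=
      (mul_pos_iff_of_pos_left hk0).1 (lt_of_lt_of_le (by positivity) T1)
    exact mul_le_of_le_one_left h1.le hk1
  rw [he] at T1
  linarith

end Loc

/-- nonnegativity of the first group -/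
lemma g1_nonneg' {D τ k T e y z r ζ : ℝ} (hD0 : 0 < D) (hD1 : D ≤ 1 / 10000)
    (hτ : 1 + 47 / 1000 * D ≤ τ) (hT : T ≤ 2)
    (hk0 : 99 / 100 ≤ k) (he : e = D / 1000) (hy0 : 0 ≤ y) (hy1 : y ≤ 1)
    (hr : r = (1 + 2 * y) / 3) (hζ0 : -(e / 3) ≤ ζ) (hz : z = r + ζ) :
    0 ≤ k * (τ * z ^ 3 - y ^ 2) - e * T * z := by
  have he0 : 0 < e := by rw [he]; positivity
  have he1 : e ≤ 1 / 1000 := by rw [he]; linarith
  have hr0 : 1 / 3 ≤ r := by rw [hr]; linarith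
  have hr1 : r ≤ 1 := by rw [hr]; linarith
  have h4 : 33 / 100 ≤ z := by rw [hz]; linarith
  have hz0 : 0 ≤ z := by linarith
  have h1 : -(e * r ^ 2) ≤ 3 * r ^ 2 * ζ := by
    have := mul_le_mul_of_nonneg_left hζ0 (by positivity : 0 ≤ 3 * r ^ 2)
    linarith
  have h2 : 0 ≤ (1 - y) ^ 2 * (1 + 8 * y) / 27 := by positivity
  have h3 : y ^ 2 - e * r ^ 2 ≤ z ^ 3 := by
    have := cube_ge hy0 (by linarith : -1 ≤ ζ)
    rw [← hr, ← hz] at this
    linarith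
  have h5 : r ^ 2 ≤ 101 / 100 * z := by
    have h6 : r ≤ 101 / 100 * z := by rw [hz]; linarith
    have h7 : r ^ 2 ≤ r := by
      rw [sq]
      exact mul_le_of_le_one_left (by linarith) hr1
    linarith
  have h6 : 1 / 10 * z ≤ z ^ 3 := by
    have h7 : (33 / 100) ^ 2 ≤ z ^ 2 := by gcongr
    have h8 : z ^ 3 = z * z ^ 2 := by ring
    rw [h8]
    have := mul_le_mul_of_nonneg_left h7 hz0
    linarith
  have hz3 : 0 ≤ z ^ 3 := by positivity
  have h7 : z ^ 3 + 47 / 1000 * D * z ^ 3 ≤ τ * z ^ 3 := by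
    have := mul_le_mul_of_nonneg_right hτ hz3
    linarith
  have h8 : 47 / 1000 * D * (1 / 10 * z) ≤ 47 / 1000 * D * z ^ 3 :=
    mul_le_mul_of_nonneg_left h6 (by positivity)
  have h9 : e * r ^ 2 ≤ e * (101 / 100 * z) := mul_le_mul_of_nonneg_left h5 he0.le
  have hez : 0 ≤ e * z := by positivity
  have h11 : e * T * z ≤ 2 * (e * z) := by
    have := mul_le_mul_of_nonneg_right hT hez
    linarith
  have h13 : 47 / 10 * (e * z) - 101 / 100 * (e * z) ≤ τ * z ^ 3 - y ^ 2 := by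
    have : 47 / 1000 * D * (1 / 10 * z) = 47 / 10 * (e * z) := by rw [he]; ring
    linarith
  have h14 : 99 / 100 * (47 / 10 * (e * z) - 101 / 100 * (e * z)) ≤ k * (τ * z ^ 3 - y ^ 2) :=
    mul_le_mul hk0 h13 (by linarith) (by linarith)
  linarith

/-- the inequality for the smallest `b` -/
lemma smallest' {D τ k e e0 T r' x y z q r ζ : ℝ} (hD0 : 0 < D) (hD1 : D ≤ 1 / 10000)
    (hτ : 1 ≤ τ) (hT : T ≤ 1 + 50 / 1000 * D) (hT0 : 0 ≤ T)
    (hk : k = 1 - 295 / 100 * D) (he : e = D / 1000)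
    (he0 : e0 ≤ 1001 / 1000 * e) (he00 : 0 ≤ e0) (hr' : r' = 1 + 3 / 1000 * D)
    (hx0 : 0 ≤ x) (hx1 : x ≤ 1)
    (hy0 : 0 ≤ y) (hy1 : y ≤ 1) (hq0 : 0 ≤ q) (hqk : q ≤ k) (hz0 : 0 ≤ z) (hz1 : z ≤ 1)
    (hr : r = (1 + 2 * y) / 3) (hζ : ζ = (y - q) / 3) (hζ0 : -(e / 3) ≤ ζ) (hζ1 : ζ ≤ y / 3)
    (hz : z = r + ζ) :
    D / 10 ≤ (317 / 100) ^ 2 * (k * (τ * z ^ 3 - y ^ 2) - e * T * z)
      + 317 / 100 * (q - (1 + 50 / 1000 * D) * y * z)
      - (2 / 3 * q * (r' - y) + 2 / 3 * r' * (k * x) * e0) := by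
  have hep : 0 < e := by rw [he]; positivity
  have he1 : e ≤ 1 / 1000 := by rw [he]; linarith
  have hk0 : 0 ≤ k := by linarith
  have hkl : k ≤ 1 := by linarith
  have S0 := two_var' hy0 hy1 hep (by linarith) hζ0 hζ1 (by rw [hζ]; ring : q = y - 3 * ζ)
    (by rw [hz, hr] : z = (1 + 2 * y) / 3 + ζ)
  have hzq : z = 1 / 3 + y - q / 3 := by rw [hz, hr, hζ]; ring
  have hz3q : z ^ 3 - y ^ 2 ≤ 2 / 3 * (1 - q) := by
    have h1 : z ^ 3 ≤ z ^ 2 := by
      have : z ^ 3 = z ^ 2 * z := by ring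
      rw [this]
      exact mul_le_of_le_one_right (sq_nonneg z) hz1
    have h2 : z - y = (1 - q) / 3 := by rw [hzq]; ring
    have h3 : z ^ 2 - y ^ 2 = (z + y) * ((1 - q) / 3) := by rw [← h2]; ring
    have h4 : (z + y) * ((1 - q) / 3) ≤ 2 * ((1 - q) / 3) :=
      mul_le_mul_of_nonneg_right (by linarith) (by linarith)
    linarith
  have h1 : k * (τ * z ^ 3 - y ^ 2) - e * T * z
      = (z ^ 3 - y ^ 2) - (1 - k) * (z ^ 3 - y ^ 2) + k * (τ - 1) * z ^ 3 - e * T * z := by ring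
  have h2 : (1 - k) * (z ^ 3 - y ^ 2) ≤ 3 / 10000 * (2 / 3 * (1 - q)) := by
    have h3 : (1 - k) * (z ^ 3 - y ^ 2) ≤ (1 - k) * (2 / 3 * (1 - q)) :=
      mul_le_mul_of_nonneg_left hz3q (by linarith)
    have h4 : (1 - k) * (2 / 3 * (1 - q)) ≤ 3 / 10000 * (2 / 3 * (1 - q)) :=
      mul_le_mul_of_nonneg_right (by linarith) (by linarith)
    linarith
  have h3 : 0 ≤ k * (τ - 1) * z ^ 3 := by
    have : 0 ≤ τ - 1 := by linarith
    positivity
  have h4 : e * T * z ≤ 2 * e := by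
    have h5 : T * z ≤ 2 * 1 := mul_le_mul (by linarith) hz1 hz0 (by norm_num)
    have := mul_le_mul_of_nonneg_left h5 hep.le
    linarith
  have h5 : q - (1 + 50 / 1000 * D) * y * z = (q - y * z) - 50 / 1000 * D * (y * z) := by ring
  have h6 : 50 / 1000 * D * (y * z) ≤ 50 / 1000 * D := by
    have h7 : y * z ≤ 1 := mul_le_one₀ hy1 hz0 hz1
    have := mul_le_mul_of_nonneg_left h7 (by positivity : 0 ≤ 50 / 1000 * D)
    linarith
  have h8 : 2 / 3 * q * (r' - y) ≤ 2 / 3 * q * (1 - y) + 3 / 1000 * D := by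
    have : 2 / 3 * q * (r' - y) = 2 / 3 * q * (1 - y) + 2 / 1000 * D * q := by rw [hr']; ring
    rw [this]
    have h9 : 2 / 1000 * D * q ≤ 2 / 1000 * D * 1 :=
      mul_le_mul_of_nonneg_left (by linarith) (by positivity)
    linarith
  have h9 : 2 / 3 * r' * (k * x) * e0 ≤ e := by
    have h7 : k * x ≤ 1 := mul_le_one₀ hkl hx0 hx1
    have h10 : 2 / 3 * r' * (k * x) ≤ 2 / 3 * r' * 1 :=
      mul_le_mul_of_nonneg_left h7 (by rw [hr']; positivity)
    have h11 : 2 / 3 * r' * (k * x) * e0 ≤ 2 / 3 * r' * 1 * (1001 / 1000 * e) :=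
      mul_le_mul h10 he0 he00 (by rw [hr']; positivity)
    have h12 : r' ≤ 1001 / 1000 := by rw [hr']; linarith
    have h13 : r' * e ≤ 1001 / 1000 * e := mul_le_mul_of_nonneg_right h12 hep.le
    linarith
  have h10 : 295 / 100 * D ≤ 1 - q := by linarith
  rw [h1, h5]
  linarith

lemma mono_b' {B B1 G1 G2 G3 s : ℝ} (hB : 317 / 100 ≤ B) (hB1 : 317 / 100 ≤ B1)
    (hG1 : 0 ≤ G1) (hG3 : 0 ≤ G3) (hs : 0 ≤ s)
    (h : s ≤ (317 / 100) ^ 2 * G1 + 317 / 100 * G2 - G3) :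
    s ≤ B * B1 * G1 + B * G2 - G3 := by
  have h1 : 0 ≤ 317 / 100 * G1 + G2 := by linarith
  have h2 : 0 ≤ (B - 317 / 100) * (317 / 100 * G1 + G2) :=
    mul_nonneg (by linarith) h1
  have h3 : 0 ≤ B * (B1 - 317 / 100) * G1 :=
    mul_nonneg (mul_nonneg (by linarith) (by linarith)) hG1
  linarith

namespace Loc

variable {D c c1 c2 k k0 k2 e e0 e2 B B0 B1 : ℝ} (P : Loc D c c1 c2 k k0 k2 e e0 e2 B B0 B1)
include P

/-- the edge of `z ≤ 1 / 3 + y - (k / 3) x²`, without viscosity -/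
lemma edge2 {x y z w v : ℝ} (hx0 : 0 ≤ x) (hx1 : x ≤ 1) (hy0 : 0 ≤ y)
    (hz0 : 0 ≤ z) (hz1 : z ≤ 1) (hy : k * x ^ 2 - e ≤ y)
    (hw : k0 * w ^ 2 ≤ x + e0) (hv : k2 * z ^ 2 - e2 ≤ v)
    (hF : z = 1 / 3 + y - 1 / 3 * k * x ^ 2) :
    D / 10 ≤ B * (x ^ 2 - c1 * (y * z)) - 2 * (1 / 3) * k * x * (w ^ 2 - c * (x * y))
      - B * B1 * (y ^ 2 - c2 * (z * v)) := by
  have hk9 := P.kpos
  have hk0 : 0 < k := by linarith
  have hk1 := P.k1
  have hep := P.e0'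
  have hB := P.hB
  have hB1 := P.hB1
  have hD0 := P.D0
  have hD1 := P.D1
  have hB0 : 0 < B := by linarith
  have he := P.e_eq
  have hc0 : 0 < c := by linarith [P.c_lo]
  obtain ⟨q, hq⟩ : ∃ q, q = k * x ^ 2 := ⟨_, rfl⟩
  have hx2 : x ^ 2 ≤ 1 := pow_le_one₀ hx0 hx1
  have hqk : q ≤ k := by
    have := mul_le_mul_of_nonneg_left hx2 hk0.le
    linarith
  have hq0 : 0 ≤ q := by rw [hq]; positivity
  have hzq : z = 1 / 3 + y - q / 3 := by rw [hF, hq]; ring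
  have hyq : q ≤ y + e := by linarith
  have hkk := P.k_eq
  have hy1 : y ≤ 1 - 98 / 100 * D := by linarith
  have hζ1 : (y - q) / 3 ≤ y / 3 := by linarith
  have hζ0 : -(e / 3) ≤ (y - q) / 3 := by linarith
  have hzr : z = (1 + 2 * y) / 3 + (y - q) / 3 := by rw [hzq]; ring
  have hT0 : 0 ≤ c * k := by positivity
  have hG1 := g1_nonneg' (k := k) (T := c * k) hD0 hD1 le_rfl (by linarith [P.ck_hi]) hk9 he hy0
    (by linarith) rfl hζ0 hzr
  have hG3 : 0 ≤ 2 / 3 * q * (1 + 3 / 1000 * D - y)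
      + 2 / 3 * (1 + 3 / 1000 * D) * (k * x) * e0 := by
    have h1 : 0 ≤ 1 + 3 / 1000 * D - y := by linarith
    have := P.e0_nn
    positivity
  have hsm := smallest' (x := x) (τ := 1 + 47 / 1000 * D) (T := c * k) (r' := 1 + 3 / 1000 * D)
    hD0 hD1 (by linarith) P.ck_hi hT0 hkk he P.e0_le P.e0_nn rfl hx0 hx1 hy0 (by linarith) hq0 hqk
    hz0 hz1 rfl rfl hζ0 hζ1 hzr
  have hfin := mono_b' hB hB1 hG1 hG3 (by positivity) hsm
  have E : k * (B * (x ^ 2 - c1 * (y * z)) - 2 * (1 / 3) * k * x * (w ^ 2 - c * (x * y))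
      - B * B1 * (y ^ 2 - c2 * (z * v)))
      = B * (q - (k * c1) * (y * z)) - 2 / 3 * (k * x) * (k * w ^ 2) + 2 / 3 * ((c * k) * (q * y))
        - B * B1 * (k * y ^ 2) + B * B1 * (k * z * (c2 * v)) := by
    rw [hq]; ring
  have A3 : k * c1 ≤ 1 + 50 / 1000 * D := by
    have := mul_le_mul_of_nonneg_left P.c1_le hk0.le
    linarith [P.ck_hi]
  have A4 : B * ((k * c1) * (y * z)) ≤ B * ((1 + 50 / 1000 * D) * (y * z)) :=
    mul_le_mul_of_nonneg_left (mul_le_mul_of_nonneg_right A3 (by positivity)) hB0.le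
  have A5 : k * w ^ 2 ≤ (1 + 3 / 1000 * D) * (x + e0) := by
    have h1 : k * w ^ 2 ≤ (1 + 3 / 1000 * D) * k0 * w ^ 2 :=
      mul_le_mul_of_nonneg_right P.k0_le (sq_nonneg w)
    have h2 : (1 + 3 / 1000 * D) * (k0 * w ^ 2) ≤ (1 + 3 / 1000 * D) * (x + e0) :=
      mul_le_mul_of_nonneg_left hw (by positivity)
    linarith
  have A6 : 2 / 3 * (k * x) * (k * w ^ 2) ≤ 2 / 3 * (k * x) * ((1 + 3 / 1000 * D) * (x + e0)) :=
    mul_le_mul_of_nonneg_left A5 (by positivity)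
  have A6' : 2 / 3 * (k * x) * ((1 + 3 / 1000 * D) * (x + e0))
      = (1 + 3 / 1000 * D) * (2 / 3 * q) + 2 / 3 * (1 + 3 / 1000 * D) * (k * x) * e0 := by
    rw [hq]; ring
  have A7 : 1 * (q * y) ≤ (c * k) * (q * y) :=
    mul_le_mul_of_nonneg_right (by linarith [P.ck_lo]) (by positivity)
  have A8 : c2 * (k2 * z ^ 2 - e2) ≤ c2 * v :=
    mul_le_mul_of_nonneg_left hv (by linarith [P.c2_lo])
  have A9 : (1 + 47 / 1000 * D) * z ^ 2 - c * e ≤ c2 * v := by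
    have h1 : (1 + 47 / 1000 * D) * z ^ 2 ≤ (c2 * k2) * z ^ 2 :=
      mul_le_mul_of_nonneg_right P.ck2 (sq_nonneg z)
    have h2 : c2 * e2 ≤ c * e := mul_le_mul P.c2_le P.e2_le P.e2_nn hc0.le
    linarith
  have A10 : B * B1 * (k * z * ((1 + 47 / 1000 * D) * z ^ 2 - c * e))
      ≤ B * B1 * (k * z * (c2 * v)) := by
    apply mul_le_mul_of_nonneg_left _ (by positivity)
    exact mul_le_mul_of_nonneg_left A9 (by positivity)
  have T1 : D / 10 ≤ k * (B * (x ^ 2 - c1 * (y * z))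
      - 2 * (1 / 3) * k * x * (w ^ 2 - c * (x * y)) - B * B1 * (y ^ 2 - c2 * (z * v))) := by
    rw [E]
    linarith
  have T2 : k * (B * (x ^ 2 - c1 * (y * z))
      - 2 * (1 / 3) * k * x * (w ^ 2 - c * (x * y)) - B * B1 * (y ^ 2 - c2 * (z * v)))
      ≤ B * (x ^ 2 - c1 * (y * z))
      - 2 * (1 / 3) * k * x * (w ^ 2 - c * (x * y)) - B * B1 * (y ^ 2 - c2 * (z * v)) := by
    have h1 : 0 < B * (x ^ 2 - c1 * (y * z))
        - 2 * (1 / 3) * k * x * (w ^ 2 - c * (x * y)) - B * B1 * (y ^ 2 - c2 * (z * v)) :=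
      (mul_pos_iff_of_pos_left hk0).1 (lt_of_lt_of_le (by positivity) T1)
    exact mul_le_of_le_one_left h1.le hk1
  linarith

end Loc

end Pool.Agent.Run7.h32.On
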