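import Pool.Agent.Run7.h32.On.Fin2
import Pool.Agent.Run7.h32.On.Loc

/-!
The inviscid case with other constants (an earlier version, not used by the final theorem).
-/

set_option autoImplicit false

open Set Filter Topology MeasureTheory

namespace Pool.Agent.Run7.h32.On

open Run7.h969.Dy Pool.Agent.Run7.h32.Dy

theorem edge1_inv : Edge1 (1 / 3) 0 (fun _ m => m = 0) := by
  intro D c c1 c2 k k0 k2 e e0 e2 B B0 B1 m x y z w P hm _ _ hx0 hx1 hy0 hz0 _ _ hw hz hF
  subst hm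
  have h1 := P.edge1 (x := x) (y := y) (z := z) (w := w) hx0 hx1 hy0 (by linarith) (by linarith)
    hz0 (by linarith)
  have h2 := P.D0
  simp only [zero_mul, mul_zero, add_zero, sub_zero]
  linarith

theorem edge2_inv : Edge2 (1 / 3) 0 (fun _ m => m = 0) := by
  intro D c c1 c2 k k0 k2 e e0 e2 B B0 B1 m m2 x y z w v P hm _ _ _ hx0 hx1 hy0 _ hz0 hz1 _ _ hy hw
    hv _ hF
  subst hm
  have h1 := P.edge2 (x := x) (y := y) (z := z) (w := w) (v := v) hx0 hx1 hy0 hz0 hz1
    (by linarith) (by linarith) (by linarith) (by linarith)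
  have h2 := P.D0
  simp only [zero_mul, mul_zero, add_zero, sub_zero]
  linarith

/-- **Onsager regularity of the inviscid dyadic model**, with the exponent `β / 3`. -/
theorem onsager_inv {β τ E : ℝ} (hβ : 5 / 2 ≤ β) (hτ : 0 < τ) (hE : 0 ≤ E) :
    ∃ C : ℝ, ∀ (x : ℕ → ℝ) (X : ℕ → ℝ → ℝ), Sol β 0 E x X → ∀ t, τ ≤ t → ∀ n : ℕ,
      (2 : ℝ) ^ (β / 3 * n) * X n t ≤ C := by
  obtain ⟨C, hC⟩ := onsager_gen (V := fun ν => ν = 0) hβ hτ hE edge1_inv edge2_inv (by norm_num)
    (by norm_num) le_rfl (by norm_num) (fun ν M p hν hM hp hp1 n t ht => by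
      simp only [mm, hν, zero_mul, zero_div])
  exact ⟨C, fun x X S t ht n => hC 0 x X rfl S t ht n⟩

end Pool.Agent.Run7.h32.On
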