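import Pool.Agent.Run7.h32.On.Est
import Pool.Agent.Run7.h32.Dy.WP

/-!
The inviscid dyadic model: uniqueness and the Onsager regularity of all the nonnegative solutions
at all positive times.
-/

set_option autoImplicit false

open Set Filter Topology MeasureTheory

namespace Pool.Agent.Run7.h32.On

open Run7.h969.Dy Pool.Agent.Run7.h32.Dy

/-! ### uniqueness -/

lemma sq_mul_le {a b : ℝ} (ha : 0 ≤ a) (hb : 0 ≤ b) : a ^ 2 * b ≤ a ^ 3 + b ^ 3 := by
  rcases le_total a b with h | h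
  · have h3 : a ^ 2 ≤ b ^ 2 := pow_le_pow_left₀ ha h 2
    have h4 : a ^ 2 * b ≤ b ^ 2 * b := mul_le_mul_of_nonneg_right h3 hb
    have h5 : b ^ 2 * b = b ^ 3 := by ring
    have h6 : 0 ≤ a ^ 3 := by positivity
    linarith
  · have h4 : a ^ 2 * b ≤ a ^ 2 * a := mul_le_mul_of_nonneg_left h (sq_nonneg a)
    have h5 : a ^ 2 * a = a ^ 3 := by ring
    have h6 : 0 ≤ b ^ 3 := by positivity
    linarith

theorem unique' {β ν E : ℝ} {x : ℕ → ℝ} {X Z : ℕ → ℝ → ℝ} (hβ : 0 ≤ β) (SX : Sol β ν E x X)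
    (SZ : Sol β ν E x Z) : ∀ n t, 0 ≤ t → Z n t = X n t := by
  intro n t ht
  have hcX : ∀ k, ContinuousOn (X k) (Icc 0 t) := fun k => SX.cont k t
  have hcZ : ∀ k, ContinuousOn (Z k) (Icc 0 t) := fun k => SZ.cont k t
  have key : ∀ N : ℕ, ∑ k ∈ Finset.range (N + 1), (1 / 2 : ℝ) ^ k * (X k t - Z k t) ^ 2
      ≤ (1 / 2) ^ N * (ac β X N t + ac β Z (N + 1) t + (ac β Z N t + ac β X (N + 1) t)) := by
    intro N
    have hFd : ∀ r, 0 < r → HasDerivAt
        (fun r => ∑ k ∈ Finset.range (N + 1), (1 / 2 : ℝ) ^ k * (X k r - Z k r) ^ 2)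
        (2 * ∑ k ∈ Finset.range (N + 1), (1 / 2 : ℝ) ^ k * ((X k r - Z k r) *
          (rhs β ν (fun k => X k r) k - rhs β ν (fun k => Z k r) k))) r := by
      intro r hr
      have h1 : HasDerivAt (fun r => ∑ k ∈ Finset.range (N + 1), (1 / 2 : ℝ) ^ k * (X k r - Z k r) ^ 2)
          (∑ k ∈ Finset.range (N + 1), 2 * ((1 / 2 : ℝ) ^ k * ((X k r - Z k r) *
          (rhs β ν (fun k => X k r) k - rhs β ν (fun k => Z k r) k)))) r := by
        refine HasDerivAt.fun_sum fun k _ => ?_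
        refine ((((SX.dy.ode k r hr).fun_sub (SZ.dy.ode k r hr)).fun_pow 2).const_mul
          _).congr_deriv ?_
        norm_num
        ring
      rw [Finset.mul_sum]
      exact h1
    have hcr : ∀ k, ContinuousOn (fun r => rhs β ν (fun k => X k r) k
        - rhs β ν (fun k => Z k r) k) (Icc 0 t) := fun k => (rhs_cont hcX k).sub (rhs_cont hcZ k)
    have hcF : ContinuousOn (fun r => 2 * ∑ k ∈ Finset.range (N + 1), (1 / 2 : ℝ) ^ k *
        ((X k r - Z k r) * (rhs β ν (fun k => X k r) k - rhs β ν (fun k => Z k r) k))) (Icc 0 t) :=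
      continuousOn_const.mul (continuousOn_finsetSum _ fun k _ =>
        continuousOn_const.mul (((hcX k).sub (hcZ k)).mul (hcr k)))
    have hi : ∀ (Y : ℕ → ℝ → ℝ) (_ : ∀ k, ContinuousOn (Y k) (Icc 0 t)) (k : ℕ),
        IntervalIntegrable (fun r => (2 : ℝ) ^ (β * k) * Y k r ^ 3) volume 0 t := by
      intro Y hY k
      refine ContinuousOn.intervalIntegrable ?_
      rw [uIcc_of_le ht]
      exact continuousOn_const.mul ((hY k).pow 3)
    have hint : ∫ r in (0 : ℝ)..t, (2 * ∑ k ∈ Finset.range (N + 1), (1 / 2 : ℝ) ^ k *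
        ((X k r - Z k r) * (rhs β ν (fun k => X k r) k - rhs β ν (fun k => Z k r) k)))
        = ∑ k ∈ Finset.range (N + 1), (1 / 2 : ℝ) ^ k * (X k t - Z k t) ^ 2
          - ∑ k ∈ Finset.range (N + 1), (1 / 2 : ℝ) ^ k * (X k 0 - Z k 0) ^ 2 := by
      refine intervalIntegral.integral_eq_sub_of_hasDerivAt_of_le ht
        (f := fun r => ∑ k ∈ Finset.range (N + 1), (1 / 2 : ℝ) ^ k * (X k r - Z k r) ^ 2) ?_ ?_ ?_
      · exact continuousOn_finsetSum _ fun k _ => continuousOn_const.mul (((hcX k).sub (hcZ k)).pow 2)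
      · exact fun r hr => hFd r hr.1
      · exact ContinuousOn.intervalIntegrable (by rw [uIcc_of_le ht]; exact hcF)
    have h0 : ∑ k ∈ Finset.range (N + 1), (1 / 2 : ℝ) ^ k * (X k 0 - Z k 0) ^ 2 = 0 := by
      refine Finset.sum_eq_zero fun k _ => ?_
      rw [SX.dy.init k, SZ.dy.init k]
      ring
    have hle : ∫ r in (0 : ℝ)..t, (2 * ∑ k ∈ Finset.range (N + 1), (1 / 2 : ℝ) ^ k *
        ((X k r - Z k r) * (rhs β ν (fun k => X k r) k - rhs β ν (fun k => Z k r) k)))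
        ≤ ∫ r in (0 : ℝ)..t, (1 / 2 : ℝ) ^ N * ((2 : ℝ) ^ (β * N) * X N r ^ 3
          + (2 : ℝ) ^ (β * (N + 1 : ℕ)) * Z (N + 1) r ^ 3
          + ((2 : ℝ) ^ (β * N) * Z N r ^ 3 + (2 : ℝ) ^ (β * (N + 1 : ℕ)) * X (N + 1) r ^ 3)) := by
      refine intervalIntegral.integral_mono_on ht
        (ContinuousOn.intervalIntegrable (by rw [uIcc_of_le ht]; exact hcF))
        ((((hi X hcX N).add (hi Z hcZ (N + 1))).add
          ((hi Z hcZ N).add (hi X hcX (N + 1)))).const_mul _) fun r hr => ?_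
      have hr0 := hr.1
      rw [wdiff_sum]
      have hxr : ∀ k, 0 ≤ X k r := fun k => SX.nn k hr0
      have hzr : ∀ k, 0 ≤ Z k r := fun k => SZ.nn k hr0
      have h1 : 0 ≤ ∑ n ∈ Finset.range (N + 1), (1 / 2 : ℝ) ^ (n + 1) *
        ((2 : ℝ) ^ (β * n) * ((X (n + 1) r + Z (n + 1) r) * (X n r - Z n r) ^ 2)) :=
        Finset.sum_nonneg fun n _ => mul_nonneg (by positivity)
          (mul_nonneg (cp β n).le (mul_nonneg (add_nonneg (hxr _) (hzr _)) (sq_nonneg _)))
      have h2 : 0 ≤ ν * ∑ n ∈ Finset.range (N + 1), (1 / 2 : ℝ) ^ n *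
          (4 ^ n * (X n r - Z n r) ^ 2) :=
        mul_nonneg SX.ν0 (Finset.sum_nonneg fun n _ => by positivity)
      obtain ⟨K, hK⟩ : ∃ K, K = (2 : ℝ) ^ (β * N) := ⟨_, rfl⟩
      have hK0 : 0 < K := hK ▸ cp β N
      have hK1 : K ≤ (2 : ℝ) ^ (β * (N + 1 : ℕ)) := by
        rw [hK]
        apply Real.rpow_le_rpow_of_exponent_le one_le_two
        push_cast
        nlinarith
      rw [← hK]
      have h3 : -((X N r ^ 2 - Z N r ^ 2) * (X (N + 1) r - Z (N + 1) r))
          ≤ X N r ^ 3 + Z (N + 1) r ^ 3 + (Z N r ^ 3 + X (N + 1) r ^ 3) := by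
        have i1 := sq_mul_le (hxr N) (hzr (N + 1))
        have i2 := sq_mul_le (hzr N) (hxr (N + 1))
        have i3 : 0 ≤ X N r ^ 2 * X (N + 1) r := mul_nonneg (sq_nonneg _) (hxr _)
        have i4 : 0 ≤ Z N r ^ 2 * Z (N + 1) r := mul_nonneg (sq_nonneg _) (hzr _)
        linarith
      have h4 := mul_le_mul_of_nonneg_left h3 hK0.le
      have h5 : K * X (N + 1) r ^ 3 ≤ (2 : ℝ) ^ (β * (N + 1 : ℕ)) * X (N + 1) r ^ 3 :=
        mul_le_mul_of_nonneg_right hK1 (pow_nonneg (hxr _) 3)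
      have h6 : K * Z (N + 1) r ^ 3 ≤ (2 : ℝ) ^ (β * (N + 1 : ℕ)) * Z (N + 1) r ^ 3 :=
        mul_le_mul_of_nonneg_right hK1 (pow_nonneg (hzr _) 3)
      have h7 : K * -((X N r ^ 2 - Z N r ^ 2) * (X (N + 1) r - Z (N + 1) r))
          ≤ K * X N r ^ 3 + (2 : ℝ) ^ (β * (N + 1 : ℕ)) * Z (N + 1) r ^ 3
            + (K * Z N r ^ 3 + (2 : ℝ) ^ (β * (N + 1 : ℕ)) * X (N + 1) r ^ 3) := by
        linarith
      have h8 := mul_le_mul_of_nonneg_left h7 (by positivity : (0 : ℝ) ≤ (1 / 2) ^ N)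
      have h9 : (1 / 2 : ℝ) ^ (N + 1) = 1 / 2 * (1 / 2) ^ N := by rw [pow_succ]; ring
      rw [h9]
      linarith
    rw [hint, h0, sub_zero, intervalIntegral.integral_const_mul,
      intervalIntegral.integral_add ((hi X hcX N).add (hi Z hcZ (N + 1)))
        ((hi Z hcZ N).add (hi X hcX (N + 1))),
      intervalIntegral.integral_add (hi X hcX N) (hi Z hcZ (N + 1)),
      intervalIntegral.integral_add (hi Z hcZ N) (hi X hcX (N + 1))] at hle
    exact hle
  obtain ⟨j, hj⟩ := pow_unbounded_of_one_lt (2 * β) (one_lt_two : (1 : ℝ) < 2)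
  obtain ⟨D, hD0, hD⟩ := ac_bound (T := t) (E := E) hβ ht SX.E0 j
  have hg : β / 2 ^ j ≤ 1 / 2 := by
    rw [div_le_iff₀ (by positivity)]
    linarith
  have hb : ∀ (Y : ℕ → ℝ → ℝ), Sol β ν E x Y → ∀ N : ℕ,
      ac β Y N t ≤ D * (√2) ^ N := by
    intro Y SY N
    refine (hD ν x Y SY t ⟨ht, le_rfl⟩ N).trans ?_
    apply mul_le_mul_of_nonneg_left _ hD0
    have e1 : (√2 : ℝ) ^ N = (2 : ℝ) ^ (1 / 2 * (N : ℝ)) := by
      rw [Real.rpow_mul two_pos.le, Real.rpow_natCast, Real.sqrt_eq_rpow]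
    rw [e1]
    apply Real.rpow_le_rpow_of_exponent_le one_le_two
    exact mul_le_mul_of_nonneg_right hg (Nat.cast_nonneg N)
  have h2 : √2 ≤ (3 / 2 : ℝ) := by
    rw [Real.sqrt_le_left (by norm_num)]
    norm_num
  have hlim : Tendsto (fun N : ℕ => (3 / 4 : ℝ) ^ N * (5 * D)) atTop (𝓝 0) := by
    have := (tendsto_pow_atTop_nhds_zero_of_lt_one (by norm_num : (0 : ℝ) ≤ 3 / 4)
      (by norm_num)).mul_const (5 * D)
    simpa using this
  have h1 : (1 / 2 : ℝ) ^ n * (X n t - Z n t) ^ 2 ≤ 0 := by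
    refine ge_of_tendsto hlim ?_
    filter_upwards [eventually_ge_atTop n] with N hN
    refine le_trans ?_ ((key N).trans ?_)
    · exact Finset.single_le_sum (f := fun k => (1 / 2 : ℝ) ^ k * (X k t - Z k t) ^ 2)
        (fun k _ => by positivity) (Finset.mem_range.2 (Nat.lt_succ_of_le hN))
    · have i1 := hb X SX N
      have i2 := hb Z SZ N
      have i3 := hb X SX (N + 1)
      have i4 := hb Z SZ (N + 1)
      have i5 : (√2 : ℝ) ^ N ≤ (3 / 2) ^ N := pow_le_pow_left₀ (by positivity) h2 N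
      have i6 : D * (√2 : ℝ) ^ N ≤ D * (3 / 2) ^ N := mul_le_mul_of_nonneg_left i5 hD0
      have i7 : D * (√2 : ℝ) ^ (N + 1) ≤ 3 / 2 * (D * (3 / 2) ^ N) := by
        have : D * (√2 : ℝ) ^ (N + 1) = √2 * (D * (√2) ^ N) := by rw [pow_succ]; ring
        rw [this]
        exact mul_le_mul h2 i6 (by positivity) (by norm_num)
      have i8 : (3 / 4 : ℝ) ^ N = (1 / 2) ^ N * (3 / 2) ^ N := by
        rw [← mul_pow]
        norm_num
      rw [i8]
      have i9 : (1 / 2 : ℝ) ^ N * (3 / 2) ^ N * (5 * D) = (1 / 2) ^ N * (5 * (D * (3 / 2) ^ N)) := by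
        ring
      rw [i9]
      apply mul_le_mul_of_nonneg_left _ (by positivity)
      linarith
  have h2 : (0 : ℝ) < (1 / 2) ^ n := by positivity
  have h3 : (X n t - Z n t) ^ 2 ≤ 0 := by
    by_contra hc
    push Not at hc
    have := mul_pos h2 hc
    linarith
  have h4 : X n t - Z n t = 0 := by
    have := le_antisymm h3 (sq_nonneg _)
    exact pow_eq_zero_iff two_ne_zero |>.1 this
  linarith

/-! ### a good time -/

lemma good {β ν E γ τ D : ℝ} {x : ℕ → ℝ} {X : ℕ → ℝ → ℝ} (S : Sol β ν E x X) (hγ : 0 < γ)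
    (hτ : 0 < τ) (hD0 : 0 ≤ D) (hD : ∀ N : ℕ, ac β X N τ ≤ D * (2 : ℝ) ^ (γ * N)) :
    ∃ t0 ∈ Icc (τ / 2) τ, ∀ N : ℕ, (2 : ℝ) ^ ((β - 2 * γ) * N) * X N t0 ^ 3
      ≤ 2 * (D * (1 - (2 : ℝ) ^ (-γ))⁻¹) / τ + 1 := by
  obtain ⟨ρ, hρ⟩ : ∃ ρ, ρ = (2 : ℝ) ^ (-γ) := ⟨_, rfl⟩
  have hρ0 : 0 < ρ := by rw [hρ]; exact Real.rpow_pos_of_pos two_pos _
  have hρ1 : ρ < 1 := by
    rw [hρ]
    exact Real.rpow_lt_one_of_one_lt_of_neg one_lt_two (by linarith)
  rw [← hρ]
  obtain ⟨g, hg⟩ : ∃ g : ℕ → ℝ → ℝ, g = fun K r =>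
      ∑ N ∈ Finset.range K, (2 : ℝ) ^ ((β - 2 * γ) * N) * X N r ^ 3 := ⟨_, rfl⟩
  have hterm : ∀ (N : ℕ) r, 0 ≤ r → 0 ≤ (2 : ℝ) ^ ((β - 2 * γ) * N) * X N r ^ 3 := fun N r hr =>
    mul_nonneg (cp _ N).le (pow_nonneg (S.nn N hr) 3)
  have hgc : ∀ K, ContinuousOn (g K) (Icc 0 τ) := by
    intro K
    rw [hg]
    exact continuousOn_finsetSum _ fun N _ => continuousOn_const.mul ((S.cont N τ).pow 3)
  obtain ⟨B, hB⟩ : ∃ B, B = 2 * (D * (1 - ρ)⁻¹) / τ + 1 := ⟨_, rfl⟩
  rw [← hB]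
  have hint : ∀ K, ∫ r in (0 : ℝ)..τ, g K r ≤ D * (1 - ρ)⁻¹ := by
    intro K
    have h1 : ∫ r in (0 : ℝ)..τ, g K r
        = ∑ N ∈ Finset.range K, (2 : ℝ) ^ (-(2 * γ) * N) * ac β X N τ := by
      rw [hg]
      have hi : ∀ N ∈ Finset.range K, IntervalIntegrable
          (fun r => (2 : ℝ) ^ ((β - 2 * γ) * N) * X N r ^ 3) volume 0 τ := by
        intro N _
        refine ContinuousOn.intervalIntegrable ?_
        rw [uIcc_of_le hτ.le]
        exact continuousOn_const.mul ((S.cont N τ).pow 3)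
      rw [intervalIntegral.integral_finsetSum hi]
      refine Finset.sum_congr rfl fun N _ => ?_
      simp only [ac]
      rw [← intervalIntegral.integral_const_mul]
      congr 1
      funext r
      rw [← mul_assoc, ← Real.rpow_add two_pos]
      congr 2
      ring
    rw [h1]
    have h2 : ∀ N : ℕ, (2 : ℝ) ^ (-(2 * γ) * N) * ac β X N τ ≤ D * ρ ^ N := by
      intro N
      have h3 := mul_le_mul_of_nonneg_left (hD N) (cp (-(2 * γ)) N).le
      refine h3.trans (le_of_eq ?_)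
      have h4 : ρ ^ N = (2 : ℝ) ^ (-(2 * γ) * N) * (2 : ℝ) ^ (γ * N) := by
        rw [hρ, ← Real.rpow_natCast, ← Real.rpow_mul two_pos.le, ← Real.rpow_add two_pos]
        congr 1
        ring
      rw [h4]
      ring
    refine (Finset.sum_le_sum fun N _ => h2 N).trans ?_
    rw [← Finset.mul_sum]
    apply mul_le_mul_of_nonneg_left _ hD0
    have h5 := (summable_geometric_of_lt_one hρ0.le hρ1).sum_le_tsum (Finset.range K)
      (fun n _ => by positivity)
    rw [tsum_geometric_of_lt_one hρ0.le hρ1] at h5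
    exact h5
  -- the compact sets
  have hne : (⋂ K, {t | t ∈ Icc (τ / 2) τ ∧ g K t ≤ B}).Nonempty := by
    have hcl : ∀ K, IsClosed {t | t ∈ Icc (τ / 2) τ ∧ g K t ≤ B} := by
      intro K
      have h1 : ContinuousOn (g K) (Icc (τ / 2) τ) :=
        (hgc K).mono (Icc_subset_Icc_left (by linarith))
      exact h1.preimage_isClosed_of_isClosed isClosed_Icc isClosed_Iic
    refine IsCompact.nonempty_iInter_of_sequence_nonempty_isCompact_isClosed _ ?_ ?_ ?_ hcl
    · rintro K t ⟨ht, h⟩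
      refine ⟨ht, le_trans ?_ h⟩
      have ht0 : 0 ≤ t := by linarith [ht.1]
      rw [hg]
      simp only
      rw [Finset.sum_range_succ]
      linarith [hterm K t ht0]
    · intro K
      by_contra hcon
      have h1 : ∀ t ∈ Icc (τ / 2) τ, B ≤ g K t := by
        intro t ht
        by_contra h
        push Not at h
        exact hcon ⟨t, ht, h.le⟩
      have hi : IntervalIntegrable (g K) volume (τ / 2) τ := by
        refine ContinuousOn.intervalIntegrable ?_
        rw [uIcc_of_le (by linarith)]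
        exact (hgc K).mono (Icc_subset_Icc_left (by linarith))
      have hi' : IntervalIntegrable (g K) volume 0 (τ / 2) := by
        refine ContinuousOn.intervalIntegrable ?_
        rw [uIcc_of_le (by linarith)]
        exact (hgc K).mono (Icc_subset_Icc_right (by linarith))
      have h2 : ∫ r in (τ / 2)..τ, B ≤ ∫ r in (τ / 2)..τ, g K r :=
        intervalIntegral.integral_mono_on (by linarith) intervalIntegrable_const hi h1
      have h3 : 0 ≤ ∫ r in (0 : ℝ)..(τ / 2), g K r := by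
        refine intervalIntegral.integral_nonneg (by linarith) fun r hr => ?_
        rw [hg]
        exact Finset.sum_nonneg fun N _ => hterm N r hr.1
      have h4 := intervalIntegral.integral_add_adjacent_intervals hi' hi
      rw [intervalIntegral.integral_const, smul_eq_mul] at h2
      have h5 := hint K
      have h6 : (τ - τ / 2) * B = D * (1 - ρ)⁻¹ + τ / 2 := by
        rw [hB]
        field_simp
        ring
      linarith
    · exact isCompact_Icc.of_isClosed_subset (hcl 0) fun t ht => ht.1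
  obtain ⟨t0, ht0⟩ := hne
  rw [mem_iInter] at ht0
  refine ⟨t0, (ht0 0).1, fun N => ?_⟩
  have h0 : 0 ≤ t0 := by linarith [(ht0 0).1.1]
  refine le_trans ?_ (ht0 (N + 1)).2
  rw [hg]
  exact Finset.single_le_sum (f := fun N : ℕ => (2 : ℝ) ^ ((β - 2 * γ) * N) * X N t0 ^ 3)
    (fun k _ => hterm k t0 h0) (Finset.mem_range.2 (Nat.lt_succ_self N))

end Pool.Agent.Run7.h32.On
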