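import Pool.Agent.Run7.h32.On.Cl

/-!
The weights of the region: they depend on the shell and on the time.
-/

set_option autoImplicit false

open Set Filter Topology

namespace Pool.Agent.Run7.h32.On

open Run7.h969.Dy Pool.Agent.Run7.h32.Dy

/-- the rate `1 + 1 / 1000` -/
noncomputable def RR : ℝ := 1001 / 1000

lemma RR_pos : 0 < RR := by norm_num [RR]
lemma RR_one : 1 ≤ RR := by norm_num [RR]

/-- the increments of the logarithms of the weights -/
noncomputable def DD (p : ℝ) (n : ℕ) (t : ℝ) : ℝ := p / (1 + t * RR ^ n)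

/-- the relative speed of the increments -/
noncomputable def rr (n : ℕ) (t : ℝ) : ℝ := RR ^ n / (1 + t * RR ^ n)

/-- the product of the increments -/
noncomputable def PP (p : ℝ) (n : ℕ) (t : ℝ) : ℝ := ∏ j ∈ Finset.range n, (1 + DD p (j + 1) t)

/-- the relative speed of the products -/
noncomputable def GG (p : ℝ) (n : ℕ) (t : ℝ) : ℝ :=
  ∑ j ∈ Finset.range n, rr (j + 1) t * DD p (j + 1) t / (1 + DD p (j + 1) t)

/-- the weights -/
noncomputable def AA (q M p : ℝ) (n : ℕ) (t : ℝ) : ℝ := M / q ^ n * PP p n t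

/-- the rates -/
noncomputable def LA (q M p : ℝ) (n : ℕ) (t : ℝ) : ℝ :=
  M / q * q ^ (2 * n) * PP p n t / (1 + DD p n t) ^ 2

/-- the coefficients -/
noncomputable def cc (p : ℝ) (n : ℕ) (t : ℝ) : ℝ := (1 + DD p n t) ^ 2 * (1 + DD p (n + 1) t)

/-- the quotients of the rates -/
noncomputable def bb (q p : ℝ) (n : ℕ) (t : ℝ) : ℝ :=
  q ^ 2 * (1 + DD p n t) ^ 2 / (1 + DD p (n + 1) t)

variable {q M p t : ℝ}

lemma den_pos (n : ℕ) (ht : 0 ≤ t) : 0 < 1 + t * RR ^ n := by
  have := RR_pos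
  positivity

lemma DD_pos (hp : 0 < p) (n : ℕ) (ht : 0 ≤ t) : 0 < DD p n t := div_pos hp (den_pos n ht)

lemma DD_le (hp : 0 < p) (n : ℕ) (ht : 0 ≤ t) : DD p n t ≤ p := by
  have := RR_pos
  apply div_le_self hp.le
  have : 0 ≤ t * RR ^ n := by positivity
  linarith

lemma DD_succ_le (hp : 0 < p) (n : ℕ) (ht : 0 ≤ t) : DD p (n + 1) t ≤ DD p n t := by
  apply div_le_div_of_nonneg_left hp.le (den_pos n ht)
  have h1 : RR ^ n ≤ RR ^ (n + 1) := pow_le_pow_right₀ RR_one (Nat.le_succ n)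
  have := mul_le_mul_of_nonneg_left h1 ht
  linarith

lemma DD_le_succ (hp : 0 < p) (n : ℕ) (ht : 0 ≤ t) : DD p n t ≤ RR * DD p (n + 1) t := by
  have h0 := den_pos n ht
  have h1 := den_pos (n + 1) ht
  have hR := RR_one
  have hR0 := RR_pos
  simp only [DD]
  rw [mul_div_assoc', div_le_div_iff₀ h0 h1]
  have e : RR ^ (n + 1) = RR * RR ^ n := by rw [pow_succ]; ring
  rw [e]
  have : p ≤ p * RR := le_mul_of_one_le_right hp.le hR
  nlinarith

lemma DD_der (p : ℝ) (n : ℕ) (ht : 0 ≤ t) :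
    HasDerivAt (DD p n) (-(rr n t * DD p n t)) t := by
  have h0 := (den_pos n ht).ne'
  have h1 : HasDerivAt (fun t => 1 + t * RR ^ n) (1 * RR ^ n) t :=
    ((hasDerivAt_id t).mul_const _).const_add 1
  have h2 := (hasDerivAt_const t p).div h1 h0
  refine h2.congr_deriv ?_
  simp only [rr, DD]
  field_simp
  ring

lemma rr_nn (n : ℕ) (ht : 0 ≤ t) : 0 ≤ rr n t := by
  have := RR_pos
  have := den_pos n ht
  simp only [rr]
  positivity

lemma rr_le (n : ℕ) (ht : 0 ≤ t) : rr n t ≤ RR ^ n := by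
  have := RR_pos
  apply div_le_self (by positivity)
  have : 0 ≤ t * RR ^ n := by positivity
  linarith

lemma rr_mono {m n : ℕ} (h : m ≤ n) (ht : 0 ≤ t) : rr m t ≤ rr n t := by
  have h0 := den_pos m ht
  have h1 := den_pos n ht
  have hR : RR ^ m ≤ RR ^ n := pow_le_pow_right₀ RR_one h
  simp only [rr]
  rw [div_le_div_iff₀ h0 h1]
  nlinarith

lemma PP_pos (hp : 0 < p) (n : ℕ) (ht : 0 ≤ t) : 0 < PP p n t :=
  Finset.prod_pos fun j _ => by linarith [DD_pos hp (j + 1) ht]

lemma PP_one (hp : 0 < p) (n : ℕ) (ht : 0 ≤ t) : 1 ≤ PP p n t := by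
  induction n with
  | zero => simp [PP]
  | succ n ih =>
    simp only [PP] at ih ⊢
    rw [Finset.prod_range_succ]
    have := DD_pos hp (n + 1) ht
    nlinarith

lemma PP_succ (p : ℝ) (n : ℕ) (t : ℝ) : PP p (n + 1) t = PP p n t * (1 + DD p (n + 1) t) :=
  Finset.prod_range_succ _ _

lemma PP_le (hp : 0 < p) (n : ℕ) (ht : 0 ≤ t) : PP p n t ≤ (1 + p) ^ n := by
  induction n with
  | zero => simp [PP]
  | succ n ih =>
    rw [PP_succ, pow_succ]
    apply mul_le_mul ih _ (by linarith [DD_pos hp (n + 1) ht]) (by positivity)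
    linarith [DD_le hp (n + 1) ht]

lemma PP_zero_time (p : ℝ) (n : ℕ) : PP p n 0 = (1 + p) ^ n := by
  simp [PP, DD]

/-- for positive times the products are bounded -/
lemma PP_bd (hp : 0 < p) (n : ℕ) {t : ℝ} (ht : 0 < t) :
    PP p n t ≤ Real.exp (p * 1001 / t) := by
  have h1 : PP p n t ≤ Real.exp (∑ j ∈ Finset.range n, DD p (j + 1) t) := by
    rw [Real.exp_sum]
    simp only [PP]
    apply Finset.prod_le_prod
    · intro j _
      linarith [DD_pos hp (j + 1) ht.le]
    · intro j _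
      have := Real.add_one_le_exp (DD p (j + 1) t)
      linarith
  refine h1.trans (Real.exp_le_exp.2 ?_)
  have h2 : ∀ j : ℕ, DD p (j + 1) t ≤ p / t * (1000 / 1001) ^ (j + 1) := by
    intro j
    have hR := RR_pos
    simp only [DD]
    have e : p / t * (1000 / 1001 : ℝ) ^ (j + 1) = p / (t * RR ^ (j + 1)) := by
      have : (1000 / 1001 : ℝ) ^ (j + 1) = 1 / RR ^ (j + 1) := by
        rw [← one_div_pow]
        norm_num [RR]
      rw [this]
      field_simp
    rw [e]
    apply div_le_div_of_nonneg_left hp.le (by positivity)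
    linarith
  refine (Finset.sum_le_sum fun j _ => h2 j).trans ?_
  rw [← Finset.mul_sum]
  have h3 : ∑ j ∈ Finset.range n, (1000 / 1001 : ℝ) ^ (j + 1) ≤ 1001 := by
    have h4 := (summable_geometric_of_lt_one (by norm_num : (0 : ℝ) ≤ 1000 / 1001)
      (by norm_num)).sum_le_tsum (Finset.range n) (fun n _ => by positivity)
    rw [tsum_geometric_of_lt_one (by norm_num : (0 : ℝ) ≤ 1000 / 1001) (by norm_num)] at h4
    have h5 : ∑ j ∈ Finset.range n, (1000 / 1001 : ℝ) ^ (j + 1)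
        = (∑ j ∈ Finset.range n, (1000 / 1001 : ℝ) ^ j) * (1000 / 1001) := by
      rw [Finset.sum_mul]
      exact Finset.sum_congr rfl fun j _ => pow_succ _ _
    rw [h5]
    have h6 : (1 - 1000 / 1001 : ℝ)⁻¹ = 1001 := by norm_num
    rw [h6] at h4
    linarith
  have h7 := mul_le_mul_of_nonneg_left h3 (by positivity : 0 ≤ p / t)
  refine h7.trans (le_of_eq ?_)
  ring

lemma PP_der (hp : 0 < p) (n : ℕ) (ht : 0 ≤ t) :
    HasDerivAt (PP p n) (-(GG p n t * PP p n t)) t := by
  induction n with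
  | zero =>
    have : PP p 0 = fun _ => 1 := by
      funext t
      simp [PP]
    rw [this]
    simpa [GG] using hasDerivAt_const t (1 : ℝ)
  | succ n ih =>
    have h1 : PP p (n + 1) = fun t => PP p n t * (1 + DD p (n + 1) t) := by
      funext t
      exact PP_succ p n t
    have h2 := ih.mul ((DD_der p (n + 1) ht).const_add 1)
    rw [h1]
    refine h2.congr_deriv ?_
    have h3 : (1 : ℝ) + DD p (n + 1) t ≠ 0 := by linarith [DD_pos hp (n + 1) ht]
    have h4 : GG p (n + 1) t = GG p n t + rr (n + 1) t * DD p (n + 1) t / (1 + DD p (n + 1) t) := by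
      simp only [GG]
      exact Finset.sum_range_succ _ _
    rw [h4]
    field_simp
    ring

lemma GG_nn (hp : 0 < p) (n : ℕ) (ht : 0 ≤ t) : 0 ≤ GG p n t :=
  Finset.sum_nonneg fun j _ => by
    have := DD_pos hp (j + 1) ht
    have := rr_nn (j + 1) ht
    positivity

lemma GG_le (hp : 0 < p) (n : ℕ) (ht : 0 ≤ t) : GG p n t ≤ n * RR ^ n * DD p n t := by
  have h1 : ∀ j ∈ Finset.range n, rr (j + 1) t * DD p (j + 1) t / (1 + DD p (j + 1) t)
      ≤ RR ^ n * DD p n t := by
    intro j hj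
    have hjn : j + 1 ≤ n := Finset.mem_range.1 hj
    have h0 := DD_pos hp (j + 1) ht
    have h2 : rr (j + 1) t * DD p (j + 1) t / (1 + DD p (j + 1) t)
        ≤ rr (j + 1) t * DD p (j + 1) t := by
      apply div_le_self (mul_nonneg (rr_nn _ ht) h0.le)
      linarith
    have h3 : rr (j + 1) t * DD p (j + 1) t ≤ rr n t * p :=
      mul_le_mul (rr_mono hjn ht) (DD_le hp _ ht) h0.le (rr_nn _ ht)
    have h4 : rr n t * p = RR ^ n * DD p n t := by
      simp only [rr, DD]
      ring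
    linarith
  have h2 := Finset.sum_le_card_nsmul _ _ _ h1
  rw [Finset.card_range, nsmul_eq_mul] at h2
  simp only [GG]
  linarith

lemma AA_pos (hq : 0 < q) (hM : 0 < M) (hp : 0 < p) (n : ℕ) (ht : 0 ≤ t) : 0 < AA q M p n t := by
  have := PP_pos hp n ht
  simp only [AA]
  positivity

lemma AA_der (hp : 0 < p) (n : ℕ) (ht : 0 ≤ t) :
    HasDerivAt (AA q M p n) (-(GG p n t * AA q M p n t)) t := by
  have h1 := (PP_der hp n ht).const_mul (M / q ^ n)
  refine h1.congr_deriv ?_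
  simp only [AA]
  ring

lemma LA_pos (hq : 0 < q) (hM : 0 < M) (hp : 0 < p) (n : ℕ) (ht : 0 ≤ t) : 0 < LA q M p n t := by
  have := PP_pos hp n ht
  have := DD_pos hp n ht
  simp only [LA]
  positivity

lemma LA_succ (hq : 0 < q) (hp : 0 < p) (n : ℕ) (ht : 0 ≤ t) :
    LA q M p (n + 1) t = bb q p n t * LA q M p n t := by
  have h0 := DD_pos hp n ht
  have h1 := DD_pos hp (n + 1) ht
  simp only [LA, bb, PP_succ]
  have e : q ^ (2 * (n + 1)) = q ^ 2 * q ^ (2 * n) := by ring
  rw [e]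
  field_simp

/-- the rates are large -/
lemma LA_ge (hq : 0 < q) (hM : 0 < M) (hp : 0 < p) (hp1 : p ≤ 1 / 10000) (n : ℕ) (ht : 0 ≤ t) :
    M / (2 * q) * q ^ (2 * n) ≤ LA q M p n t := by
  have h0 := DD_pos hp n ht
  have h1 := DD_le hp n ht
  have h2 := PP_one hp n ht
  simp only [LA]
  rw [le_div_iff₀ (by positivity)]
  have h3 : (1 + DD p n t) ^ 2 ≤ 2 := by nlinarith
  have h4 : 0 < M / q * q ^ (2 * n) := by positivity
  calc M / (2 * q) * q ^ (2 * n) * (1 + DD p n t) ^ 2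
      = (M / q * q ^ (2 * n)) / 2 * (1 + DD p n t) ^ 2 := by field_simp
    _ ≤ (M / q * q ^ (2 * n)) / 2 * 2 := by
        apply mul_le_mul_of_nonneg_left h3 (by positivity)
    _ = M / q * q ^ (2 * n) * 1 := by ring
    _ ≤ M / q * q ^ (2 * n) * PP p n t := mul_le_mul_of_nonneg_left h2 h4.le

lemma LA_der (hq : 0 < q) (hp : 0 < p) (n : ℕ) (ht : 0 ≤ t) :
    HasDerivAt (LA q M p n)
      (LA q M p n t * (2 * (rr n t * DD p n t) / (1 + DD p n t) - GG p n t)) t := by
  have h0 : (1 : ℝ) + DD p n t ≠ 0 := by linarith [DD_pos hp n ht]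
  have h1 := (PP_der hp n ht).const_mul (M / q * q ^ (2 * n))
  have h2 := ((DD_der p n ht).const_add 1).fun_pow 2
  have h3 := h1.div h2 (by positivity)
  refine h3.congr_deriv ?_
  simp only [LA]
  field_simp
  ring

end Pool.Agent.Run7.h32.On
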