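import Pool.Agent.Run7.h32.On.Ct
import Pool.Agent.Run7.h32.On.Wt
import Pool.Agent.Run7.h32.On.LocS
import Pool.Agent.Run7.h969.Dy.Region

/-!
The invariant region with weights which depend on the shell and on the time.
-/

set_option autoImplicit false

open Set Filter Topology

namespace Pool.Agent.Run7.h32.On

open Run7.h969.Dy Pool.Agent.Run7.h32.Dy

lemma loc_of {D0 D D1 D2 D3 B B0 B1 : ℝ} (hD3 : 0 < D3) (h32 : D3 ≤ D2) (h21 : D2 ≤ D1)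
    (h10 : D1 ≤ D) (h0 : D ≤ D0) (hD0 : D0 ≤ 1 / 10000) (r0 : D0 ≤ RR * D) (r1 : D ≤ RR * D1)
    (r2 : D1 ≤ RR * D2) (r3 : D2 ≤ RR * D3) (hB : 317 / 100 ≤ B) (hB0 : B0 ≤ 1001 / 1000 * B)
    (hB1 : 317 / 100 ≤ B1) (hB10 : B1 ≤ 10003 / 10000 * B) (hB01 : B ≤ 10003 / 10000 * B1) :
    Loc D ((1 + D) ^ 2 * (1 + D1)) ((1 + D1) ^ 2 * (1 + D2)) ((1 + D2) ^ 2 * (1 + D3))
      (1 - 295 / 100 * D) (1 - 295 / 100 * D0) (1 - 295 / 100 * D2) (D / 1000) (D0 / 1000)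
      (D2 / 1000) B B0 B1 := by
  have hD2 : 0 < D2 := by linarith
  have hD1 : 0 < D1 := by linarith
  have hD : 0 < D := by linarith
  have hDs : D ≤ 1 / 10000 := by linarith
  simp only [RR] at r0 r1 r2 r3
  have mono : ∀ {a b a' b' : ℝ}, 0 < a → a ≤ a' → 0 < b → b ≤ b' →
      (1 + a) ^ 2 * (1 + b) ≤ (1 + a') ^ 2 * (1 + b') := by
    intro a b a' b' ha haa hb hbb
    have h1 : (1 + a) ^ 2 ≤ (1 + a') ^ 2 := pow_le_pow_left₀ (by linarith) (by linarith) 2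
    exact mul_le_mul h1 (by linarith) (by linarith) (by positivity)
  have one : ∀ {a b : ℝ}, 0 < a → 0 < b → 1 ≤ (1 + a) ^ 2 * (1 + b) := by
    intro a b ha hb
    have h1 : 1 ≤ (1 + a) ^ 2 := one_le_pow₀ (by linarith)
    nlinarith
  have up : ∀ {a b : ℝ}, 0 < a → b ≤ a → 0 < b → a ≤ 1 / 10000 →
      (1 + a) ^ 2 * (1 + b) * (1 - 295 / 100 * a) ≤ 1 + 50 / 1000 * a := by
    intro a b ha hb hb0 has
    have h1 := mono ha le_rfl hb0 hb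
    have h2 : (1 + a) ^ 2 * (1 + b) * (1 - 295 / 100 * a)
        ≤ (1 + a) ^ 2 * (1 + a) * (1 - 295 / 100 * a) :=
      mul_le_mul_of_nonneg_right h1 (by linarith)
    refine h2.trans ?_
    have h3 : (1 + a) ^ 2 * (1 + a) * (1 - 295 / 100 * a)
        = 1 + 50 / 1000 * a - a ^ 2 * (585 / 100 + 785 / 100 * a + 295 / 100 * a ^ 2) := by ring
    rw [h3]
    have : 0 ≤ a ^ 2 * (585 / 100 + 785 / 100 * a + 295 / 100 * a ^ 2) := by positivity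
    linarith
  have low : ∀ {a b : ℝ}, 0 < a → a ≤ 1001 / 1000 * b → 0 < b → a ≤ 1 / 10000 →
      1 + 48 / 1000 * a ≤ (1 + a) ^ 2 * (1 + b) * (1 - 295 / 100 * a) := by
    intro a b ha hb hb0 has
    have hb' : 999 / 1000 * a ≤ b := by linarith
    have h1 : (1 + a) ^ 2 * (1 + 999 / 1000 * a) ≤ (1 + a) ^ 2 * (1 + b) :=
      mul_le_mul_of_nonneg_left (by linarith) (sq_nonneg _)
    have h2 : (1 + a) ^ 2 * (1 + 999 / 1000 * a) * (1 - 295 / 100 * a)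
        ≤ (1 + a) ^ 2 * (1 + b) * (1 - 295 / 100 * a) :=
      mul_le_mul_of_nonneg_right h1 (by linarith)
    refine le_trans ?_ h2
    have h3 : 1 + 49 / 1000 * a - 9 * a ^ 2
        ≤ (1 + a) ^ 2 * (1 + 999 / 1000 * a) * (1 - 295 / 100 * a) := by
      nlinarith [mul_pos ha ha, mul_pos (mul_pos ha ha) ha, mul_pos (mul_pos ha ha) (mul_pos ha ha)]
    have h4 : 9 * a ^ 2 ≤ 1 / 1000 * a := by nlinarith
    linarith
  refine ⟨hD, hDs, rfl, rfl, one hD hD1, ?_, one hD1 hD2, mono hD1 h10 hD2 h21, one hD2 hD3,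
    mono hD2 (h21.trans h10) hD3 (h32.trans h21), ?_, ?_, ?_, ?_, ?_, ?_, ?_, ?_, ?_, hB, hB0,
    hB1, hB10, hB01⟩
  · have h1 := mono hD le_rfl hD1 h10
    refine h1.trans ?_
    nlinarith [mul_pos hD hD, mul_pos (mul_pos hD hD) hD]
  · exact low hD r1 hD1 hDs
  · exact up hD h10 hD1 hDs
  · have h1 := low hD2 r3 hD3 (by linarith)
    linarith
  · linarith
  · have h1 : D0 - D ≤ 1 / 1000 * D := by linarith
    have h2 : D * D0 ≤ 1 / 10000 * D := by nlinarith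
    nlinarith
  · linarith
  · linarith
  · linarith
  · linarith

/-! ### the rescaled shells -/

/-- the rescaled shells -/
noncomputable def ZT (q M p : ℝ) (X : ℕ → ℝ → ℝ) (n : ℕ) (t : ℝ) : ℝ := X n t / AA q M p n t

/-- the shell below -/
noncomputable def WT (q M p : ℝ) (X : ℕ → ℝ → ℝ) (n : ℕ) (t : ℝ) : ℝ :=
  match n with
  | 0 => 0
  | n + 1 => ZT q M p X n t

/-- the relative viscosity -/
noncomputable def mm (q M p ν : ℝ) (n : ℕ) (t : ℝ) : ℝ := ν * 4 ^ n / LA q M p n t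

lemma pow_q {β q : ℝ} (hq : (2 : ℝ) ^ β = q ^ 3) (n : ℕ) : (2 : ℝ) ^ (β * n) = q ^ (3 * n) := by
  rw [Real.rpow_mul two_pos.le, hq, Real.rpow_natCast, ← pow_mul]

lemma rhs_ZT {β ν q M p t : ℝ} (hβ : (2 : ℝ) ^ β = q ^ 3) (hq : 0 < q) (hM : 0 < M) (hp : 0 < p)
    (ht : 0 ≤ t) (X : ℕ → ℝ → ℝ) (n : ℕ) :
    rhs β ν (fun k => X k t) n / AA q M p n t
      = LA q M p n t * (WT q M p X n t ^ 2 - cc p n t * (ZT q M p X n t * ZT q M p X (n + 1) t)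
        - mm q M p ν n t * ZT q M p X n t) := by
  have hP : ∀ n, PP p n t ≠ 0 := fun n => (PP_pos hp n ht).ne'
  have hD : ∀ n, (1 : ℝ) + DD p n t ≠ 0 := fun n => by
    have := DD_pos hp n ht
    positivity
  have hqn : q ≠ 0 := hq.ne'
  have hMn : M ≠ 0 := hM.ne'
  cases n with
  | zero =>
    simp only [rhs, WT, ZT, mm, LA, AA, cc, PP_succ]
    have h0 : PP p 0 t = 1 := by simp [PP]
    rw [h0]
    have h1 := hD 0
    have h2 := hD 1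
    field_simp
    ring
  | succ n =>
    simp only [rhs, WT, ZT, mm, LA, AA, cc]
    rw [pow_q hβ n]
    have e1 : (2 : ℝ) ^ (β * ((n : ℝ) + 1)) = q ^ (3 * (n + 1)) := by
      rw [← pow_q hβ (n + 1)]
      push_cast
      rfl
    rw [e1, PP_succ p (n + 1), PP_succ p n]
    have h1 := hD (n + 1)
    have h2 := hD (n + 1 + 1)
    have h3 := hP n
    have e2 : X (n + 2) t = X (n + 1 + 1) t := rfl
    rw [e2]
    field_simp
    ring

variable {β ν q M p T : ℝ} {κ : ℝ → ℝ} {N : ℕ} {x : ℕ → ℝ} {X : ℕ → ℝ → ℝ}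

lemma zt_der (hβ : (2 : ℝ) ^ β = q ^ 3) (hq : 0 < q) (hM : 0 < M) (hp : 0 < p)
    (h : Ct β ν T κ N x X) {n : ℕ} (hn : n ≤ N) {t : ℝ} (ht : t ∈ Icc 0 T) :
    HasDerivWithinAt (ZT q M p X n)
      (LA q M p n t * (WT q M p X n t ^ 2 - cc p n t * (ZT q M p X n t * ZT q M p X (n + 1) t)
        - mm q M p ν n t * ZT q M p X n t) + GG p n t * ZT q M p X n t) (Icc 0 T) t := by
  have hA := (AA_pos hq hM hp n ht.1).ne'
  have h1 := (h.ode n hn t ht).div ((AA_der (q := q) (M := M) hp n ht.1).hasDerivWithinAt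
    (s := Icc 0 T)) hA
  refine h1.congr_deriv ?_
  rw [← rhs_ZT hβ hq hM hp ht.1]
  simp only [ZT]
  field_simp
  ring

lemma mm_nn (hν : 0 ≤ ν) (hq : 0 < q) (hM : 0 < M) (hp : 0 < p) (n : ℕ) {t : ℝ} (ht : 0 ≤ t) :
    0 ≤ mm q M p ν n t := by
  have := LA_pos hq hM hp n ht
  simp only [mm]
  positivity

lemma mm_der (hq : 0 < q) (hM : 0 < M) (hp : 0 < p) (n : ℕ) {t : ℝ} (ht : 0 ≤ t) :
    HasDerivAt (mm q M p ν n)
      (mm q M p ν n t * (GG p n t - 2 * (rr n t * DD p n t) / (1 + DD p n t))) t := by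
  have hL := (LA_pos hq hM hp n ht).ne'
  have h1 := (hasDerivAt_const t (ν * 4 ^ n)).div (LA_der (M := M) hq hp n ht) hL
  refine h1.congr_deriv ?_
  simp only [mm]
  field_simp
  ring

/-- the functions of the barrier -/
noncomputable def GT (q M p ν kap lam : ℝ) (N : ℕ) (X : ℕ → ℝ → ℝ) (i : Fin 3 × Fin (N + 1))
    (t : ℝ) : ℝ :=
  match i.1 with
  | 0 => 1 - ZT q M p X i.2 t
  | 1 => if (i.2 : ℕ) < N then ZT q M p X (i.2 + 1) t
      - (1 - 295 / 100 * DD p i.2 t) * ZT q M p X i.2 t ^ 2 + DD p i.2 t / 1000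
      + lam * mm q M p ν i.2 t else 1
  | 2 => if (i.2 : ℕ) + 1 < N then kap + ZT q M p X (i.2 + 1) t
      - kap * (1 - 295 / 100 * DD p i.2 t) * ZT q M p X i.2 t ^ 2
      + kap * lam * mm q M p ν i.2 t - ZT q M p X (i.2 + 2) t else 1

/-- the first edge inequality -/
def Edge1 (kap lam : ℝ) (Q : ℝ → ℝ → Prop) : Prop :=
  ∀ {D c c1 c2 k k0 k2 e e0 e2 B B0 B1 m x y z w : ℝ}, Loc D c c1 c2 k k0 k2 e e0 e2 B B0 B1 →
    Q B m → 0 ≤ m → 0 < B0 → 0 ≤ x → x ≤ 1 → 0 ≤ y → 0 ≤ z → 0 ≤ w → w ≤ 1 →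
    k0 * w ^ 2 ≤ x + e0 + lam * (B0 / 4 * m) → z ≤ kap + y - kap * k * x ^ 2 + kap * lam * m →
    y = k * x ^ 2 - e - lam * m →
      (D + m) / 20000 ≤ B * (x ^ 2 - c1 * (y * z)) - 4 * m * y
        - 2 * k * x * (w ^ 2 - c * (x * y) - m * x)

/-- the second edge inequality -/
def Edge2 (kap lam : ℝ) (Q : ℝ → ℝ → Prop) : Prop :=
  ∀ {D c c1 c2 k k0 k2 e e0 e2 B B0 B1 m m2 x y z w v : ℝ},
    Loc D c c1 c2 k k0 k2 e e0 e2 B B0 B1 →
    Q B m → 0 ≤ m → 0 < B0 → B * B1 * m2 = 16 * m → 0 ≤ x → x ≤ 1 → 0 ≤ y → y ≤ 1 → 0 ≤ z →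
    z ≤ 1 → 0 ≤ w → w ≤ 1 → k * x ^ 2 - e - lam * m ≤ y →
    k0 * w ^ 2 ≤ x + e0 + lam * (B0 / 4 * m) → k2 * z ^ 2 - e2 - lam * m2 ≤ v → 0 ≤ v →
    z = kap + y - kap * k * x ^ 2 + kap * lam * m →
      (D + m) / 20000 ≤ B * (x ^ 2 - c1 * (y * z)) - 4 * m * y
        - 2 * kap * k * x * (w ^ 2 - c * (x * y) - m * x)
        - B * B1 * (y ^ 2 - c2 * (z * v)) + 16 * m * z

end Pool.Agent.Run7.h32.On
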