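import Pool.Agent.Run7.h32.On.Reg2

/-!
The invariant region with weights which depend on the shell and on the time: the barrier.
-/

set_option autoImplicit false

open Set Filter Topology

namespace Pool.Agent.Run7.h32.On

open Run7.h969.Dy Pool.Agent.Run7.h32.Dy

variable {β ν q M p T : ℝ} {κ : ℝ → ℝ} {N : ℕ} {x : ℕ → ℝ} {X : ℕ → ℝ → ℝ}

/-! ### the local parameters -/

/-- the increment of the shell below -/
noncomputable def pD (p : ℝ) (n : ℕ) (t : ℝ) : ℝ :=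
  match n with
  | 0 => DD p 0 t
  | n + 1 => DD p n t

/-- the quotient of the shell below -/
noncomputable def pB (q p : ℝ) (n : ℕ) (t : ℝ) : ℝ :=
  match n with
  | 0 => bb q p 0 t
  | n + 1 => bb q p n t

lemma bb_ge (hq : 0 < q) (hp : 0 < p) (n : ℕ) {t : ℝ} (ht : 0 ≤ t) : q ^ 2 ≤ bb q p n t := by
  have h0 := DD_pos hp n ht
  have h1 := DD_pos hp (n + 1) ht
  have h2 := DD_succ_le hp n ht
  simp only [bb]
  rw [le_div_iff₀ (by positivity)]
  have h3 : 1 + DD p (n + 1) t ≤ (1 + DD p n t) ^ 2 := by nlinarith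
  exact mul_le_mul_of_nonneg_left h3 (by positivity)

lemma bb_le (hq : 0 < q) (hp : 0 < p) (hp1 : p ≤ 1 / 10000) (n : ℕ) {t : ℝ} (ht : 0 ≤ t) :
    bb q p n t ≤ 1001 / 1000 * q ^ 2 := by
  have h0 := DD_pos hp n ht
  have h1 := DD_pos hp (n + 1) ht
  have h2 := DD_le hp n ht
  simp only [bb]
  rw [div_le_iff₀ (by positivity)]
  have h3 : (1 + DD p n t) ^ 2 ≤ 1001 / 1000 := by nlinarith
  have h4 : q ^ 2 * (1 + DD p n t) ^ 2 ≤ q ^ 2 * (1001 / 1000) :=
    mul_le_mul_of_nonneg_left h3 (by positivity)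
  have h5 : 0 < 1001 / 1000 * q ^ 2 := by positivity
  nlinarith

lemma bb_le' (hq : 0 < q) (hp : 0 < p) (hp1 : p ≤ 1 / 10000) (n : ℕ) {t : ℝ} (ht : 0 ≤ t) :
    bb q p n t ≤ 10003 / 10000 * q ^ 2 := by
  have h0 := DD_pos hp n ht
  have h1 := DD_pos hp (n + 1) ht
  have h2 := DD_le hp n ht
  simp only [bb]
  rw [div_le_iff₀ (by positivity)]
  have h3 : (1 + DD p n t) ^ 2 ≤ 10003 / 10000 := by nlinarith
  have h4 : q ^ 2 * (1 + DD p n t) ^ 2 ≤ q ^ 2 * (10003 / 10000) :=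
    mul_le_mul_of_nonneg_left h3 (by positivity)
  have h5 : 0 < 10003 / 10000 * q ^ 2 := by positivity
  nlinarith

lemma loc_n (hq : 0 < q) (hq2 : 317 / 100 ≤ q ^ 2) (hp : 0 < p) (hp1 : p ≤ 1 / 10000) (n : ℕ)
    {t : ℝ} (ht : 0 ≤ t) :
    Loc (DD p n t) (cc p n t) (cc p (n + 1) t) (cc p (n + 2) t)
      (1 - 295 / 100 * DD p n t) (1 - 295 / 100 * pD p n t) (1 - 295 / 100 * DD p (n + 2) t)
      (DD p n t / 1000) (pD p n t / 1000) (DD p (n + 2) t / 1000)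
      (bb q p n t) (pB q p n t) (bb q p (n + 1) t) := by
  have hpD : DD p n t ≤ pD p n t ∧ pD p n t ≤ 1 / 10000 ∧ pD p n t ≤ RR * DD p n t := by
    cases n with
    | zero =>
      simp only [pD]
      have h0 := DD_pos hp 0 ht
      refine ⟨le_rfl, (DD_le hp 0 ht).trans hp1, ?_⟩
      have := RR_one
      nlinarith
    | succ n =>
      simp only [pD]
      exact ⟨DD_succ_le hp n ht, (DD_le hp n ht).trans hp1, DD_le_succ hp n ht⟩
  have hpB : pB q p n t ≤ 1001 / 1000 * q ^ 2 := by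
    cases n with
    | zero => exact bb_le hq hp hp1 0 ht
    | succ n => exact bb_le hq hp hp1 n ht
  have hb := bb_ge hq hp n ht
  exact loc_of (DD_pos hp (n + 3) ht) (DD_succ_le hp (n + 2) ht) (DD_succ_le hp (n + 1) ht)
    (DD_succ_le hp n ht) hpD.1 hpD.2.1 hpD.2.2 (DD_le_succ hp n ht) (DD_le_succ hp (n + 1) ht)
    (DD_le_succ hp (n + 2) ht) (hq2.trans hb) (by linarith)
    (hq2.trans (bb_ge hq hp (n + 1) ht))
    (by linarith [bb_le' hq hp hp1 (n + 1) ht])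
    (by linarith [bb_le' hq hp hp1 n ht, bb_ge hq hp (n + 1) ht])

/-! ### the errors -/

lemma err0 {L D G Rn R2 n E : ℝ} (hn : 0 ≤ n) (hD : 0 < D) (hE : D / 100 ≤ E)
    (hR : 1 ≤ Rn) (hR2 : Rn ≤ R2) (hL : 20000 * ((3 * n + 10) * R2) < L) (hG : G ≤ n * Rn * D) :
    0 < L * E - G := by
  have h1 : 0 < R2 := by linarith
  have h0 : 0 < (3 * n + 10) * R2 := by positivity
  have h2 : 20000 * ((3 * n + 10) * R2) * (D / 100) ≤ L * E :=
    mul_le_mul hL.le hE (by positivity) (by linarith)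
  have h3 : n * Rn * D ≤ n * R2 * D := by gcongr
  have h4 : 0 < R2 * D := by positivity
  have h5 : 0 ≤ n * (R2 * D) := by positivity
  nlinarith

lemma err1 {L D m G G1 r Rn R2 n x y k lam E : ℝ} (hn : 0 ≤ n) (hD : 0 < D) (hD1 : D ≤ 1 / 10000)
    (hm : 0 ≤ m) (hE : (D + m) / 20000 ≤ E) (hR : 1 ≤ Rn) (hR2 : Rn ≤ R2)
    (hL : 20000 * ((3 * n + 10) * R2) < L) (hG0 : 0 ≤ G) (hG : G ≤ n * Rn * D) (hG1 : 0 ≤ G1)
    (hr0 : 0 ≤ r) (hr : r ≤ Rn) (hx0 : 0 ≤ x) (hx1 : x ≤ 1) (hy : 0 ≤ y) (hk0 : 0 ≤ k)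
    (hk1 : k ≤ 1) (hl0 : 0 ≤ lam) (hl1 : lam ≤ 1) :
    0 < L * E + G1 * y - 2 * k * x * (G * x) - 295 / 100 * (r * D) * x ^ 2 - r * D / 1000
      + lam * (m * (G - 2 * (r * D) / (1 + D))) := by
  have hR20 : 0 < R2 := by linarith
  have h1 : (3 * n + 10) * R2 * (D + m) < L * E := by
    have h2 : 20000 * ((3 * n + 10) * R2) * ((D + m) / 20000) < L * ((D + m) / 20000) :=
      mul_lt_mul_of_pos_right hL (by positivity)
    have h3 : L * ((D + m) / 20000) ≤ L * E := by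
      apply mul_le_mul_of_nonneg_left hE
      have : 0 < (3 * n + 10) * R2 := by positivity
      linarith
    linarith
  have hx2 : x ^ 2 ≤ 1 := pow_le_one₀ hx0 hx1
  have h4 : 2 * k * x * (G * x) ≤ 2 * (n * Rn * D) := by
    have e1 : 2 * k * x * (G * x) = 2 * (k * x ^ 2) * G := by ring
    rw [e1]
    have h5 : k * x ^ 2 ≤ 1 := mul_le_one₀ hk1 (sq_nonneg x) hx2
    have h6 : 2 * (k * x ^ 2) * G ≤ 2 * 1 * G := by gcongr
    linarith
  have hrD : r * D ≤ Rn * D := by gcongr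
  have hrD0 : 0 ≤ r * D := by positivity
  have h7 : 295 / 100 * (r * D) * x ^ 2 ≤ 295 / 100 * (Rn * D) := by
    calc 295 / 100 * (r * D) * x ^ 2 ≤ 295 / 100 * (r * D) * 1 := by gcongr
      _ ≤ _ := by linarith
  have h8 : r * D / (1 + D) ≤ Rn * (1 / 10000) := by
    calc r * D / (1 + D) ≤ r * D := div_le_self hrD0 (by linarith)
      _ ≤ Rn * (1 / 10000) := by gcongr
  have h9 : -(m * Rn) ≤ lam * (m * (G - 2 * (r * D) / (1 + D))) := by
    have e1 : lam * (m * (G - 2 * (r * D) / (1 + D)))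
        = lam * m * G - lam * m * (2 * (r * D / (1 + D))) := by ring
    rw [e1]
    have i1 : 0 ≤ lam * m * G := by positivity
    have i2 : lam * m * (2 * (r * D / (1 + D))) ≤ 1 * m * (2 * (Rn * (1 / 10000))) := by
      have : 0 ≤ r * D / (1 + D) := by positivity
      gcongr
    have i3 : 0 ≤ m * Rn := by positivity
    linarith
  have h10 : 0 ≤ G1 * y := by positivity
  have j1 : 0 < Rn * D := by positivity
  have j2 : 0 ≤ n * (Rn * D) := by positivity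
  have j3 : 0 ≤ m * Rn := by positivity
  have j4 : Rn * D ≤ R2 * D := by gcongr
  have j5 : m * Rn ≤ m * R2 := by gcongr
  have j6 : n * (Rn * D) ≤ n * (R2 * D) := by gcongr
  have j7 : 0 ≤ n * (m * R2) := by positivity
  nlinarith

lemma err2 {L D m G G1 G2 r Rn R2 n x y z k lam kap E : ℝ} (hn : 0 ≤ n) (hD : 0 < D)
    (hD1 : D ≤ 1 / 10000)
    (hm : 0 ≤ m) (hE : (D + m) / 20000 ≤ E) (hR : 1 ≤ Rn) (hR2 : Rn ≤ R2)
    (hL : 20000 * ((3 * n + 10) * R2) < L) (hG0 : 0 ≤ G) (hG : G ≤ n * Rn * D) (hG1 : 0 ≤ G1)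
    (hG2 : G2 ≤ (n + 2) * R2 * D)
    (hr0 : 0 ≤ r) (hr : r ≤ Rn) (hx0 : 0 ≤ x) (hx1 : x ≤ 1) (hy : 0 ≤ y) (hz0 : 0 ≤ z)
    (hz1 : z ≤ 1) (hk0 : 0 ≤ k)
    (hk1 : k ≤ 1) (hl0 : 0 ≤ lam) (hl1 : lam ≤ 1) (hkap0 : 0 ≤ kap) (hkap1 : kap ≤ 1) :
    0 < L * E + G1 * y - kap * (2 * k * x * (G * x) + 295 / 100 * (r * D) * x ^ 2)
      + kap * lam * (m * (G - 2 * (r * D) / (1 + D))) - G2 * z := by
  have hR20 : 0 < R2 := by linarith
  have h1 : (3 * n + 10) * R2 * (D + m) < L * E := by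
    have h2 : 20000 * ((3 * n + 10) * R2) * ((D + m) / 20000) < L * ((D + m) / 20000) :=
      mul_lt_mul_of_pos_right hL (by positivity)
    have h3 : L * ((D + m) / 20000) ≤ L * E := by
      apply mul_le_mul_of_nonneg_left hE
      have : 0 < (3 * n + 10) * R2 := by positivity
      linarith
    linarith
  have hx2 : x ^ 2 ≤ 1 := pow_le_one₀ hx0 hx1
  have h4 : 2 * k * x * (G * x) ≤ 2 * (n * Rn * D) := by
    have e1 : 2 * k * x * (G * x) = 2 * (k * x ^ 2) * G := by ring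
    rw [e1]
    have h5 : k * x ^ 2 ≤ 1 := mul_le_one₀ hk1 (sq_nonneg x) hx2
    have h6 : 2 * (k * x ^ 2) * G ≤ 2 * 1 * G := by gcongr
    linarith
  have hrD : r * D ≤ Rn * D := by gcongr
  have hrD0 : 0 ≤ r * D := by positivity
  have h7 : 295 / 100 * (r * D) * x ^ 2 ≤ 295 / 100 * (Rn * D) := by
    calc 295 / 100 * (r * D) * x ^ 2 ≤ 295 / 100 * (r * D) * 1 := by gcongr
      _ ≤ _ := by linarith
  have h47 : kap * (2 * k * x * (G * x) + 295 / 100 * (r * D) * x ^ 2)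
      ≤ 2 * (n * Rn * D) + 295 / 100 * (Rn * D) := by
    have i1 : 0 ≤ 2 * k * x * (G * x) + 295 / 100 * (r * D) * x ^ 2 := by positivity
    have i2 := mul_le_mul_of_nonneg_right hkap1 i1
    linarith
  have h8 : r * D / (1 + D) ≤ Rn * (1 / 10000) := by
    calc r * D / (1 + D) ≤ r * D := div_le_self hrD0 (by linarith)
      _ ≤ Rn * (1 / 10000) := by gcongr
  have h9 : -(m * Rn) ≤ kap * lam * (m * (G - 2 * (r * D) / (1 + D))) := by
    have e1 : kap * lam * (m * (G - 2 * (r * D) / (1 + D)))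
        = kap * lam * m * G - kap * lam * m * (2 * (r * D / (1 + D))) := by ring
    rw [e1]
    have i1 : 0 ≤ kap * lam * m * G := by positivity
    have i2 : kap * lam * m * (2 * (r * D / (1 + D))) ≤ 1 * 1 * m * (2 * (Rn * (1 / 10000))) := by
      have : 0 ≤ r * D / (1 + D) := by positivity
      gcongr
    have i3 : 0 ≤ m * Rn := by positivity
    linarith
  have h10 : 0 ≤ G1 * y := by positivity
  have h11 : G2 * z ≤ (n + 2) * R2 * D := by
    calc G2 * z ≤ (n + 2) * R2 * D * z := mul_le_mul_of_nonneg_right hG2 hz0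
      _ ≤ (n + 2) * R2 * D * 1 := by gcongr
      _ = _ := mul_one _
  have j1 : 0 < Rn * D := by positivity
  have j2 : 0 ≤ n * (Rn * D) := by positivity
  have j3 : 0 ≤ m * Rn := by positivity
  have j4 : Rn * D ≤ R2 * D := by gcongr
  have j5 : m * Rn ≤ m * R2 := by gcongr
  have j6 : n * (Rn * D) ≤ n * (R2 * D) := by gcongr
  have j7 : 0 ≤ n * (m * R2) := by positivity
  nlinarith

end Pool.Agent.Run7.h32.On
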