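import Pool.Agent.Run7.h32.On.Reg2

/-!
The edge inequalities with viscosity: the polynomial inequality of the second edge.
-/

set_option autoImplicit false

namespace Pool.Agent.Run7.h32.On

/-- quadratic functions of the parameter -/
lemma quad_ge {α β' γ b0 b1 B s : ℝ} (h0 : b0 ≤ B) (h1 : B ≤ b1)
    (hb0 : s ≤ α * b0 ^ 2 + β' * b0 + γ)
    (hb1 : α ≤ 0 → s ≤ α * b1 ^ 2 + β' * b1 + γ) (hd : 0 ≤ α → 0 ≤ 2 * b0 * α + β') :
    s ≤ α * B ^ 2 + β' * B + γ := by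
  rcases le_total 0 α with hα | hα
  · have h2 := hd hα
    have h3 : α * B ^ 2 + β' * B + γ - (α * b0 ^ 2 + β' * b0 + γ)
        = (B - b0) * (2 * b0 * α + β') + α * (B - b0) ^ 2 := by ring
    have h4 : 0 ≤ (B - b0) * (2 * b0 * α + β') := mul_nonneg (by linarith) h2
    have h5 : 0 ≤ α * (B - b0) ^ 2 := by positivity
    linarith
  · have h2 := hb1 hα
    rcases h0.eq_or_lt with h | h
    · rw [← h]
      exact hb0
    · have hlt : b0 < b1 := by linarith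
      have h3 : (b1 - b0) * (α * B ^ 2 + β' * B + γ)
          = (b1 - B) * (α * b0 ^ 2 + β' * b0 + γ) + (B - b0) * (α * b1 ^ 2 + β' * b1 + γ)
            + (-α) * ((B - b0) * (b1 - B)) * (b1 - b0) := by ring
      have h4 : 0 ≤ (-α) * ((B - b0) * (b1 - B)) * (b1 - b0) := by
        have : 0 ≤ (B - b0) * (b1 - B) := mul_nonneg (by linarith) (by linarith)
        have := mul_nonneg (neg_nonneg.2 hα) this
        exact mul_nonneg this (by linarith)
      have h5 : (b1 - B) * s ≤ (b1 - B) * (α * b0 ^ 2 + β' * b0 + γ) :=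
        mul_le_mul_of_nonneg_left hb0 (by linarith)
      have h6 : (B - b0) * s ≤ (B - b0) * (α * b1 ^ 2 + β' * b1 + γ) :=
        mul_le_mul_of_nonneg_left h2 (by linarith)
      have h7 : (b1 - b0) * s ≤ (b1 - b0) * (α * B ^ 2 + β' * B + γ) := by
        rw [h3]
        linarith
      exact le_of_mul_le_mul_left h7 (by linarith)

/-- the polynomial of the second edge; `η = 1 - y`, `w = (3 / 10) a` -/
noncomputable def TT (B η w f : ℝ) : ℝ :=
  B ^ 2 * ((1 - 7 / 10 * η + w) ^ 3 - (1 - η) ^ 2)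
    + B * (1 - η - 10 / 3 * w - (1 - η) * (1 - 7 / 10 * η + w))
    - 6 / 10 * (1 - η - 10 / 3 * w) * η
    + f * (8498 / 10000 * B - 6 / 10 * η + 32 / 100 * (1 - 7 / 10 * η + w)
      - 200 / 49 * (1 - η) + 30 / 49 * (1 - η - 10 / 3 * w))
    - 13 / 100 * (η + 10 / 3 * w)

/-- `B = 317 / 100`, `f = 0` -/
lemma n2 {η w : ℝ} (h0 : 0 ≤ η) (h1 : η ≤ 1) (hw : 0 ≤ w) (hw1 : w ≤ 3 / 10 * (1 - η)) :
    0 ≤ TT (317 / 100) η w 0 := by
  -- the part without `w`
  have hb : 0 ≤ 484 / 1000 * η + 3103 / 1000 * η ^ 2 - 3447 / 1000 * η ^ 3 := by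
    have h2 : 0 ≤ η * (484 / 1000 + 3103 / 1000 * η - 3447 / 1000 * η ^ 2) := by
      apply mul_nonneg h0
      nlinarith
    linarith
  have hexp : TT (317 / 100) η w 0
      = 48411 / 100000 * η + 3103983 / 1000000 * η ^ 2 - 34467727 / 10000000 * η ^ 3
        + w * (159767 / 10000 - 1851769 / 50000 * η + 14771883 / 1000000 * η ^ 2)
        + w ^ 2 * (301467 / 10000 - 2110269 / 100000 * η) + 100489 / 10000 * w ^ 3 := by
    simp only [TT]
    ring
  rw [hexp]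
  have hη2 : η ^ 2 ≤ η := by nlinarith
  have hη3 : 0 ≤ η ^ 3 := by positivity
  have hη2' : 0 ≤ η ^ 2 := by positivity
  obtain ⟨Cw, hCw⟩ : ∃ Cw, Cw = 15976 / 1000 - 3704 / 100 * η + 1477 / 100 * η ^ 2 := ⟨_, rfl⟩
  have hw2 : 0 ≤ w ^ 2 * (301467 / 10000 - 2110269 / 100000 * η) :=
    mul_nonneg (sq_nonneg _) (by linarith)
  have hw3 : 0 ≤ w ^ 3 := by positivity
  have hlow : w * Cw ≤ w * (159767 / 10000 - 1851769 / 50000 * η
      + 14771883 / 1000000 * η ^ 2) := by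
    apply mul_le_mul_of_nonneg_left _ hw
    rw [hCw]
    linarith
  suffices h : 0 ≤ 484 / 1000 * η + 3103 / 1000 * η ^ 2 - 3447 / 1000 * η ^ 3 + w * Cw by
    linarith
  rcases le_total 0 Cw with h2 | h2
  · have := mul_nonneg hw h2
    linarith
  · have h3 : 3 / 10 * (1 - η) * Cw ≤ w * Cw := mul_le_mul_of_nonpos_right hw1 h2
    have hη5 : 1 / 2 ≤ η := by
      by_contra hcon
      push Not at hcon
      rw [hCw] at h2
      nlinarith
    have h4 : 0 ≤ 484 / 1000 * η + 3103 / 1000 * η ^ 2 - 3447 / 1000 * η ^ 3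
        + 3 / 10 * (1 - η) * Cw := by
      rw [hCw]
      nlinarith [mul_nonneg (sub_nonneg.2 hη5) (sub_nonneg.2 h1),
        mul_nonneg (mul_nonneg (sub_nonneg.2 hη5) (sub_nonneg.2 h1)) h0,
        mul_nonneg (sub_nonneg.2 h1) (sq_nonneg (η - 3 / 4)),
        mul_nonneg (sub_nonneg.2 hη5) (sq_nonneg (η - 3 / 4)),
        mul_nonneg (sub_nonneg.2 hη5) (sq_nonneg (η - 9 / 10))]
    linarith

/-- `B = 317 / 100`, `f = η + a` -/
lemma p1 {η w : ℝ} (h0 : 0 ≤ η) (h1 : η ≤ 1) (hw : 0 ≤ w) (hw1 : w ≤ 7 / 10 * η) :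
    0 ≤ TT (317 / 100) η w (η + 10 / 3 * w) := by
  have hexp : TT (317 / 100) η w (η + 10 / 3 * w)
      = 175103 / 6125000 * η + 281719167 / 49000000 * η ^ 2 - 34467727 / 10000000 * η ^ 3
        + w * (53134231 / 3675000 - 10478383 / 350000 * η + 14771883 / 1000000 * η ^ 2)
        + w ^ 2 * (35883649 / 1470000 - 2110269 / 100000 * η) + 100489 / 10000 * w ^ 3 := by
    simp only [TT]
    ring
  rw [hexp]
  have hη2' : 0 ≤ η ^ 2 := by positivity
  have hη3 : η ^ 3 ≤ η ^ 2 := by nlinarith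
  have hw2 : 0 ≤ w ^ 2 * (35883649 / 1470000 - 2110269 / 100000 * η) :=
    mul_nonneg (sq_nonneg _) (by linarith)
  have hw3 : 0 ≤ w ^ 3 := by positivity
  have hlow : w * (-η ^ 2) ≤ w * (53134231 / 3675000 - 10478383 / 350000 * η
      + 14771883 / 1000000 * η ^ 2) := by
    apply mul_le_mul_of_nonneg_left _ hw
    nlinarith [sq_nonneg (η - 95 / 100)]
  have h2 : w * η ^ 2 ≤ 1 * η ^ 2 := mul_le_mul_of_nonneg_right (by linarith) hη2'
  linarith

/-- `B = 317 / 100`, `f = a - y`, in the variables `y` and `r = (3 / 10) (a - y)` -/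
lemma p3 {y r : ℝ} (h0 : 0 ≤ y) (hr : 0 ≤ r) :
    0 ≤ TT (317 / 100) (1 - y) (3 / 10 * y + r) (10 / 3 * r) := by
  have hexp : TT (317 / 100) (1 - y) (3 / 10 * y + r) (10 / 3 * r)
      = 1413203 / 10000000 + 3038269 / 3000000 * r + 48626947 / 14700000 * r ^ 2
        + 5829149 / 2450000 * (r * y) + y * (1762203 / 1000000 - 417489 / 100000 * y
          + 100489 / 10000 * y ^ 2)
        + 100489 / 10000 * r ^ 3 + 301467 / 10000 * (r ^ 2 * y) + 301467 / 10000 * (r * y ^ 2) := by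
    simp only [TT]
    ring
  rw [hexp]
  have h1 : 0 ≤ y * (1762203 / 1000000 - 417489 / 100000 * y + 100489 / 10000 * y ^ 2) := by
    apply mul_nonneg h0
    nlinarith [sq_nonneg (y - 1 / 5)]
  positivity

/-- where `α ≤ 0` -/
lemma eta_le {η w : ℝ} (h1 : η ≤ 1) (hw : 0 ≤ w)
    (hα : (1 - 7 / 10 * η + w) ^ 3 - (1 - η) ^ 2 ≤ 0) : η ≤ 27 / 100 := by
  by_contra hcon
  push Not at hcon
  have h2 : (1 - 7 / 10 * η) ^ 3 ≤ (1 - 7 / 10 * η + w) ^ 3 :=
    pow_le_pow_left₀ (by linarith) (by linarith) 3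
  have h3 : 0 < η * (-1 / 10 + 47 / 100 * η - 343 / 1000 * η ^ 2) := by
    apply mul_pos (by linarith)
    nlinarith
  have h4 : (1 - 7 / 10 * η) ^ 3 - (1 - η) ^ 2
      = η * (-1 / 10 + 47 / 100 * η - 343 / 1000 * η ^ 2) := by ring
  linarith

/-- `B = 401 / 100`, `f = 0` -/
lemma m2 {η w : ℝ} (h0 : 0 ≤ η) (h1 : η ≤ 1) (hw : 0 ≤ w)
    (hα : (1 - 7 / 10 * η + w) ^ 3 - (1 - η) ^ 2 ≤ 0) :
    0 ≤ TT (401 / 100) η w 0 := by
  have hη := eta_le h1 hw hα
  have hexp : TT (401 / 100) η w 0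
      = η * (46899 / 100000 + 5350647 / 1000000 * η - 55154743 / 10000000 * η ^ 2)
        + w * (304303 / 10000 - 3076321 / 50000 * η + 23637747 / 1000000 * η ^ 2)
        + w ^ 2 * (482403 / 10000 - 3376821 / 100000 * η) + 160801 / 10000 * w ^ 3 := by
    simp only [TT]
    ring
  rw [hexp]
  have e1 : 0 ≤ η * (46899 / 100000 + 5350647 / 1000000 * η - 55154743 / 10000000 * η ^ 2) := by
    apply mul_nonneg h0
    nlinarith
  have e2 : 0 ≤ w * (304303 / 10000 - 3076321 / 50000 * η + 23637747 / 1000000 * η ^ 2) := by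
    apply mul_nonneg hw
    nlinarith
  have e3 : 0 ≤ w ^ 2 * (482403 / 10000 - 3376821 / 100000 * η) :=
    mul_nonneg (sq_nonneg _) (by linarith)
  have e4 : 0 ≤ 160801 / 10000 * w ^ 3 := by positivity
  linarith

/-- `B = 401 / 100`, `f = η + a` -/
lemma m1 {η w : ℝ} (h0 : 0 ≤ η) (h1 : η ≤ 1) (hw : 0 ≤ w)
    (hα : (1 - 7 / 10 * η + w) ^ 3 - (1 - η) ^ 2 ≤ 0) :
    0 ≤ TT (401 / 100) η w (η + 10 / 3 * w) := by
  have hη := eta_le h1 hw hα
  have hexp : TT (401 / 100) η w (η + 10 / 3 * w)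
      = η * (2227357 / 3062500 + 391805703 / 49000000 * η - 55154743 / 10000000 * η ^ 2)
        + w * (114995653 / 3675000 - 19050247 / 350000 * η + 23637747 / 1000000 * η ^ 2)
        + w ^ 2 * (62481241 / 1470000 - 3376821 / 100000 * η) + 160801 / 10000 * w ^ 3 := by
    simp only [TT]
    ring
  rw [hexp]
  have e1 : 0 ≤ η * (2227357 / 3062500 + 391805703 / 49000000 * η
      - 55154743 / 10000000 * η ^ 2) := by
    apply mul_nonneg h0
    nlinarith
  have e2 : 0 ≤ w * (114995653 / 3675000 - 19050247 / 350000 * η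
      + 23637747 / 1000000 * η ^ 2) := by
    apply mul_nonneg hw
    nlinarith
  have e3 : 0 ≤ w ^ 2 * (62481241 / 1470000 - 3376821 / 100000 * η) :=
    mul_nonneg (sq_nonneg _) (by linarith)
  have e4 : 0 ≤ 160801 / 10000 * w ^ 3 := by positivity
  linarith

/-- the derivative in `B`, `a ≤ y` -/
lemma l1 {η w : ℝ} (h0 : 0 ≤ η) (h1 : η ≤ 1) (hw : 0 ≤ w) (hw1 : w ≤ 3 / 10 * (1 - η)) :
    0 ≤ 2 * (317 / 100) * ((1 - 7 / 10 * η + w) ^ 3 - (1 - η) ^ 2)
      + (1 - η - 10 / 3 * w - (1 - η) * (1 - 7 / 10 * η + w)) := by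
  have hz0 : 0 ≤ 1 - 7 / 10 * η := by linarith
  have h2 : (1 - 7 / 10 * η) ^ 3 + 3 * w * (1 - 7 / 10 * η) ^ 2 ≤ (1 - 7 / 10 * η + w) ^ 3 := by
    have e : (1 - 7 / 10 * η + w) ^ 3 = (1 - 7 / 10 * η) ^ 3 + 3 * w * (1 - 7 / 10 * η) ^ 2
        + (3 * (1 - 7 / 10 * η) * w ^ 2 + w ^ 3) := by ring
    rw [e]
    have : 0 ≤ 3 * (1 - 7 / 10 * η) * w ^ 2 + w ^ 3 := by positivity
    linarith
  have h3 : w * (-2 * η ^ 2) ≤ w * (146866 / 10000 - 25629 / 1000 * η + 9319 / 1000 * η ^ 2) := by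
    apply mul_le_mul_of_nonneg_left _ hw
    nlinarith [sq_nonneg (η - 113 / 100)]
  have h4 : w * (2 * η ^ 2) ≤ 3 / 10 * (1 - η) * (2 * η ^ 2) :=
    mul_le_mul_of_nonneg_right hw1 (by positivity)
  have h5 : 0 ≤ η * (65 / 1000 + 16798 / 10000 * η - 15747 / 10000 * η ^ 2) := by
    apply mul_nonneg h0
    nlinarith
  have h6 : 2 * (317 / 100) * ((1 - 7 / 10 * η) ^ 3 + 3 * w * (1 - 7 / 10 * η) ^ 2 - (1 - η) ^ 2)
      + (1 - η - 10 / 3 * w - (1 - η) * (1 - 7 / 10 * η + w))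
      = η * (66 / 1000 + 22798 / 10000 * η - 2174620 / 1000000 * η ^ 2)
        + w * (19 + 2 / 100 - 13 / 3 - 25628 / 1000 * η + 93198 / 10000 * η ^ 2) := by
    ring
  have h7 : w * (146866 / 10000 - 25629 / 1000 * η + 9319 / 1000 * η ^ 2)
      ≤ w * (19 + 2 / 100 - 13 / 3 - 25628 / 1000 * η + 93198 / 10000 * η ^ 2) := by
    apply mul_le_mul_of_nonneg_left _ hw
    nlinarith
  have h8 : 0 ≤ η ^ 3 := by positivity
  have h9 : 0 ≤ η ^ 2 := by positivity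
  linarith

/-- the derivative in `B`, `a ≥ y` -/
lemma l3 {y r : ℝ} (h0 : 0 ≤ y) (hr : 0 ≤ r) :
    0 ≤ 2 * (317 / 100) * ((3 / 10 + y + r) ^ 3 - y ^ 2)
      + (- (10 / 3 * r) - y * (3 / 10 + y + r)) + 8498 / 10000 * (10 / 3 * r) := by
  have e : 2 * (317 / 100) * ((3 / 10 + y + r) ^ 3 - y ^ 2)
      + (- (10 / 3 * r) - y * (3 / 10 + y + r)) + 8498 / 10000 * (10 / 3 * r)
      = 17118 / 100000 + y * (14118 / 10000 - 1634 / 1000 * y + 634 / 100 * y ^ 2)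
        + r * (17118 / 10000 - 1502 / 3000) + 10412 / 1000 * (y * r) + 5706 / 1000 * r ^ 2
        + 634 / 100 * (3 * y ^ 2 * r + 3 * y * r ^ 2 + r ^ 3) := by
    ring
  rw [e]
  have h1 : 0 ≤ y * (14118 / 10000 - 1634 / 1000 * y + 634 / 100 * y ^ 2) := by
    apply mul_nonneg h0
    nlinarith [sq_nonneg (y - 1 / 8)]
  have h2 : 0 ≤ r * (17118 / 10000 - 1502 / 3000) := mul_nonneg hr (by norm_num)
  positivity

/-- `α > 0` for `a ≥ y` -/
lemma al_pos {y r : ℝ} (h0 : 0 ≤ y) (hr : 0 ≤ r) : 0 < (3 / 10 + y + r) ^ 3 - y ^ 2 := by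
  have h1 : (3 / 10 + y) ^ 3 ≤ (3 / 10 + y + r) ^ 3 := pow_le_pow_left₀ (by linarith) (by linarith) 3
  have h2 : (3 / 10 + y) ^ 3 - y ^ 2 = 27 / 1000 + y * (27 / 100 - 1 / 10 * y + y ^ 2) := by ring
  have h3 : 0 ≤ y * (27 / 100 - 1 / 10 * y + y ^ 2) := by
    apply mul_nonneg h0
    nlinarith [sq_nonneg (y - 1 / 20)]
  linarith

/-- `TT` as a quadratic function of `B` -/
lemma TT_quad (B η w f : ℝ) : TT B η w f
    = ((1 - 7 / 10 * η + w) ^ 3 - (1 - η) ^ 2) * B ^ 2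
      + ((1 - η - 10 / 3 * w - (1 - η) * (1 - 7 / 10 * η + w)) + 8498 / 10000 * f) * B
      + (- (6 / 10 * (1 - η - 10 / 3 * w) * η)
        + f * (- (6 / 10 * η) + 32 / 100 * (1 - 7 / 10 * η + w)
        - 200 / 49 * (1 - η) + 30 / 49 * (1 - η - 10 / 3 * w))
        - 13 / 100 * (η + 10 / 3 * w)) := by
  simp only [TT]
  ring

/-- `TT` is affine in `f` -/
lemma TT_aff (B η w f0 f1 f : ℝ) : (f1 - f0) * TT B η w f
    = (f1 - f) * TT B η w f0 + (f - f0) * TT B η w f1 := by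
  simp only [TT]
  ring

lemma TT_between {B η w f0 f1 f : ℝ} (h0 : f0 ≤ f) (h1 : f ≤ f1) (hT0 : 0 ≤ TT B η w f0)
    (hT1 : 0 ≤ TT B η w f1) : 0 ≤ TT B η w f := by
  rcases h0.eq_or_lt with h | h
  · rw [← h]
    exact hT0
  · have h2 := TT_aff B η w f0 f1 f
    have h3 : 0 ≤ (f1 - f) * TT B η w f0 := mul_nonneg (by linarith) hT0
    have h4 : 0 ≤ (f - f0) * TT B η w f1 := mul_nonneg (by linarith) hT1
    have h5 : 0 < f1 - f0 := by linarith
    by_contra hcon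
    push Not at hcon
    have := mul_neg_of_pos_of_neg h5 hcon
    linarith

/-- the polynomial inequality of the second edge -/
lemma core {B η w f : ℝ} (hB : 317 / 100 ≤ B) (hB1 : B ≤ 401 / 100) (h0 : 0 ≤ η) (h1 : η ≤ 1)
    (hw : 0 ≤ w) (hw1 : w ≤ 7 / 10 * η) (hf0 : 0 ≤ f) (hf1 : 10 / 3 * w - (1 - η) ≤ f)
    (hf2 : f ≤ η + 10 / 3 * w) : 0 ≤ TT B η w f := by
  -- the upper end
  have hup : 0 ≤ TT B η w (η + 10 / 3 * w) := by
    rw [TT_quad]
    refine quad_ge hB hB1 ?_ (fun hα => ?_) (fun hα => ?_)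
    · rw [← TT_quad]
      exact p1 h0 h1 hw hw1
    · rw [← TT_quad]
      exact m1 h0 h1 hw hα
    · rcases le_total w (3 / 10 * (1 - η)) with hc | hc
      · have := l1 h0 h1 hw hc
        have h2 : 0 ≤ 8498 / 10000 * (η + 10 / 3 * w) := by positivity
        linarith
      · have h2 := l3 (y := 1 - η) (r := w - 3 / 10 * (1 - η)) (by linarith) (by linarith)
        have e1 : (3 : ℝ) / 10 + (1 - η) + (w - 3 / 10 * (1 - η)) = 1 - 7 / 10 * η + w := by ring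
        rw [e1] at h2
        linarith
  rcases le_total w (3 / 10 * (1 - η)) with hc | hc
  · -- `a ≤ y`
    refine TT_between hf0 hf2 ?_ hup
    rw [TT_quad]
    refine quad_ge hB hB1 ?_ (fun hα => ?_) (fun hα => ?_)
    · rw [← TT_quad]
      exact n2 h0 h1 hw hc
    · rw [← TT_quad]
      exact m2 h0 h1 hw hα
    · have := l1 h0 h1 hw hc
      linarith
  · -- `a ≥ y`
    obtain ⟨r, hr⟩ : ∃ r, r = w - 3 / 10 * (1 - η) := ⟨_, rfl⟩
    have hr0 : 0 ≤ r := by rw [hr]; linarith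
    have hα0 := al_pos (y := 1 - η) (r := r) (by linarith) hr0
    have e1 : (3 : ℝ) / 10 + (1 - η) + r = 1 - 7 / 10 * η + w := by rw [hr]; ring
    rw [e1] at hα0
    refine TT_between (f0 := 10 / 3 * r) (by rw [hr]; linarith) hf2 ?_ hup
    rw [TT_quad]
    refine quad_ge hB hB1 ?_ (fun hα => ?_) (fun hα => ?_)
    · rw [← TT_quad]
      have h2 := p3 (y := 1 - η) (r := r) (by linarith) hr0
      have e2 : (1 : ℝ) - (1 - η) = η := by ring
      have e3 : 3 / 10 * (1 - η) + r = w := by rw [hr]; ring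
      rw [e2, e3] at h2
      exact h2
    · linarith
    · have h2 := l3 (y := 1 - η) (r := r) (by linarith) hr0
      rw [e1] at h2
      have e4 : 1 - η - 10 / 3 * w = - (10 / 3 * r) := by rw [hr]; ring
      rw [e4]
      linarith

end Pool.Agent.Run7.h32.On
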