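import Pool.Agent.Run7.h32.On.Reg2

/-!
The second edge inequality with viscosity, large quotients of the rates.
-/

set_option autoImplicit false

namespace Pool.Agent.Run7.h32.On

/-- the polynomial of the second edge; `η = 1 - y`, `w = a / 3` -/
noncomputable def TV (B η w f : ℝ) : ℝ :=
  9996 / 10000 * B ^ 2 * ((1 - 2 / 3 * η + w) ^ 3 - (1 - η) ^ 2)
    + B * (1 - η - 3 * w - (1 - η) * (1 - 2 / 3 * η + w))
    - 2 / 3 * (1 - η - 3 * w) * η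
    + f * (833 / 1000 * B - 2 / 3 * η + 32 / 100 * (1 - 2 / 3 * η + w)
      - 200 / 49 * (1 - η) + 100 / 147 * (1 - η - 3 * w))
    - 1 / 20 * B * (η + 3 * w)

/-- `B = 4`, `f = 0` -/
lemma v2 {η w : ℝ} (h0 : 0 ≤ η) (h1 : η ≤ 1) (hw : 0 ≤ w) (hw1 : w ≤ 1 / 3 * (1 - η)) :
    0 ≤ TV 4 η w 0 := by
  have hexp : TV 4 η w 0
      = η * (9 / 5 + 2082 / 625 * η - 26656 / 5625 * η ^ 2)
        + w * (19613 / 625 - 36234 / 625 * η + 13328 / 625 * η ^ 2)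
        + w ^ 2 * (29988 / 625 - 19992 / 625 * η) + 9996 / 625 * w ^ 3 := by
    simp only [TV]
    ring
  rw [hexp]
  have e1 : 0 ≤ η * (9 / 5 + 1497 / 1000 * η - 2907 / 1000 * η ^ 2) := by
    apply mul_nonneg h0
    nlinarith
  have e2 : w * (-(55 / 10 * η ^ 2)) ≤ w * (19613 / 625 - 36234 / 625 * η
      + 13328 / 625 * η ^ 2) := by
    apply mul_le_mul_of_nonneg_left _ hw
    nlinarith [sq_nonneg (η - 108 / 100)]
  have e3 : w * (55 / 10 * η ^ 2) ≤ 1 / 3 * (1 - η) * (55 / 10 * η ^ 2) :=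
    mul_le_mul_of_nonneg_right hw1 (by positivity)
  have e4 : 0 ≤ w ^ 2 * (29988 / 625 - 19992 / 625 * η) :=
    mul_nonneg (sq_nonneg _) (by linarith)
  have e5 : 0 ≤ 9996 / 625 * w ^ 3 := by positivity
  have e6 : 0 ≤ η ^ 2 := by positivity
  have e7 : 0 ≤ η ^ 3 := by positivity
  linarith

/-- `B = 4`, `f = η + a` -/
lemma v1 {η w : ℝ} (h0 : 0 ≤ η) (h1 : η ≤ 1) (hw : 0 ≤ w) :
    0 ≤ TV 4 η w (η + 3 * w) := by
  have hexp : TV 4 η w (η + 3 * w)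
      = η * (75361 / 36750 + 537704 / 91875 * η - 26656 / 5625 * η ^ 2)
        + w * (1968129 / 61250 - 1596516 / 30625 * η + 13328 / 625 * η ^ 2)
        + w ^ 2 * (1311312 / 30625 - 19992 / 625 * η) + 9996 / 625 * w ^ 3 := by
    simp only [TV]
    ring
  rw [hexp]
  have e1 : 0 ≤ η * (75361 / 36750 + 537704 / 91875 * η - 26656 / 5625 * η ^ 2) := by
    apply mul_nonneg h0
    nlinarith
  have e2 : 0 ≤ w * (1968129 / 61250 - 1596516 / 30625 * η + 13328 / 625 * η ^ 2) := by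
    apply mul_nonneg hw
    nlinarith [sq_nonneg (η - 122 / 100)]
  have e4 : 0 ≤ w ^ 2 * (1311312 / 30625 - 19992 / 625 * η) :=
    mul_nonneg (sq_nonneg _) (by linarith)
  have e5 : 0 ≤ 9996 / 625 * w ^ 3 := by positivity
  linarith

/-- `B = 4`, `f = a - y` -/
lemma v3 {y r : ℝ} (h0 : 0 ≤ y) (hr : 0 ≤ r) :
    0 ≤ TV 4 (1 - y) (1 / 3 * y + r) (3 * r) := by
  have hexp : TV 4 (1 - y) (1 / 3 * y + r) (3 * r)
      = 2207 / 5625 + 3809 / 1250 * r + 331704 / 30625 * r ^ 2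
        + 511508 / 30625 * (r * y) + y * (7496 / 1875 - 4 * y + 9996 / 625 * y ^ 2)
        + 9996 / 625 * r ^ 3 + 29988 / 625 * (r ^ 2 * y) + 29988 / 625 * (r * y ^ 2) := by
    simp only [TV]
    ring
  rw [hexp]
  have h1 : 0 ≤ y * (7496 / 1875 - 4 * y + 9996 / 625 * y ^ 2) := by
    apply mul_nonneg h0
    nlinarith [sq_nonneg (y - 1 / 8)]
  positivity

lemma al_nn {η w : ℝ} (h1 : η ≤ 1) (hw : 0 ≤ w) :
    0 ≤ (1 - 2 / 3 * η + w) ^ 3 - (1 - η) ^ 2 := by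
  have h2 : (1 - 2 / 3 * η) ^ 3 ≤ (1 - 2 / 3 * η + w) ^ 3 :=
    pow_le_pow_left₀ (by linarith) (by linarith) 3
  have h4 : (1 - 2 / 3 * η) ^ 3 - (1 - η) ^ 2 = η ^ 2 * (1 / 3 - 8 / 27 * η) := by ring
  have h5 : 0 ≤ η ^ 2 * (1 / 3 - 8 / 27 * η) := mul_nonneg (sq_nonneg _) (by linarith)
  linarith

/-- the derivative in `B`, `a ≤ y` -/
lemma w1 {η w : ℝ} (h0 : 0 ≤ η) (h1 : η ≤ 1) (hw : 0 ≤ w) (hw1 : w ≤ 1 / 3 * (1 - η)) :
    0 ≤ 8 * (9996 / 10000 * ((1 - 2 / 3 * η + w) ^ 3 - (1 - η) ^ 2))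
      + (1 - η - 3 * w - (1 - η) * (1 - 2 / 3 * η + w) - 1 / 20 * (η + 3 * w)) := by
  have hexp : 8 * (9996 / 10000 * ((1 - 2 / 3 * η + w) ^ 3 - (1 - η) ^ 2))
      + (1 - η - 3 * w - (1 - η) * (1 - 2 / 3 * η + w) - 1 / 20 * (η + 3 * w))
      = η * (37 / 60 + 3748 / 1875 * η - 13328 / 5625 * η ^ 2)
        + w * (49601 / 2500 - 19367 / 625 * η + 6664 / 625 * η ^ 2)
        + w ^ 2 * (14994 / 625 - 9996 / 625 * η) + 4998 / 625 * w ^ 3 := by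
    ring
  rw [hexp]
  have e1 : 0 ≤ η * (37 / 60 + 1332 / 1000 * η - 17028 / 10000 * η ^ 2) := by
    apply mul_nonneg h0
    nlinarith
  have e2 : w * (-(2 * η ^ 2)) ≤ w * (49601 / 2500 - 19367 / 625 * η + 6664 / 625 * η ^ 2) := by
    apply mul_le_mul_of_nonneg_left _ hw
    nlinarith [sq_nonneg (η - 122 / 100)]
  have e3 : w * (2 * η ^ 2) ≤ 1 / 3 * (1 - η) * (2 * η ^ 2) :=
    mul_le_mul_of_nonneg_right hw1 (by positivity)
  have e4 : 0 ≤ w ^ 2 * (14994 / 625 - 9996 / 625 * η) :=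
    mul_nonneg (sq_nonneg _) (by linarith)
  have e5 : 0 ≤ 4998 / 625 * w ^ 3 := by positivity
  have e6 : 0 ≤ η ^ 2 := by positivity
  have e7 : 0 ≤ η ^ 3 := by positivity
  linarith

/-- the derivative in `B`, `a ≥ y` -/
lemma w3 {y r : ℝ} (h0 : 0 ≤ y) (hr : 0 ≤ r) :
    0 ≤ 8 * (9996 / 10000 * ((1 - 2 / 3 * (1 - y) + (1 / 3 * y + r)) ^ 3 - (1 - (1 - y)) ^ 2))
      + (1 - (1 - y) - 3 * (1 / 3 * y + r)
        - (1 - (1 - y)) * (1 - 2 / 3 * (1 - y) + (1 / 3 * y + r))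
        - 1 / 20 * ((1 - y) + 3 * (1 / 3 * y + r))) + 833 / 1000 * (3 * r) := by
  have hexp : 8 * (9996 / 10000 * ((1 - 2 / 3 * (1 - y) + (1 / 3 * y + r)) ^ 3
        - (1 - (1 - y)) ^ 2))
      + (1 - (1 - y) - 3 * (1 / 3 * y + r)
        - (1 - (1 - y)) * (1 - 2 / 3 * (1 - y) + (1 / 3 * y + r))
        - 1 / 20 * ((1 - y) + 3 * (1 / 3 * y + r))) + 833 / 1000 * (3 * r)
      = 5539 / 22500 + 10073 / 5000 * r + 4998 / 625 * r ^ 2 + 9371 / 625 * (r * y)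
        + y * (4373 / 1875 - y + 4998 / 625 * y ^ 2)
        + 4998 / 625 * r ^ 3 + 14994 / 625 * (r ^ 2 * y) + 14994 / 625 * (r * y ^ 2) := by
    ring
  rw [hexp]
  have h1 : 0 ≤ y * (4373 / 1875 - y + 4998 / 625 * y ^ 2) := by
    apply mul_nonneg h0
    nlinarith [sq_nonneg (y - 1 / 16)]
  positivity

/-- `TV` as a quadratic function of `B` -/
lemma TV_quad (B η w f : ℝ) : TV B η w f
    = (9996 / 10000 * ((1 - 2 / 3 * η + w) ^ 3 - (1 - η) ^ 2)) * B ^ 2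
      + ((1 - η - 3 * w - (1 - η) * (1 - 2 / 3 * η + w) - 1 / 20 * (η + 3 * w))
        + 833 / 1000 * f) * B
      + (- (2 / 3 * (1 - η - 3 * w) * η)
        + f * (- (2 / 3 * η) + 32 / 100 * (1 - 2 / 3 * η + w)
        - 200 / 49 * (1 - η) + 100 / 147 * (1 - η - 3 * w))) := by
  simp only [TV]
  ring

lemma TV_mono {B η w f : ℝ} (hB : 4 ≤ B) (h1 : η ≤ 1) (hw : 0 ≤ w) (h4 : 0 ≤ TV 4 η w f)
    (hd : 0 ≤ 8 * (9996 / 10000 * ((1 - 2 / 3 * η + w) ^ 3 - (1 - η) ^ 2))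
      + (1 - η - 3 * w - (1 - η) * (1 - 2 / 3 * η + w) - 1 / 20 * (η + 3 * w))
      + 833 / 1000 * f) : 0 ≤ TV B η w f := by
  have h5 := al_nn h1 hw
  have h6 := mul_nonneg (by linarith : 0 ≤ B - 4) hd
  have h7 : 0 ≤ (B - 4) ^ 2 * (9996 / 10000 * ((1 - 2 / 3 * η + w) ^ 3 - (1 - η) ^ 2)) := by
    positivity
  rw [TV_quad] at h4 ⊢
  linarith

/-- `TV` is affine in `f` -/
lemma TV_aff (B η w f0 f1 f : ℝ) : (f1 - f0) * TV B η w f
    = (f1 - f) * TV B η w f0 + (f - f0) * TV B η w f1 := by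
  simp only [TV]
  ring

lemma TV_between {B η w f0 f1 f : ℝ} (h0 : f0 ≤ f) (h1 : f ≤ f1) (hT0 : 0 ≤ TV B η w f0)
    (hT1 : 0 ≤ TV B η w f1) : 0 ≤ TV B η w f := by
  rcases h0.eq_or_lt with h | h
  · rw [← h]
    exact hT0
  · have h2 := TV_aff B η w f0 f1 f
    have h3 : 0 ≤ (f1 - f) * TV B η w f0 := mul_nonneg (by linarith) hT0
    have h4 : 0 ≤ (f - f0) * TV B η w f1 := mul_nonneg (by linarith) hT1
    have h5 : 0 < f1 - f0 := by linarith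
    by_contra hcon
    push Not at hcon
    have := mul_neg_of_pos_of_neg h5 hcon
    linarith

/-- the polynomial inequality of the second edge -/
lemma coreV {B η w f : ℝ} (hB : 4 ≤ B) (h0 : 0 ≤ η) (h1 : η ≤ 1)
    (hw : 0 ≤ w) (hf0 : 0 ≤ f) (hf1 : 3 * w - (1 - η) ≤ f)
    (hf2 : f ≤ η + 3 * w) : 0 ≤ TV B η w f := by
  rcases le_total w (1 / 3 * (1 - η)) with hc | hc
  · -- `a ≤ y`
    have hd := w1 h0 h1 hw hc
    refine TV_between hf0 hf2 (TV_mono hB h1 hw (v2 h0 h1 hw hc) (by linarith))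
      (TV_mono hB h1 hw (v1 h0 h1 hw) ?_)
    have : 0 ≤ 833 / 1000 * (η + 3 * w) := by positivity
    linarith
  · -- `a ≥ y`
    obtain ⟨r, hr⟩ : ∃ r, r = w - 1 / 3 * (1 - η) := ⟨_, rfl⟩
    have hr0 : 0 ≤ r := by rw [hr]; linarith
    have e2 : (1 : ℝ) - (1 - η) = η := by ring
    have e3 : 1 / 3 * (1 - η) + r = w := by rw [hr]; ring
    have hd := w3 (y := 1 - η) (r := r) (by linarith) hr0
    rw [e2, e3] at hd
    have hv := v3 (y := 1 - η) (r := r) (by linarith) hr0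
    rw [e2, e3] at hv
    refine TV_between (f0 := 3 * r) (by rw [hr]; linarith) hf2 (TV_mono hB h1 hw hv (by linarith))
      (TV_mono hB h1 hw (v1 h0 h1 hw) ?_)
    have : 833 / 1000 * (3 * r) ≤ 833 / 1000 * (η + 3 * w) := by
      rw [hr]
      linarith
    linarith

end Pool.Agent.Run7.h32.On
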